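import Pool.Agent.Lib.MP_ed43e6_ag.N.Defs

/-! A lower bound for the dimension of the closure of the diagonalisable triples. -/

namespace Pool.Agent.Lib.MP_ed43e6_ag.N

open MvPolynomial Module Matrix Finset

universe u

namespace Base

/-- The matrix with columns `Y ^ j` applied to the vector of ones. -/
noncomputable def kry {A : Type*} [CommRing A] {n : ℕ} (Y : Matrix (Fin n) (Fin n) A) :
    Matrix (Fin n) (Fin n) A :=
  Matrix.of fun a j => ((Y ^ (j : ℕ)) *ᵥ fun _ => 1) a

theorem kry_map {A B : Type*} [CommRing A] [CommRing B] {n : ℕ} (Y : Matrix (Fin n) (Fin n) A)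
    (f : A →+* B) : kry (Y.map f) = (kry Y).map f := by
  ext a j
  have : (Y.map f) ^ (j : ℕ) = (Y ^ (j : ℕ)).map f := (map_pow f.mapMatrix Y j).symm
  simp [kry, this, mulVec, dotProduct]

theorem kry_diagonal {A : Type*} [CommRing A] {n : ℕ} (μ : Fin n → A) :
    kry (diagonal μ) = vandermonde μ := by
  ext a j
  simp [kry, diagonal_pow, mulVec_diagonal, vandermonde_apply]

theorem exists_comm {Ω : Type*} [Field Ω] {n : ℕ} (Y : Matrix (Fin n) (Fin n) Ω)
    (h : (kry Y).det ≠ 0) (w : Fin n → Ω) :
    ∃ M : Matrix (Fin n) (Fin n) Ω, Y * M = M * Y ∧ ∀ a, ∑ b, M a b = w a := by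
  let c : Fin n → Ω := (kry Y)⁻¹ *ᵥ w
  have hc : kry Y *ᵥ c = w := by
    rw [mulVec_mulVec, mul_nonsing_inv _ (isUnit_iff_ne_zero.2 h), one_mulVec]
  refine ⟨∑ j : Fin n, c j • Y ^ (j : ℕ), ?_, fun a => ?_⟩
  · exact Commute.sum_right _ _ _ fun j _ => ((Commute.refl Y).pow_right _).smul_right _
  · rw [← hc]
    simp only [Matrix.sum_apply, Matrix.smul_apply, smul_eq_mul, mulVec, dotProduct, kry,
      Matrix.of_apply, mul_one]
    rw [Finset.sum_comm]
    exact Finset.sum_congr rfl fun j _ => by rw [← Finset.mul_sum, mul_comm]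

/-- The index set of the independent functions. -/
abbrev T (n : ℕ) := (Fin n × Fin n) ⊕ (Fin 2 × Fin n)

/-- The entries of the first matrix and the row sums of the other two. -/
noncomputable def fn (K : Type u) [Field K] (n : ℕ) : T n → MvPolynomial (Var (Fin n)) K :=
  Sum.elim (fun p => X (0, p.1, p.2)) fun p => ∑ b, X (p.1.succ, p.2, b)

theorem exists_point (K : Type u) [Field K] [IsAlgClosed K] (n : ℕ) :
    ∃ (Ω : Type u) (_ : Field Ω) (_ : Algebra K Ω) (M : Fin 3 → Matrix (Fin n) (Fin n) Ω),
      SmM K M ∧ AlgebraicIndependent K fun t => aeval (ent M) (fn K n t) := by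
  let R := MvPolynomial (T n) K
  let Ω := AlgebraicClosure (FractionRing R)
  let j : R →ₐ[K] Ω := IsScalarTower.toAlgHom K R Ω
  have hj : Function.Injective j := by
    change Function.Injective (algebraMap R Ω)
    rw [IsScalarTower.algebraMap_eq R (FractionRing R) Ω]
    exact (algebraMap (FractionRing R) Ω).injective.comp (IsFractionRing.injective R _)
  let Y₀ : Matrix (Fin n) (Fin n) R := Matrix.of fun a b => X (Sum.inl (a, b))
  let μ : Fin n → K := fun a => Infinite.natEmbedding K a
  have hμ : Function.Injective μ := (Infinite.natEmbedding K).injective.comp Fin.val_injective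
  let φ : R →ₐ[K] K := aeval (Sum.elim (fun p => diagonal μ p.1 p.2) fun _ => 0)
  have hφ : Y₀.map (φ : R →+* K) = diagonal μ := by
    ext a b
    exact aeval_X _ _
  let Y := Y₀.map (j : R →+* Ω)
  have hsep : Y.charpoly.Separable := by
    rw [charpoly_map]
    refine separable_map_of_separable_map _ Y₀.charpoly_monic (φ : R →+* K) _ hj ?_
    rw [← charpoly_map, hφ]
    refine separable_charpoly_of_roots _ μ hμ fun a => isRoot_charpoly_of_mulVec
      (v := Pi.single a 1) (fun h => by simpa using congrFun h a) ?_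
    ext b
    by_cases hb : b = a
    · subst hb
      simp [mulVec_diagonal]
    · simp [mulVec_diagonal, hb]
  have hk : (kry Y).det ≠ 0 := by
    rw [kry_map, ← RingHom.mapMatrix_apply, ← RingHom.map_det]
    refine (map_ne_zero_iff _ hj).2 fun h => ?_
    have := congrArg (φ : R →+* K) h
    rw [RingHom.map_det, RingHom.mapMatrix_apply, ← kry_map, hφ, kry_diagonal, map_zero] at this
    exact det_vandermonde_ne_zero_iff.2 hμ this
  choose N hN hs using fun k : Fin 2 => exists_comm Y hk fun a => j (X (Sum.inr (k, a)))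
  refine ⟨Ω, inferInstance, inferInstance, Fin.cons Y N, ?_, ?_⟩
  · refine (diag_of_separable _ Y (fun i => ?_) hsep).smM
    refine Fin.cases ?_ (fun k => ?_) i
    · rfl
    · exact hN k
  · have e : (fun t => aeval (ent (Fin.cons Y N : Fin 3 → Matrix (Fin n) (Fin n) Ω)) (fn K n t)) =
        j ∘ X := by
      funext t
      rcases t with p | p
      · simp [fn, ent, Y, Y₀]
      · simp [fn, ent, hs]
    rw [e]
    exact (MvPolynomial.algebraicIndependent_X (T n) K).map' hj

end Base

theorem baseStmt : BaseStmt.{u} := by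
  intro K _ _ n
  obtain ⟨Ω, _, _, M, hM, hi⟩ := Base.exists_point K n
  let ψ : OO K n →ₐ[K] Ω := Ideal.Quotient.liftₐ _ (aeval (ent M)) fun P hP => hM P hP
  have h : AlgebraicIndependent K fun t => (Ideal.Quotient.mk _ (Base.fn K n t) : OO K n) :=
    AlgebraicIndependent.of_comp ψ hi
  have := h.lift_cardinalMk_le_trdeg
  rw [Cardinal.lift_uzero] at this
  refine le_trans (le_of_eq ?_) this
  simp [mul_comm]

end Pool.Agent.Lib.MP_ed43e6_ag.N
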