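import Pool.Agent.Lib.MP_ed43e6_ag.N.Defs

/-! Initial monomials after a generic unipotent substitution are Borel stable. -/

namespace Pool.Agent.Lib.MP_ed43e6_ag.N

open MvPolynomial

universe u

namespace Borel

variable {F Ω : Type u} [Field F] [Field Ω] [Algebra F Ω]

/-- The derivation applied to all coefficients. -/
noncomputable def dl (δ : Derivation F Ω Ω) (f : SS Ω) : SS Ω :=
  ∑ m ∈ f.support, monomial m (δ (coeff m f))

theorem coeff_dl (δ : Derivation F Ω Ω) (f : SS Ω) (m : Fin 3 →₀ ℕ) :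
    coeff m (dl δ f) = δ (coeff m f) := by
  classical
  simp only [dl, coeff_sum, coeff_monomial, Finset.sum_ite_eq']
  split_ifs with h
  · rfl
  · rw [notMem_support_iff.1 h, map_zero]

theorem dl_add (δ : Derivation F Ω Ω) (f g : SS Ω) : dl δ (f + g) = dl δ f + dl δ g := by
  ext m
  simp only [coeff_dl, coeff_add, map_add]

theorem dl_C_mul (δ : Derivation F Ω Ω) (a : Ω) (f : SS Ω) :
    dl δ (C a * f) = C (δ a) * f + C a * dl δ f := by
  ext m
  simp only [coeff_dl, coeff_add, coeff_C_mul, Derivation.leibniz, smul_eq_mul]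
  ring

theorem dl_mul_X (δ : Derivation F Ω Ω) (f : SS Ω) (i : Fin 3) :
    dl δ (f * X i) = dl δ f * X i := by
  ext m
  simp only [coeff_dl, coeff_mul_X']
  split_ifs
  · rfl
  · exact map_zero δ

theorem dl_C (δ : Derivation F Ω Ω) (a : Ω) : dl δ (C a) = C (δ a) := by
  ext m
  simp only [coeff_dl, coeff_C]
  split_ifs
  · rfl
  · exact map_zero δ

theorem dl_X (δ : Derivation F Ω Ω) (i : Fin 3) : dl δ (X i : SS Ω) = 0 := by
  have := dl_mul_X δ (C 1) i
  rw [dl_C, Derivation.map_one_eq_zero] at this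
  simpa using this

theorem dl_mul (δ : Derivation F Ω Ω) (f g : SS Ω) : dl δ (f * g) = dl δ f * g + f * dl δ g := by
  induction g using MvPolynomial.induction_on with
  | C a => rw [mul_comm f, dl_C_mul, dl_C]; ring
  | add p q hp hq => rw [mul_add, dl_add, dl_add, hp, hq]; ring
  | mul_X p i hp => rw [← mul_assoc, dl_mul_X, dl_mul_X, hp]; ring

theorem dl_map (δ : Derivation F Ω Ω) (φ : SS Ω →ₐ[Ω] SS Ω) (j k : Fin 3)
    (h : ∀ i, dl δ (φ (X i)) = φ (X j * pderiv k (X i))) (f : SS Ω) :
    dl δ (φ f) = φ (dl δ f + X j * pderiv k f) := by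
  induction f using MvPolynomial.induction_on with
  | C a => rw [algHom_C, pderiv_C, mul_zero, add_zero, dl_C, algHom_C]; exact dl_C δ a
  | add p q hp hq =>
    rw [map_add, dl_add, hp, hq, ← map_add, dl_add, map_add (pderiv k)]
    congr 1
    ring
  | mul_X p i hp =>
    rw [map_mul, dl_mul, hp, h, ← map_mul, ← map_mul, ← map_add, dl_mul_X, pderiv_mul]
    congr 1
    ring

theorem step (δ : Derivation F Ω Ω) {J : Ideal (SS Ω)} {j k : Fin 3}
    (hJ : ∀ f ∈ J, dl δ f + X j * pderiv k f ∈ J) {c : ℕ} (hc : 0 < c)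
    (hw : ∀ v, wt (v + Finsupp.single j 1) + c = wt (v + Finsupp.single k 1))
    {w : Fin 3 →₀ ℕ} (h0 : ((w k + 1 : ℕ) : Ω) ≠ 0) (h : w + Finsupp.single k 1 ∈ ini J) :
    w + Finsupp.single j 1 ∈ ini J := by
  classical
  obtain ⟨f, hf, h1, h2⟩ := h
  have low : ∀ v ∈ f.support, wt (w + Finsupp.single j 1) < wt v := fun v hv => by
    have := hw w
    by_cases e : v = w + Finsupp.single k 1
    · rw [e]; omega
    · have := h2 v hv e
      omega
  refine ⟨_, hJ f hf, ?_, fun v hv hne => ?_⟩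
  · have e : coeff (w + Finsupp.single j 1) f = 0 := by
      by_contra e
      exact lt_irrefl _ (low _ (mem_support_iff.2 e))
    rw [coeff_add, coeff_dl, e, map_zero, zero_add, add_comm w, coeff_X_mul, coeff_pderiv]
    exact mul_ne_zero h1 (by exact_mod_cast h0)
  · by_cases e : coeff v f = 0
    swap
    · exact low v (mem_support_iff.2 e)
    have h3 := mem_support_iff.1 hv
    rw [coeff_add, coeff_dl, e, map_zero, zero_add, coeff_X_mul'] at h3
    by_cases hj : j ∈ v.support
    swap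
    · exact absurd (if_neg hj) h3
    rw [if_pos hj, coeff_pderiv] at h3
    have e2 : v - Finsupp.single j 1 + Finsupp.single j 1 = v :=
      tsub_add_cancel_of_le (Finsupp.single_le_iff.2 (Nat.pos_of_ne_zero (Finsupp.mem_support_iff.1 hj)))
    have h4 := h2 _ (mem_support_iff.2 (left_ne_zero_of_mul h3)) fun e3 =>
      hne (by rw [← e2, add_right_cancel e3])
    have h5 := hw w
    have h6 := hw (v - Finsupp.single j 1)
    rw [e2] at h6
    omega

theorem unip_mem (a b c : Ω) {n : ℕ} {f : SS Ω} (hf : f ∈ mm Ω ^ n) : unip a b c f ∈ mm Ω ^ n := by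
  have x : ∀ i, (X i : SS Ω) ∈ mm Ω := fun i => Ideal.subset_span ⟨i, rfl⟩
  have : (mm Ω).map (unip a b c) ≤ mm Ω := by
    rw [Ideal.map_span, Ideal.span_le]
    rintro _ ⟨_, ⟨i, rfl⟩, rfl⟩
    rw [unip, aeval_X]
    fin_cases i
    · exact x 0
    · exact add_mem (x 1) (Ideal.mul_mem_left _ _ (x 0))
    · exact add_mem (add_mem (x 2) (Ideal.mul_mem_left _ _ (x 1))) (Ideal.mul_mem_left _ _ (x 0))
  have h2 := Ideal.mem_map_of_mem (unip a b c) hf
  rw [Ideal.map_pow] at h2
  exact Ideal.pow_right_mono this n h2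

theorem big (a b c : Ω) {I : Ideal (SS Ω)} {M : ℕ} (hM : mm Ω ^ M ≤ I) {p q t : ℕ}
    (h : M ≤ p + q + t) : mon p q t ∈ ini (I.comap (unip a b c)) := by
  classical
  refine ⟨monomial (mon p q t) 1, hM (unip_mem a b c ?_), by simp, fun v hv hne => ?_⟩
  · rw [monomial_mem_pow_idealOfVars_iff _ _ one_ne_zero]
    simpa [mon] using h
  · exact absurd (Finset.mem_singleton.1 (support_monomial_subset hv)) hne

end Borel

open Borel in
theorem borelStmt : BorelStmt.{u} := by
  intro F Ω _ _ _ δ₁ δ₂ a b c a1 b1 c1 a2 b2 c2 I M hM hch s1 s2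
  have k1 := dl_map δ₁ (unip a b c) 0 1 fun i => by
    fin_cases i <;> simp [unip, dl_add, dl_C_mul, dl_X, a1, b1, c1, pderiv_X]
  have k2 := dl_map δ₂ (unip a b c) 1 2 fun i => by
    fin_cases i <;> simp [unip, dl_add, dl_C_mul, dl_X, a2, b2, c2, pderiv_X]
  refine ⟨fun p q t h => ?_, fun p q t h => ?_⟩
  · by_cases hq : q + 1 < M
    swap
    · exact big a b c hM (by omega)
    have e1 : mon p (q + 1) t = mon p q t + Finsupp.single 1 1 := by
      ext i; fin_cases i <;> simp [mon]
    have e2 : mon (p + 1) q t = mon p q t + Finsupp.single 0 1 := by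
      ext i; fin_cases i <;> simp [mon]
    rw [e1] at h
    rw [e2]
    refine Borel.step δ₁ (c := 128) (fun f hf => ?_) (by norm_num) (fun v => ?_) ?_ h
    · rw [Ideal.mem_comap, ← k1]
      exact s1 _ hf _ (coeff_dl δ₁ _)
    · simp [wt, key]
      ring
    · simpa [mon] using hch (q + 1) (by omega) hq
  · by_cases hq : t + 1 < M
    swap
    · exact big a b c hM (by omega)
    have e1 : mon p q (t + 1) = mon p q t + Finsupp.single 2 1 := by
      ext i; fin_cases i <;> simp [mon]
    have e2 : mon p (q + 1) t = mon p q t + Finsupp.single 1 1 := by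
      ext i; fin_cases i <;> simp [mon]
    rw [e1] at h
    rw [e2]
    refine Borel.step δ₂ (c := 1) (fun f hf => ?_) (by norm_num) (fun v => ?_) ?_ h
    · rw [Ideal.mem_comap, ← k2]
      exact s2 _ hf _ (coeff_dl δ₂ _)
    · simp [wt, key]
      ring
    · simpa [mon] using hch (t + 1) (by omega) hq

end Pool.Agent.Lib.MP_ed43e6_ag.N
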