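import Pool.Agent.Lib.MP_ed43e6_ag.N.Defs

/-! From a chain of three ideals to column heights. -/

namespace Pool.Agent.Lib.MP_ed43e6_ag.N

open MvPolynomial Module Matrix Finset

universe u

namespace Chain

@[simp] theorem mon_zero (a b t : ℕ) : mon a b t 0 = a := by simp [mon]

@[simp] theorem mon_one (a b t : ℕ) : mon a b t 1 = b := by simp [mon]

@[simp] theorem mon_two (a b t : ℕ) : mon a b t 2 = t := by simp [mon]

theorem mon_eta (u : Fin 3 →₀ ℕ) : mon (u 0) (u 1) (u 2) = u := by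
  ext i
  fin_cases i <;> simp

theorem mon_inj {a b t a' b' t' : ℕ} : mon a b t = mon a' b' t' ↔ a = a' ∧ b = b' ∧ t = t' := by
  constructor
  · intro h
    exact ⟨by simpa using congrArg (· 0) h, by simpa using congrArg (· 1) h,
      by simpa using congrArg (· 2) h⟩
  · rintro ⟨rfl, rfl, rfl⟩
    rfl

theorem mon_add (a b t a' b' t' : ℕ) :
    mon a b t + mon a' b' t' = mon (a + a') (b + b') (t + t') := by
  ext i
  fin_cases i <;> simp

theorem wt_add (u v : Fin 3 →₀ ℕ) : wt (u + v) = wt u + wt v := by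
  simp only [wt, key, Finsupp.add_apply]
  ring

variable {Ω : Type u} [Field Ω]

theorem ini_mono {I J : Ideal (SS Ω)} (h : I ≤ J) : ini I ⊆ ini J :=
  fun _ ⟨f, hf, h1, h2⟩ => ⟨f, h hf, h1, h2⟩

theorem ini_add {I : Ideal (SS Ω)} {u : Fin 3 →₀ ℕ} (hu : u ∈ ini I) (w : Fin 3 →₀ ℕ) :
    w + u ∈ ini I := by
  obtain ⟨f, hf, h1, h2⟩ := hu
  refine ⟨monomial w 1 * f, I.mul_mem_left _ hf, by rwa [coeff_monomial_mul, one_mul], ?_⟩
  intro v hv hne
  rw [MvPolynomial.mem_support_iff, coeff_monomial_mul'] at hv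
  split_ifs at hv with hle
  · obtain ⟨v', rfl⟩ := exists_add_of_le hle
    rw [add_tsub_cancel_left, one_mul] at hv
    rw [wt_add, wt_add]
    exact Nat.add_lt_add_left
      (h2 v' (MvPolynomial.mem_support_iff.2 hv) fun h => hne (by rw [h])) _
  · exact absurd rfl hv

theorem monomial_mon (a b t : ℕ) :
    (monomial (mon a b t) 1 : SS Ω) = X 0 ^ a * X 1 ^ b * X 2 ^ t := by
  rw [X_pow_eq_monomial, X_pow_eq_monomial, X_pow_eq_monomial, monomial_mul, monomial_mul, mul_one,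
    mul_one, mon]

theorem mem_ini_of_deg {I : Ideal (SS Ω)} {M : ℕ} (hM : mm Ω ^ M ≤ I) {a b t : ℕ}
    (h : M ≤ a + b + t) : mon a b t ∈ ini I := by
  refine ⟨monomial (mon a b t) 1, hM (Ideal.pow_le_pow_right h ?_), by simp, ?_⟩
  · rw [monomial_mon, pow_add, pow_add]
    exact Ideal.mul_mem_mul (Ideal.mul_mem_mul (X_pow_mem _ _) (X_pow_mem _ _)) (X_pow_mem _ _)
  · intro v hv hne
    exact absurd (Finset.mem_singleton.1 (support_monomial_subset hv)) hne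

theorem exists_height {I : Ideal (SS Ω)} {M : ℕ} (hM : mm Ω ^ M ≤ I) {lam : Finset (Fin 3 →₀ ℕ)}
    (hl : ∀ u, u ∈ lam ↔ u ∉ ini I) :
    ∃ h : ℕ → ℕ → ℕ, ∀ a b t, mon a b t ∈ lam ↔ t < h a b := by
  classical
  have hex : ∀ a b, ∃ t, mon a b t ∈ ini I := fun a b => ⟨M, mem_ini_of_deg hM (by omega)⟩
  refine ⟨fun a b => Nat.find (hex a b), fun a b t => ?_⟩
  rw [hl]
  constructor
  · intro ht
    by_contra hc
    push Not at hc
    obtain ⟨k, rfl⟩ := exists_add_of_le hc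
    apply ht
    have := ini_add (Nat.find_spec (hex a b)) (mon 0 0 k)
    rwa [mon_add, zero_add, zero_add, add_comm] at this
  · exact fun ht => Nat.find_min (hex a b) ht

theorem bor_of {J : Set (Fin 3 →₀ ℕ)} (hJ : IsBorel J) {lam : Finset (Fin 3 →₀ ℕ)}
    (hl : ∀ u, u ∈ lam ↔ u ∉ J) {h : ℕ → ℕ → ℕ} (hh : ∀ a b t, mon a b t ∈ lam ↔ t < h a b) :
    Bor h := by
  have key : ∀ a b t, mon a b t ∈ J ↔ h a b ≤ t := fun a b t => by
    rw [← not_lt, ← hh, hl, not_not]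
  refine ⟨fun a b => ?_, fun a b => ?_⟩
  · rw [← key]
    apply hJ.2
    rw [key]
    omega
  · rw [← key]
    apply hJ.1
    rw [key]

theorem sum_eq {lam : Finset (Fin 3 →₀ ℕ)} {h : ℕ → ℕ → ℕ} {N : ℕ}
    (hh : ∀ a b t, mon a b t ∈ lam ↔ t < h a b)
    (hb : ∀ a b t, mon a b t ∈ lam → a < N ∧ b < N) :
    ∑ a ∈ range N, ∑ b ∈ range N, h a b = lam.card := by
  classical
  have h1 : ∑ a ∈ range N, ∑ b ∈ range N, h a b =
      ((range N).sigma fun a => (range N).sigma fun b => range (h a b)).card := by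
    simp only [Finset.card_sigma, Finset.card_range]
  rw [h1]
  refine Finset.card_bij (fun x _ => mon x.1 x.2.1 x.2.2) ?_ ?_ ?_
  · rintro ⟨a, b, t⟩ hx
    simp only [Finset.mem_sigma, Finset.mem_range] at hx
    exact (hh _ _ _).2 hx.2.2
  · rintro ⟨a, b, t⟩ _ ⟨a', b', t'⟩ _ he
    obtain ⟨rfl, rfl, rfl⟩ := mon_inj.1 he
    rfl
  · intro u hu
    rw [← mon_eta u] at hu
    refine ⟨⟨u 0, u 1, u 2⟩, ?_, mon_eta u⟩
    simp only [Finset.mem_sigma, Finset.mem_range]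
    exact ⟨(hb _ _ _ hu).1, (hb _ _ _ hu).2, (hh _ _ _).1 hu⟩

theorem size_eq {lam : Finset (Fin 3 →₀ ℕ)} {h : ℕ → ℕ → ℕ}
    (hh : ∀ a b t, mon a b t ∈ lam ↔ t < h a b)
    (hb : ∀ a b t, mon a b t ∈ lam → a < 128 ∧ b < 128) : size h = lam.card :=
  sum_eq hh hb

theorem exists_bump {lam lam' : Finset (Fin 3 →₀ ℕ)} {h h' : ℕ → ℕ → ℕ}
    (hh : ∀ a b t, mon a b t ∈ lam ↔ t < h a b) (hh' : ∀ a b t, mon a b t ∈ lam' ↔ t < h' a b)
    (hs : lam ⊆ lam') (hc : lam'.card = lam.card + 1) : ∃ p q, h' = bump h p q := by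
  classical
  obtain ⟨u, hu, he⟩ := Finset.exists_eq_insert_iff.2 ⟨hs, hc.symm⟩
  obtain ⟨p, q, s, rfl⟩ : ∃ p q s, u = mon p q s := ⟨_, _, _, (mon_eta u).symm⟩
  have key : ∀ a b t, t < h' a b ↔ (a = p ∧ b = q ∧ t = s) ∨ t < h a b := fun a b t => by
    rw [← hh', ← he, Finset.mem_insert, mon_inj, hh]
  rw [hh] at hu
  refine ⟨p, q, funext fun a => funext fun b => ?_⟩
  unfold bump
  split_ifs with hab
  · obtain ⟨rfl, rfl⟩ := hab
    have h1 := (key a b s).2 (Or.inl ⟨rfl, rfl, rfl⟩)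
    have h2 := key a b (h a b)
    have h3 := key a b (h a b + 1)
    omega
  · have h2 := key a b (h a b)
    have h3 := key a b (h' a b)
    have h4 : ∀ t, ¬ (a = p ∧ b = q ∧ t = s) := fun t ht => hab ⟨ht.1, ht.2.1⟩
    simp only [h4, false_or] at h2 h3
    omega

end Chain

open Chain in
theorem chainStmt : NFStmt.{u} → CheckStmt → CombStmt → GenStmt.{u} →
    ∀ n, 12 ≤ n → n ≤ 31 → ChainStmt.{u} n := by
  intro hNF hCheck hComb hGen n hn12 hn31 K Ω _ _ _ I h01 h12 hM f0 f1 f2 hB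
  have hMj : ∀ j, mm Ω ^ (n + 1) ≤ I j := by
    intro j
    fin_cases j
    · exact hM
    · exact hM.trans h01
    · exact (hM.trans h01).trans h12
  choose lam nf hnf using fun j => hNF Ω (I j) (n + 1) (by omega) (hMj j)
  choose h hh using fun j => exists_height (hMj j) (hnf j).mem_iff
  have hsub : ∀ j k, I j ≤ I k → lam k ⊆ lam j := fun j k hjk u hu =>
    ((hnf j).mem_iff u).2 fun hi => ((hnf k).mem_iff u).1 hu (ini_mono hjk hi)
  have c0 := (hnf 0).card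
  have c1 := (hnf 1).card
  have c2 := (hnf 2).card
  obtain ⟨p0, q0, e0⟩ := exists_bump (hh 1) (hh 0) (hsub 0 1 h01) (by omega)
  obtain ⟨a1, b1, e1⟩ := exists_bump (hh 2) (hh 1) (hsub 1 2 h12) (by omega)
  have hbor : ∀ j, Bor (h j) := fun j => bor_of (hB j) (hnf j).mem_iff (hh j)
  have hsz : size (h 1) = n := by
    rw [size_eq (hh 1), c1, f1]
    intro a b t hu
    by_contra hc
    exact ((hnf 1).mem_iff _).1 hu (mem_ini_of_deg (hMj 1) (by omega))
  obtain ⟨hG, h40, hcnt⟩ := hCheck (h 0) (h 1) (h 2) p0 q0 a1 b1 e0 e1 (hbor 0) (hbor 1) (hbor 2)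
    (by omega) (by omega)
  obtain ⟨R, hR, hRc⟩ := hComb (h 0) (h 1) (h 2) p0 q0 a1 b1 e0 e1 (hbor 0) (hbor 1) (hbor 2) hG h40
  obtain ⟨S, hS, hmem⟩ := hGen K Ω I lam nf h h01 h12 hnf hh R hR
  exact ⟨lam, nf, S, hnf, by omega, hmem⟩

end Pool.Agent.Lib.MP_ed43e6_ag.N
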