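import Pool.Agent.Lib.MP_ed43e6_ag.N.Chk

/-! Soundness of the test at one staircase. -/

namespace Pool.Agent.Lib.MP_ed43e6_ag.N

open Finset

namespace ChkS

lemma frc_eq {α : Type} (n : ℕ) (f : ℕ → α) : frc n f = f n := by
  cases n <;> rfl

lemma allLt_imp {n : ℕ} {f : ℕ → Bool} (h : allLt n f = true) : ∀ i < n, f i = true := by
  induction n with
  | zero => intro i hi; omega
  | succ n ih =>
    have e : (f n && allLt n f) = true := h
    rw [Bool.and_eq_true] at e
    intro i hi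
    rcases Nat.lt_succ_iff_lt_or_eq.1 hi with c | c
    · exact ih e.2 i c
    · exact c ▸ e.1

lemma chk3_imp {s x y c k top t0 m a b : ℕ} (h : chk3 s x y c k top t0 m = true) (ha : a < 4)
    (hb : b < 7) (hd : canDel s a b = true) :
    ssum (vmin sG 23 top (tsub sG 23 k (s1 * get k a b))) +
      vcnt c (vmax bG 17 t0 (vmin bG 17 (vthr (x - uA a b) (y - uQ a b))
        (vmin bG 17 (x - uA a b) b1 * 127))) ≤ m := by
  have e := allLt_imp (allLt_imp h a ha) b hb
  simp only [hd, Bool.not_true, Bool.false_or, Nat.ble_eq, Nat.add_eq, Nat.mul_eq, Nat.sub_eq] at e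
  exact e

lemma chk2b_imp {s x y c k top t0 nb nc m : ℕ} (h : chk2b s x y c k top t0 nb nc m = true) :
    vcnt c t0 + nb + nc ≤ m ∨ (nb ≤ m ∧ chk3 s x y c k top t0 (m - nb) = true) := by
  simpa only [chk2b, Bool.or_eq_true, Bool.and_eq_true, Nat.ble_eq, Nat.add_eq, Nat.sub_eq] using h

lemma chk2_imp {s x y c k top gen t1 n1 nc m p q : ℕ}
    (h : chk2 s x y c k top gen t1 n1 nc m = true) (hp : p < 4) (hq : q < 7)
    (hd : canAdd s p q = true) :
    n1 + ssum (vmin sG 23 gen (tsub sG 23 (s1 * get k p q) k)) + nc ≤ m ∨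
      chk2b s x y c k top (vmax bG 17 t1 (vthr (x + uA p q) (y + uQ p q)))
        (ssum (vmin sG 23 gen (tsub sG 23 (s1 * get k p q) k))) nc m = true := by
  have e := allLt_imp (allLt_imp h p hp) q hq
  simp only [hd, Bool.not_true, Bool.false_or, frc_eq, Bool.or_eq_true, Nat.ble_eq, Nat.add_eq,
    Nat.mul_eq] at e
  exact e

lemma chk1_imp {s x y c top gen t1 m : ℕ} (h : chk1 s x y c top gen t1 m = true) :
    vcnt c t1 + ssum gen + ssum top ≤ m ∨
      chk2 s x y c (sK + s * 16513) top gen t1 (vcnt c t1) (ssum top) m = true := by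
  simpa only [chk1, frc_eq, Bool.or_eq_true, Nat.ble_eq, Nat.add_eq, Nat.mul_eq] using h

lemma chk_imp {s x y n : ℕ} (h : chk s x y n = true) :
    (get s 3 1 = 0 ∧ get s 0 6 ≤ 1) ∧ (n ≤ 11 ∨
      chk1 s x y (b40 + x - y) (vmin sG 23 s s1) (sgen s) (vmax bG 17 bPos (vthr x y))
        (3 * n - 2) = true) := by
  simpa only [chk, Bool.or_eq_true, Bool.and_eq_true, Nat.ble_eq, Nat.beq_eq, Nat.add_eq,
    Nat.mul_eq, Nat.sub_eq] using h

lemma canAdd_of {s p q : ℕ} (h1 : p = 0 ∨ get s p q + 1 ≤ get s (p - 1) (q + 1))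
    (h2 : q = 0 ∨ get s p q + 2 ≤ get s p (q - 1)) : canAdd s p q = true := by
  simp only [canAdd, Bool.or_eq_true, Bool.and_eq_true, Nat.ble_eq, Nat.beq_eq, Nat.add_eq,
    Nat.succ_eq_add_one, Nat.pred_eq_sub_one]
  exact ⟨h1, h2⟩

lemma canDel_of {s a b : ℕ} (h0 : 1 ≤ get s a b)
    (h1 : b = 0 ∨ get s (a + 1) (b - 1) + 1 ≤ get s a b)
    (h2 : get s a (b + 1) = 0 ∨ get s a (b + 1) + 2 ≤ get s a b) : canDel s a b = true := by
  simp only [canDel, Bool.or_eq_true, Bool.and_eq_true, Nat.ble_eq, Nat.beq_eq, Nat.add_eq,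
    Nat.succ_eq_add_one, Nat.pred_eq_sub_one]
  exact ⟨h0, h1, h2⟩

lemma le_size {h : ℕ → ℕ → ℕ} (hg : Grid h) (a b : ℕ) : h a b ≤ size h := by
  by_cases c : 4 ≤ a ∨ 7 ≤ b
  · rw [hg a b c]; exact Nat.zero_le _
  · refine le_trans (single_le_sum (f := fun b => h a b) (fun _ _ => Nat.zero_le _)
      (mem_range.2 (show b < 128 by omega))) ?_
    exact single_le_sum (f := fun a => ∑ b ∈ range 128, h a b) (fun _ _ => Nat.zero_le _)
      (mem_range.2 (show a < 128 by omega))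

lemma thr_le {h : ℕ → ℕ → ℕ} (hb : ∀ a b, h a b ≤ 40) (p q a b : ℕ) : thr h p q a b ≤ 80 := by
  have := hb a b
  have := hb a (b + 1)
  unfold thr base
  split_ifs <;> omega

lemma posb_le {p q : ℕ} (hp : p < 5) (hq : q < 8) (a b : ℕ) : posb p q a b ≤ 80 := by
  unfold posb
  split_ifs <;> omega

lemma cntA_anti (h : ℕ → ℕ → ℕ) {T T' : ℕ → ℕ → ℕ → ℕ → ℕ} (e : ∀ p q a b, T p q a b ≤ T' p q a b) :
    cntA h T' ≤ cntA h T :=
  sum_le_sum fun _ _ => sum_le_sum fun _ _ => sum_le_sum fun _ _ => sum_le_sum fun _ _ =>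
    Nat.sub_le_sub_left (e _ _ _ _) _

lemma card_le {n : ℕ} (hn : n ≤ 5) (P : ℕ × ℕ → Prop) [DecidablePred P] (f : ℕ → ℕ → ℕ)
    (e : ∀ x, P x → 1 ≤ f x.1 x.2) :
    ((range n ×ˢ range 8).filter P).card ≤ ∑ p ∈ range 5, ∑ q ∈ range 8, f p q := by
  rw [← sum_product', card_eq_sum_ones]
  refine (sum_le_sum fun x hx => e x (mem_filter.1 hx).2).trans (sum_le_sum_of_subset ?_)
  exact (filter_subset _ _).trans (product_subset_product_left (range_subset_range.2 hn))

lemma vcnt_eq (L : LaneStmt) {h : ℕ → ℕ → ℕ} (hb : ∀ a b, h a b ≤ 40) {T : ℕ → ℕ → ℕ → ℕ → ℕ}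
    (hT : ∀ p < 5, ∀ q < 8, ∀ a b, T p q a b ≤ 80) :
    vcnt (big fun p q a b => 40 + h a b - h p q) (big T) = cntA h T := by
  unfold vcnt
  rw [L.big_tsub _ _ fun p hp q hq a _ b _ => ⟨by have := hb a b; omega,
    by have := hT p hp q hq a b; omega⟩]
  exact L.big_sum _ fun p _ q _ a _ b _ => by have := hb a b; omega

lemma xP_bump (L : LaneStmt) (h : ℕ → ℕ → ℕ) {a b : ℕ} (ha : a < 4) (hb : b < 8) :
    xP h + uA a b = xP (bump h a b) := by
  unfold xP
  rw [L.uA_eq a ha b hb, L.big_add]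
  refine L.big_congr _ _ fun _ _ _ _ _ _ _ _ => ?_
  unfold bump
  split_ifs <;> rfl

lemma xQ_bump (L : LaneStmt) (h : ℕ → ℕ → ℕ) {a b : ℕ} (ha : a < 5) (hb : b < 8) :
    xQ h + uQ a b = xQ (bump h a b) := by
  unfold xQ
  rw [L.uQ_eq a ha b hb, L.big_add]
  refine L.big_congr _ _ fun _ _ _ _ _ _ _ _ => ?_
  unfold bump
  split_ifs <;> rfl

lemma key_eq (L : LaneStmt) (h : ℕ → ℕ → ℕ) :
    sK + sml h * 16513 = sml fun p q => key p q (h p q) := by
  unfold sK
  rw [L.sml_mul, L.sml_add]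
  refine L.sml_congr _ _ fun _ _ _ _ => ?_
  unfold key
  ring

lemma key_lt {h : ℕ → ℕ → ℕ} (hb : ∀ a b, h a b ≤ 40) {p q : ℕ} (hp : p < 5) (hq : q < 8) :
    key p q (h p q) < 8388608 := by
  have := hb p q
  unfold key
  omega

lemma s1_mul (L : LaneStmt) (c : ℕ) : s1 * c = sml fun _ _ => c := by
  unfold s1
  rw [L.sml_mul]
  exact L.sml_congr _ _ fun _ _ _ _ => one_mul c

lemma ssum_min (L : LaneStmt) {g f f' : ℕ → ℕ → ℕ} (hg : ∀ p q, g p q ≤ 1)
    (hf : ∀ p < 5, ∀ q < 8, f p q < 8388608 ∧ f' p q < 8388608) :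
    ssum (vmin sG 23 (sml g) (tsub sG 23 (sml f) (sml f'))) =
      ∑ p ∈ range 5, ∑ q ∈ range 8, min (g p q) (f p q - f' p q) := by
  rw [L.sml_tsub _ _ hf, L.sml_min _ _ fun p hp q hq => ⟨by have := hg p q; omega,
    by have := hf p hp q hq; omega⟩]
  exact L.sml_sum _ fun p _ q _ => by have := hg p q; omega

end ChkS

open ChkS in
theorem chkStmt : LaneStmt → ThrStmt → ChkStmt := by
  intro L Th h0 h h2 p0 q0 a1 c1 e0 e1 B0 B1 B2 lo hi hg hc
  have b31 : ∀ a b, h a b ≤ 31 := fun a b => (le_size hg a b).trans hi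
  have hb : ∀ a b, h a b ≤ 40 := fun a b => (b31 a b).trans (by norm_num)
  have u0 : ∀ a b, h a b ≤ h0 a b ∧ h0 a b ≤ h a b + 1 ∧ (¬(a = p0 ∧ b = q0) → h0 a b = h a b) ∧
      (a = p0 ∧ b = q0 → h0 a b = h a b + 1) := fun a b => by
    rw [e0]; unfold bump; split_ifs with c <;> simp [c]
  have u1 : ∀ a b, h2 a b ≤ h a b ∧ (¬(a = a1 ∧ b = c1) → h a b = h2 a b) ∧
      (a = a1 ∧ b = c1 → h a b = h2 a b + 1) := fun a b => by
    rw [e1]; unfold bump; split_ifs with c <;> simp [c]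
  have hb0 : ∀ a b, h0 a b ≤ 40 := fun a b => by have := b31 a b; have := u0 a b; omega
  have hb2 : ∀ a b, h2 a b ≤ 40 := fun a b => ((u1 a b).1).trans (hb a b)
  have gs := L.get_sml h fun p _ q _ => by have := hb p q; omega
  obtain ⟨⟨t1, t2⟩, hc⟩ := chk_imp hc
  rw [gs 3 (by norm_num) 1 (by norm_num)] at t1
  rw [gs 0 (by norm_num) 6 (by norm_num)] at t2
  have v0 := (u0 p0 q0).2.2.2 ⟨rfl, rfl⟩
  have v1 := (u1 a1 c1).2.2 ⟨rfl, rfl⟩
  have ax : p0 = 0 ∨ h p0 q0 + 1 ≤ h (p0 - 1) (q0 + 1) := by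
    rcases Nat.eq_zero_or_pos p0 with c | c
    · exact Or.inl c
    · have a := B0.2 (p0 - 1) q0
      rw [Nat.sub_add_cancel c, v0, (u0 _ _).2.2.1 (by omega)] at a
      exact Or.inr a
  have ay : q0 = 0 ∨ h p0 q0 + 2 ≤ h p0 (q0 - 1) := by
    rcases Nat.eq_zero_or_pos q0 with c | c
    · exact Or.inl c
    · have a := B0.1 p0 (q0 - 1)
      rw [Nat.sub_add_cancel c, v0, (u0 _ _).2.2.1 (by omega)] at a
      exact Or.inr (by omega)
  have z3 : ∀ b, h 3 (b + 1) = 0 := fun b => by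
    induction b with
    | zero => exact t1
    | succ b ih => have := B1.1 3 (b + 1); omega
  have hp0 : p0 < 4 := by
    by_contra c
    rcases ax with a | a
    · omega
    · rcases Nat.lt_or_ge (p0 - 1) 4 with d | d
      · rw [show p0 - 1 = 3 by omega, z3] at a; omega
      · rw [hg _ (q0 + 1) (Or.inl d)] at a; omega
  have hq0 : q0 < 7 := by
    by_contra c
    rcases ay with a | a
    · omega
    · rcases Nat.lt_or_ge (q0 - 1) 7 with d | d
      · rw [show q0 - 1 = 6 by omega] at a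
        rcases Nat.eq_zero_or_pos p0 with f | f
        · rw [f] at a; omega
        · have g := B1.2 (p0 - 1) 6
          rw [Nat.sub_add_cancel f, hg _ (6 + 1) (Or.inr le_rfl)] at g
          omega
      · rw [hg p0 _ (Or.inr d)] at a; omega
  have ha1 : a1 < 4 := by
    by_contra c
    rw [hg a1 c1 (Or.inl (by omega))] at v1; omega
  have hc1 : c1 < 7 := by
    by_contra c
    rw [hg a1 c1 (Or.inr (by omega))] at v1; omega
  have g0 : Grid h0 := fun a b c => by rw [(u0 a b).2.2.1 (by omega), hg a b c]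
  have g2 : Grid h2 := fun a b c => by have := (u1 a b).1; rw [hg a b c] at this; omega
  refine ⟨g0, hb0, ?_⟩
  have cA : canAdd (sml h) p0 q0 = true := canAdd_of
    (by rw [gs p0 (by omega) q0 (by omega), gs _ (by omega) (q0 + 1) (by omega)]; exact ax)
    (by rw [gs p0 (by omega) q0 (by omega), gs p0 (by omega) (q0 - 1) (by omega)]; exact ay)
  have cD : canDel (sml h) a1 c1 = true := by
    refine canDel_of ?_ ?_ ?_
    · rw [gs a1 (by omega) c1 (by omega)]; omega
    · rw [gs a1 (by omega) c1 (by omega), gs (a1 + 1) (by omega) _ (by omega)]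
      rcases Nat.eq_zero_or_pos c1 with c | c
      · exact Or.inl c
      · have a := B2.2 a1 (c1 - 1)
        rw [Nat.sub_add_cancel c, ← (u1 _ _).2.1 (by omega)] at a
        exact Or.inr (by omega)
    · rw [gs a1 (by omega) c1 (by omega), gs a1 (by omega) (c1 + 1) (by omega)]
      have a := B2.1 a1 c1
      rw [← (u1 _ _).2.1 (by omega)] at a
      omega
  obtain ⟨T1, T2, T3⟩ := Th h hg hb
  have T0 := (Th h0 g0 hb0).1
  have T4 := (Th h2 g2 hb2).1
  have m1 : ∀ p < 5, ∀ q < 8, ∀ a b, max (posb p q a b) (thr h p q a b) ≤ 80 :=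
    fun p hp q hq a b => max_le (posb_le hp hq a b) (thr_le hb p q a b)
  have m2 : ∀ p < 5, ∀ q < 8, ∀ a b,
      max (max (posb p q a b) (thr h p q a b)) (thr h0 p q a b) ≤ 80 :=
    fun p hp q hq a b => max_le (m1 p hp q hq a b) (thr_le hb0 p q a b)
  have E1 : vmax bG 17 bPos (big (thr h)) =
      big fun p q a b => max (posb p q a b) (thr h p q a b) :=
    L.big_max posb _ fun p hp q hq a _ b _ => ⟨by have := posb_le hp hq a b; omega,
      by have := thr_le hb p q a b; omega⟩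
  have E2 : vmin sG 23 (sml h) s1 = sml fun p q => min (h p q) 1 :=
    L.sml_min h (fun _ _ => 1) fun p _ q _ => ⟨by have := hb p q; omega, by norm_num⟩
  have gk := L.get_sml (fun p q => key p q (h p q)) fun p hp q hq =>
    (key_lt hb hp hq).trans (by norm_num)
  have A1 : cntA h (thrAll h0 h h2) ≤ cntA h fun p q a b => max (posb p q a b) (thr h p q a b) :=
    cntA_anti h fun p q a b => le_max_left _ _
  have A2 : cntA h (thrAll h0 h h2) ≤
      cntA h fun p q a b => max (max (posb p q a b) (thr h p q a b)) (thr h0 p q a b) :=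
    cntA_anti h fun p q a b => max_le_max le_rfl (le_max_left _ _)
  have C1 : cntC h a1 c1 ≤ ssum (sml fun p q => min (h p q) 1) := by
    rw [L.sml_sum _ fun p _ q _ => by omega]
    exact card_le (by norm_num) _ (fun p q => min (h p q) 1) fun x hx => by have := hx.1; omega
  generalize hG : (fun p q => if (p = 0 ∨ h p q < h (p - 1) q) ∧ (q = 0 ∨ h p q < h p (q - 1))
    then 1 else 0 : ℕ → ℕ → ℕ) = G at T3
  have G1 : ∀ p q, G p q ≤ 1 := fun p q => by rw [← hG]; dsimp only; split_ifs <;> omega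
  have G2 : ∀ p q, (p = 0 ∨ h p q < h (p - 1) q) → (q = 0 ∨ h p q < h p (q - 1)) → G p q = 1 :=
    fun p q a b => by rw [← hG]; exact if_pos ⟨a, b⟩
  have D1 : cntB h p0 q0 ≤ ssum (sml G) := by
    rw [L.sml_sum _ fun p _ q _ => by have := G1 p q; omega]
    exact card_le le_rfl _ G fun x hx => (G2 _ _ hx.1 hx.2.1).ge
  rw [T1, T2, T3, E1, E2] at hc
  rcases hc with hc | hc
  · omega
  rcases chk1_imp hc with hc | hc
  · rw [vcnt_eq L hb m1] at hc
    omega
  rw [key_eq L, vcnt_eq L hb m1] at hc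
  have hc := chk2_imp hc hp0 hq0 cA
  rw [gk p0 (by omega) q0 (by omega), s1_mul L, ssum_min L G1 fun p hp q hq =>
    ⟨key_lt hb (by omega) (by omega), key_lt hb hp hq⟩] at hc
  have D2 : cntB h p0 q0 ≤
      ∑ p ∈ range 5, ∑ q ∈ range 8, min (G p q) (key p0 q0 (h p0 q0) - key p q (h p q)) :=
    card_le le_rfl _ (fun p q => min (G p q) (key p0 q0 (h p0 q0) - key p q (h p q)))
      fun x hx => le_min (G2 _ _ hx.1 hx.2.1).ge (Nat.sub_pos_of_lt hx.2.2)
  generalize (∑ p ∈ range 5, ∑ q ∈ range 8,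
    min (G p q) (key p0 q0 (h p0 q0) - key p q (h p q))) = nb at hc D2
  rcases hc with hc | hc
  · omega
  rw [xP_bump L h hp0 (by omega), xQ_bump L h (by omega) (by omega), ← e0, T0,
    L.big_max _ _ fun p hp q hq a _ b _ => ⟨by have := m1 p hp q hq a b; omega,
      by have := thr_le hb0 p q a b; omega⟩] at hc
  rcases chk2b_imp hc with hc | ⟨hn, hc⟩
  · rw [vcnt_eq L hb m2] at hc
    omega
  have hc := chk3_imp hc ha1 hc1 cD
  have X2 : xP h - uA a1 c1 = xP h2 := by
    rw [e1, ← xP_bump L h2 ha1 (by omega), Nat.add_sub_cancel]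
  have Y2 : xQ h - uQ a1 c1 = xQ h2 := by
    rw [e1, ← xQ_bump L h2 (by omega) (by omega), Nat.add_sub_cancel]
  have E3 : vmin bG 17 (xP h2) b1 = big fun _ _ a b => min (h2 a b) 1 :=
    L.big_min (fun _ _ a b => h2 a b) (fun _ _ _ _ => 1) fun _ _ _ _ a _ b _ =>
      ⟨by have := hb2 a b; omega, by norm_num⟩
  rw [gk a1 (by omega) c1 (by omega), s1_mul L, ssum_min L (fun p q => min_le_right _ _)
    fun p hp q hq => ⟨key_lt hb hp hq, key_lt hb (by omega) (by omega)⟩, X2, Y2, T4, E3,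
    L.big_mul, L.big_min _ _ fun p _ q _ a _ b _ => ⟨by have := thr_le hb2 p q a b; omega,
      by omega⟩, L.big_max _ _ fun p hp q hq a _ b _ => ⟨by have := m2 p hp q hq a b; omega,
      by have := thr_le hb2 p q a b; omega⟩,
    vcnt_eq L hb fun p hp q hq a b => max_le (m2 p hp q hq a b)
      ((min_le_left _ _).trans (thr_le hb2 p q a b))] at hc
  have C2 : cntC h a1 c1 ≤ ∑ p ∈ range 5, ∑ q ∈ range 8,
      min (min (h p q) 1) (key p q (h p q) - key a1 c1 (h a1 c1)) :=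
    card_le (by norm_num) _ (fun p q => min (min (h p q) 1) (key p q (h p q) - key a1 c1 (h a1 c1)))
      fun x hx => by
        obtain ⟨a, b⟩ := hx
        unfold key at b ⊢
        omega
  have A3 : cntA h (thrAll h0 h h2) ≤ cntA h fun p q a b =>
      max (max (max (posb p q a b) (thr h p q a b)) (thr h0 p q a b))
        (min (thr h2 p q a b) (min (h2 a b) 1 * 127)) :=
    cntA_anti h fun p q a b => by
      have := thr_le hb2 p q a b
      unfold thrAll
      split_ifs <;> omega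
  omega

end Pool.Agent.Lib.MP_ed43e6_ag.N
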