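import Pool.Agent.Lib.MP_ed43e6_ag.N.Defs

/-! The combinatorial root count for a chain of three staircases. -/

namespace Pool.Agent.Lib.MP_ed43e6_ag.N

open Finset

namespace Comb

/-- All pairs of the level `g` starting in the column `(p, q)` satisfy `G`. -/
def Col (g : ℕ → ℕ → ℕ) (G : ℕ → ℕ → ℕ → ℕ → ℕ → ℕ → Prop) (p q : ℕ) : Prop :=
  ∀ s a b t, g p q ≤ s → t < g a b → G p q s a b t

variable {g : ℕ → ℕ → ℕ} {G : ℕ → ℕ → ℕ → ℕ → ℕ → ℕ → Prop}

theorem bor_y (hB : Bor g) (a b : ℕ) : g a (b + 1) ≤ g a b := by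
  have := hB.1 a b
  omega

theorem bor_x (hB : Bor g) (a b : ℕ) : g (a + 1) b ≤ g a b :=
  (hB.2 a b).trans (bor_y hB a b)

theorem up (hL : Links g G) {p q s a b t : ℕ} (hs : g p q ≤ s) (k : ℕ) (ht : t + k < g a b) :
    G p q s a b t ↔ G p q (s + k) a b (t + k) := by
  induction k with
  | zero => rfl
  | succ k ih =>
    rw [ih (by omega)]
    exact hL.lz p q (s + k) a b (t + k) (by omega) (by omega)

theorem move (hL : Links g G) {p q s a b t s' t' : ℕ} (hs : g p q ≤ s) (ht : t < g a b)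
    (hs' : g p q ≤ s') (ht' : t' < g a b) (hd : s' + t = s + t') (h : G p q s' a b t') :
    G p q s a b t := by
  rcases le_total t t' with h1 | h1
  · obtain ⟨k, rfl⟩ := Nat.exists_eq_add_of_le h1
    have e : s' = s + k := by omega
    subst e
    exact (up hL hs k ht').2 h
  · obtain ⟨k, rfl⟩ := Nat.exists_eq_add_of_le h1
    have e : s = s' + k := by omega
    subst e
    exact (up hL hs' k ht).1 h

theorem kill (hL : Links g G) {p q s a b t : ℕ} (ht : t < g a b) (h : t + g p q < s) :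
    G p q s a b t := by
  obtain ⟨k, rfl⟩ : ∃ k, s = k + 1 + t := ⟨s - t - 1, by omega⟩
  exact move hL (s' := k + 1) (t' := 0) (by omega) ht (by omega) (by omega) (by omega)
    (hL.kz p q k a b (by omega) (by omega))

theorem downx (hB : Bor g) (hL : Links g G) {p q s a b t : ℕ} (ih : Col g G p q)
    (hs : g p q ≤ s) (ht : t < g a b) : G (p + 1) q s a b t := by
  cases a with
  | zero => exact hL.kx p q s b t hs ht
  | succ a => exact (hL.lx p q s a b t hs ht).1 (ih s a b t hs (ht.trans_le (bor_x hB a b)))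

theorem downy (hB : Bor g) (hL : Links g G) {p q s a b t : ℕ} (ih : Col g G p q)
    (hs : g p q ≤ s) (ht : t < g a b) : G p (q + 1) s a b t := by
  cases b with
  | zero => exact hL.ky p q s a t hs ht
  | succ b => exact (hL.ly p q s a b t hs ht).1 (ih s a b t hs (ht.trans_le (bor_y hB a b)))

theorem base_lem (hB : Bor g) (hL : Links g G) (h40 : ∀ a b, g a b ≤ 40) {p q s a b t : ℕ}
    (ih : ∀ p' < p, ∀ q', Col g G p' q') (hs : g p q ≤ s) (ht : t < g a b)
    (h : 40 + t < base g p q a b + s) : G p q s a b t := by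
  by_cases hk : t + g p q < s
  · exact kill hL ht hk
  have h1 := h40 p q
  cases p with
  | zero =>
    simp only [base, if_true] at h
    omega
  | succ p =>
    have h2 := h40 p q
    simp only [base, Nat.add_sub_cancel, if_neg (Nat.succ_ne_zero p)] at h
    refine move hL (s' := s + (g a b - 1 - t)) (t' := g a b - 1) hs ht (by omega) (by omega)
      (by omega) ?_
    exact downx hB hL (ih p (by omega) q) (by omega) (by omega)

theorem thr_lem (hB : Bor g) (hL : Links g G) (h40 : ∀ a b, g a b ≤ 40) {p q s a b t : ℕ}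
    (ih : ∀ p' < p, ∀ q', Col g G p' q') (ihq : ∀ q' < q, Col g G p q') (hs : g p q ≤ s)
    (ht : t < g a b) (h : 40 + t < thr g p q a b + s) : G p q s a b t := by
  by_cases hk : t + g p q < s
  · exact kill hL ht hk
  by_cases hb : 40 + t < base g p q a b + s
  · exact base_lem hB hL h40 ih hs ht hb
  have h1 := h40 p q
  by_cases hy : 40 + t < (if q = 0 then 0 else 40 + g a b - g p (q - 1)) + s
  · cases q with
    | zero =>
      simp only [if_true] at hy
      omega
    | succ q =>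
      have h2 := h40 p q
      simp only [Nat.add_sub_cancel, if_neg (Nat.succ_ne_zero q)] at hy
      refine move hL (s' := s + (g a b - 1 - t)) (t' := g a b - 1) hs ht (by omega) (by omega)
        (by omega) ?_
      exact downy hB hL (ihq q (by omega)) (by omega) (by omega)
  have hm : 40 + t < (if q < 7 ∧ b < 7 then 40 + g a (b + 1) - g p q else 0) + s ∧
      40 + t < base g p (q + 1) a (b + 1) + s := by
    unfold thr at h
    omega
  obtain ⟨hm1, hm2⟩ := hm
  have hl : t + g p q < g a (b + 1) + s := by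
    split_ifs at hm1 <;> omega
  have h3 := bor_y hB a b
  have h4 := bor_y hB p q
  refine move hL (s' := s + (g a (b + 1) - 1) - t) (t' := g a (b + 1) - 1) hs ht (by omega)
    (by omega) (by omega) ?_
  refine (hL.ly p q _ a b _ (by omega) (by omega)).2 ?_
  exact base_lem hB hL h40 ih (by omega) (by omega) (by omega)

theorem thr_le (hB : Bor g) (p q a b : ℕ) : thr g p q a b ≤ 40 + g a b - g p q := by
  have h3 := bor_y hB a b
  have e1 : base g p q a b ≤ 40 + g a b - g p q := by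
    unfold base
    cases p with
    | zero => simp only [if_true]; omega
    | succ p =>
      have := bor_x hB p q
      simp only [Nat.add_sub_cancel, if_neg (Nat.succ_ne_zero p)]
      omega
  have e2 : (if q = 0 then 0 else 40 + g a b - g p (q - 1)) ≤ 40 + g a b - g p q := by
    cases q with
    | zero => simp only [if_true]; omega
    | succ q =>
      have := bor_y hB p q
      simp only [Nat.add_sub_cancel, if_neg (Nat.succ_ne_zero q)]
      omega
  have e3 : (if q < 7 ∧ b < 7 then 40 + g a (b + 1) - g p q else 0) ≤ 40 + g a b - g p q := by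
    split_ifs <;> omega
  unfold thr
  omega

theorem bump_cases (h : ℕ → ℕ → ℕ) (p q a b : ℕ) :
    (a = p ∧ b = q ∧ bump h p q a b = h a b + 1) ∨
      (¬ (a = p ∧ b = q) ∧ bump h p q a b = h a b) := by
  unfold bump
  by_cases hc : a = p ∧ b = q
  · exact Or.inl ⟨hc.1, hc.2, if_pos hc⟩
  · exact Or.inr ⟨hc, if_neg hc⟩

theorem le_bump (h : ℕ → ℕ → ℕ) (p q a b : ℕ) : h a b ≤ bump h p q a b := by
  rcases bump_cases h p q a b with h1 | h1 <;> omega

/-- Roots in the middle level. -/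
def RA (h : ℕ → ℕ → ℕ) (T : ℕ → ℕ → ℕ → ℕ → ℕ) : Finset ((ℕ × ℕ × ℕ) × (ℕ × ℕ × ℕ)) :=
  (range 4).biUnion fun a => (range 5).biUnion fun p => (range 8).biUnion fun q =>
    (range 8).biUnion fun b =>
      (Ico (h p q) (40 + h a b - T p q a b)).image fun s => ((p, q, s), (a, b, h a b - 1))

/-- Roots ending in the extra box of the largest staircase. -/
def RB (h : ℕ → ℕ → ℕ) (p0 q0 : ℕ) : Finset ((ℕ × ℕ × ℕ) × (ℕ × ℕ × ℕ)) :=
  ((range 5 ×ˢ range 8).filter fun x => (x.1 = 0 ∨ h x.1 x.2 < h (x.1 - 1) x.2) ∧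
    (x.2 = 0 ∨ h x.1 x.2 < h x.1 (x.2 - 1)) ∧
      key x.1 x.2 (h x.1 x.2) < key p0 q0 (h p0 q0)).image
    fun x => ((x.1, x.2, h x.1 x.2), (p0, q0, h p0 q0))

/-- Roots starting in the missing box of the smallest staircase. -/
def RC (h : ℕ → ℕ → ℕ) (a1 b1 : ℕ) : Finset ((ℕ × ℕ × ℕ) × (ℕ × ℕ × ℕ)) :=
  ((range 4 ×ˢ range 8).filter fun x => 0 < h x.1 x.2 ∧
    key a1 b1 (h a1 b1 - 1) < key x.1 x.2 (h x.1 x.2 - 1)).image
    fun x => ((a1, b1, h a1 b1 - 1), (x.1, x.2, h x.1 x.2 - 1))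

theorem card_RA (h : ℕ → ℕ → ℕ) (T : ℕ → ℕ → ℕ → ℕ → ℕ) : (RA h T).card ≤ cntA h T := by
  unfold RA cntA
  refine card_biUnion_le.trans (sum_le_sum fun a _ => ?_)
  refine card_biUnion_le.trans (sum_le_sum fun p _ => ?_)
  refine card_biUnion_le.trans (sum_le_sum fun q _ => ?_)
  refine card_biUnion_le.trans (sum_le_sum fun b _ => ?_)
  refine card_image_le.trans ?_
  rw [Nat.card_Ico]
  omega

theorem card_RB (h : ℕ → ℕ → ℕ) (p0 q0 : ℕ) : (RB h p0 q0).card ≤ cntB h p0 q0 :=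
  card_image_le

theorem card_RC (h : ℕ → ℕ → ℕ) (a1 b1 : ℕ) : (RC h a1 b1).card ≤ cntC h a1 b1 :=
  card_image_le

theorem mem_RA (h : ℕ → ℕ → ℕ) (T : ℕ → ℕ → ℕ → ℕ → ℕ) {p q s a b : ℕ} (ha : a < 4)
    (hp : p < 5) (hq : q < 8) (hb : b < 8) (hs : h p q ≤ s) (hs' : s < 40 + h a b - T p q a b) :
    ((p, q, s), (a, b, h a b - 1)) ∈ RA h T := by
  unfold RA
  refine mem_biUnion.2 ⟨a, mem_range.2 ha, mem_biUnion.2 ⟨p, mem_range.2 hp,
    mem_biUnion.2 ⟨q, mem_range.2 hq, mem_biUnion.2 ⟨b, mem_range.2 hb, ?_⟩⟩⟩⟩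
  exact mem_image.2 ⟨s, mem_Ico.2 ⟨hs, hs'⟩, rfl⟩

theorem mem_RB (h : ℕ → ℕ → ℕ) (p0 q0 : ℕ) {p q : ℕ} (hp : p < 5) (hq : q < 8)
    (h1 : p = 0 ∨ h p q < h (p - 1) q) (h2 : q = 0 ∨ h p q < h p (q - 1))
    (h3 : key p q (h p q) < key p0 q0 (h p0 q0)) :
    ((p, q, h p q), (p0, q0, h p0 q0)) ∈ RB h p0 q0 := by
  unfold RB
  exact mem_image.2 ⟨(p, q), mem_filter.2
    ⟨mem_product.2 ⟨mem_range.2 hp, mem_range.2 hq⟩, h1, h2, h3⟩, rfl⟩

theorem mem_RC (h : ℕ → ℕ → ℕ) (a1 b1 : ℕ) {a b : ℕ} (ha : a < 4) (hb : b < 8)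
    (h1 : 0 < h a b) (h2 : key a1 b1 (h a1 b1 - 1) < key a b (h a b - 1)) :
    ((a1, b1, h a1 b1 - 1), (a, b, h a b - 1)) ∈ RC h a1 b1 := by
  unfold RC
  exact mem_image.2 ⟨(a, b), mem_filter.2
    ⟨mem_product.2 ⟨mem_range.2 ha, mem_range.2 hb⟩, h1, h2⟩, rfl⟩

theorem posb_lem {p q s a b t : ℕ} (ha : a < 4) (hb : b < 8) (ht : t < 40)
    (h : 40 + t < posb p q a b + s) : ¬ key p q s < key a b t := by
  unfold posb at h
  unfold key
  split_ifs at h <;> omega

section Steps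

variable {h0 h1 h2 : ℕ → ℕ → ℕ} {p0 q0 a1 b1 : ℕ}

theorem step1 (e0 : h0 = bump h1 p0 q0) (e1 : h1 = bump h2 a1 b1) (B0 : Bor h0) (B1 : Bor h1)
    (B2 : Bor h2) (hG : Grid h0) (h40 : ∀ a b, h0 a b ≤ 40) (L0 : Links h0 G) (L1 : Links h1 G)
    (L2 : Links h2 G) (hneg : ∀ p q s a b t, ¬ key p q s < key a b t → G p q s a b t)
    (hA : ∀ r ∈ RA h1 (thrAll h0 h1 h2), G r.1.1 r.1.2.1 r.1.2.2 r.2.1 r.2.2.1 r.2.2.2)
    {p q : ℕ} (ih : ∀ p' < p, ∀ q', Col h0 G p' q' ∧ Col h1 G p' q' ∧ Col h2 G p' q')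
    (ihq : ∀ q' < q, Col h0 G p q' ∧ Col h1 G p q' ∧ Col h2 G p q') {s a b t : ℕ}
    (hs : h1 p q ≤ s) (ht : t + 1 = h1 a b) : G p q s a b t := by
  have l10 : ∀ a b, h1 a b ≤ h0 a b := fun a b => e0 ▸ le_bump h1 p0 q0 a b
  have l21 : ∀ a b, h2 a b ≤ h1 a b := fun a b => e1 ▸ le_bump h2 a1 b1 a b
  have h41 : ∀ a b, h1 a b ≤ 40 := fun a b => (l10 a b).trans (h40 a b)
  have h42 : ∀ a b, h2 a b ≤ 40 := fun a b => (l21 a b).trans (h41 a b)
  by_cases hpos : key p q s < key a b t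
  swap
  · exact hneg _ _ _ _ _ _ hpos
  have hab := l10 a b
  have ha : a < 4 := by
    by_contra hc
    have := hG a b (Or.inl (by omega))
    omega
  have hb : b < 7 := by
    by_contra hc
    have := hG a b (Or.inr (by omega))
    omega
  have ht40 := h41 a b
  by_cases hp : 5 ≤ p
  · obtain ⟨p, rfl⟩ : ∃ k, p = k + 1 := ⟨p - 1, by omega⟩
    have := hG p q (Or.inl (by omega))
    have := l10 p q
    exact downx B1 L1 (ih p (by omega) q).2.1 (by omega) (by omega)
  by_cases hq : 8 ≤ q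
  · obtain ⟨q, rfl⟩ : ∃ k, q = k + 1 := ⟨q - 1, by omega⟩
    have := hG p q (Or.inr (by omega))
    have := l10 p q
    exact downy B1 L1 (ihq q (by omega)).2.1 (by omega) (by omega)
  by_cases hr : s < 40 + h1 a b - thrAll h0 h1 h2 p q a b
  · have := hA _ (mem_RA h1 _ ha (by omega) (by omega) (by omega) hs hr)
    have e : h1 a b - 1 = t := by omega
    rw [e] at this
    exact this
  by_cases c1 : 40 + t < posb p q a b + s
  · exact absurd hpos (posb_lem ha (by omega) (by omega) c1)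
  by_cases c2 : 40 + t < thr h1 p q a b + s
  · exact thr_lem B1 L1 h41 (fun p' hp' q' => (ih p' hp' q').2.1) (fun q' hq' => (ihq q' hq').2.1)
      hs (by omega) c2
  by_cases c3 : 40 + t < thr h0 p q a b + s
  · refine thr_lem B0 L0 h40 (fun p' hp' q' => (ih p' hp' q').1) (fun q' hq' => (ihq q' hq').1)
      ?_ (by omega) c3
    by_contra hc
    have k1 := thr_le B0 p q a b
    have k2 := bump_cases h1 p0 q0 p q
    have k3 := bump_cases h1 p0 q0 a b
    have k4 := h40 p q
    rw [← e0] at k2 k3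
    rcases k2 with ⟨rfl, rfl, k2⟩ | ⟨_, k2⟩
    · rcases k3 with ⟨rfl, rfl, k3⟩ | ⟨_, k3⟩
      · unfold key at hpos
        omega
      · omega
    · omega
  have c4 : 0 < h2 a b ∧ 40 + t < thr h2 p q a b + s := by
    unfold thrAll at hr
    split_ifs at hr <;> omega
  obtain ⟨c4, c5⟩ := c4
  have l2 := l21 p q
  by_cases hc : t < h2 a b
  · exact thr_lem B2 L2 h42 (fun p' hp' q' => (ih p' hp' q').2.2)
      (fun q' hq' => (ihq q' hq').2.2) (by omega) hc c5
  have k1 := thr_le B2 p q a b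
  have k2 := bump_cases h2 a1 b1 p q
  have k3 := bump_cases h2 a1 b1 a b
  have k4 := h42 p q
  rw [← e1] at k2 k3
  have k5 : h1 p q < s ∧ t = h2 a b := by
    rcases k3 with ⟨rfl, rfl, k3⟩ | ⟨_, k3⟩
    · rcases k2 with ⟨rfl, rfl, k2⟩ | ⟨_, k2⟩
      · unfold key at hpos
        omega
      · omega
    · omega
  refine move L1 (s' := s - 1) (t' := t - 1) hs (by omega) (by omega) (by omega) (by omega) ?_
  exact thr_lem B2 L2 h42 (fun p' hp' q' => (ih p' hp' q').2.2)
    (fun q' hq' => (ihq q' hq').2.2) (by omega) (by omega) (by omega)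

theorem step3 (e0 : h0 = bump h1 p0 q0) (B0 : Bor h0) (hG : Grid h0) (L0 : Links h0 G)
    (hneg : ∀ p q s a b t, ¬ key p q s < key a b t → G p q s a b t)
    (hB : ∀ r ∈ RB h1 p0 q0, G r.1.1 r.1.2.1 r.1.2.2 r.2.1 r.2.2.1 r.2.2.2)
    {p q : ℕ} (ih : ∀ p' < p, ∀ q', Col h0 G p' q') (ihq : ∀ q' < q, Col h0 G p q')
    (c1 : Col h1 G p q) : Col h0 G p q := by
  intro s a b t hs ht
  have l10 : ∀ a b, h1 a b ≤ h0 a b := fun a b => e0 ▸ le_bump h1 p0 q0 a b
  have l1 := l10 p q
  by_cases hc : t < h1 a b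
  · exact c1 s a b t (by omega) hc
  by_cases hpos : key p q s < key a b t
  swap
  · exact hneg _ _ _ _ _ _ hpos
  have k3 := bump_cases h1 p0 q0 a b
  rw [← e0] at k3
  obtain ⟨rfl, rfl, k3⟩ : a = p0 ∧ b = q0 ∧ h0 a b = h1 a b + 1 := by
    rcases k3 with k3 | k3
    · exact k3
    · omega
  have et : t = h1 a b := by omega
  by_cases dx : p ≠ 0 ∧ h0 (p - 1) q ≤ s
  · obtain ⟨p, rfl⟩ : ∃ k, p = k + 1 := ⟨p - 1, by omega⟩
    exact downx B0 L0 (ih p (by omega) q) dx.2 ht
  by_cases dy : q ≠ 0 ∧ h0 p (q - 1) ≤ s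
  · obtain ⟨q, rfl⟩ : ∃ k, q = k + 1 := ⟨q - 1, by omega⟩
    exact downy B0 L0 (ihq q (by omega)) dy.2 ht
  by_cases dz : h0 p q < s
  · by_cases t0 : t = 0
    · exact kill L0 ht (by omega)
    · refine move L0 (s' := s - 1) (t' := t - 1) hs ht (by omega) (by omega) (by omega) ?_
      exact c1 _ _ _ _ (by omega) (by omega)
  have k2 := bump_cases h1 a b p q
  rw [← e0] at k2
  have es : s = h1 p q := by
    rcases k2 with ⟨rfl, rfl, k2⟩ | ⟨_, k2⟩
    · unfold key at hpos
      omega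
    · omega
  have hp : p < 5 := by
    by_contra hc
    have := hG (p - 1) q (Or.inl (by omega))
    omega
  have hq : q < 8 := by
    by_contra hc
    have := hG p (q - 1) (Or.inr (by omega))
    omega
  have m1 : p = 0 ∨ h1 p q < h1 (p - 1) q := by
    by_cases hp0 : p = 0
    · exact Or.inl hp0
    right
    have k := bump_cases h1 a b (p - 1) q
    rw [← e0] at k
    rcases k with ⟨ea, eb, k⟩ | ⟨_, k⟩
    · have ep : p = a + 1 := by omega
      subst ep
      subst eb
      simp only [Nat.add_sub_cancel] at k dx ⊢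
      unfold key at hpos
      omega
    · omega
  have m2 : q = 0 ∨ h1 p q < h1 p (q - 1) := by
    by_cases hq0 : q = 0
    · exact Or.inl hq0
    right
    have k := bump_cases h1 a b p (q - 1)
    rw [← e0] at k
    rcases k with ⟨ea, eb, k⟩ | ⟨_, k⟩
    · have ep : q = b + 1 := by omega
      subst ep
      subst ea
      simp only [Nat.add_sub_cancel] at k dy ⊢
      unfold key at hpos
      omega
    · omega
  subst es
  subst et
  exact hB _ (mem_RB h1 a b hp hq m1 m2 hpos)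

theorem step4 (e0 : h0 = bump h1 p0 q0) (e1 : h1 = bump h2 a1 b1) (hG : Grid h0)
    (L2 : Links h2 G) (hneg : ∀ p q s a b t, ¬ key p q s < key a b t → G p q s a b t)
    (hC : ∀ r ∈ RC h1 a1 b1, G r.1.1 r.1.2.1 r.1.2.2 r.2.1 r.2.2.1 r.2.2.2)
    {p q : ℕ} (c1 : Col h1 G p q) : Col h2 G p q := by
  intro s a b t hs ht
  have l10 : h1 a b ≤ h0 a b := e0 ▸ le_bump h1 p0 q0 a b
  have l21 : h2 a b ≤ h1 a b := e1 ▸ le_bump h2 a1 b1 a b
  by_cases hc : h1 p q ≤ s
  · exact c1 s a b t hc (by omega)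
  by_cases hpos : key p q s < key a b t
  swap
  · exact hneg _ _ _ _ _ _ hpos
  have k2 := bump_cases h2 a1 b1 p q
  have k3 := bump_cases h2 a1 b1 a b
  rw [← e1] at k2 k3
  obtain ⟨rfl, rfl, k2⟩ : p = a1 ∧ q = b1 ∧ h1 p q = h2 p q + 1 := by
    rcases k2 with k2 | k2
    · exact k2
    · omega
  by_cases hu : t + 1 < h2 a b
  · exact (L2.lz p q s a b t hs hu).2 (c1 _ _ _ _ (by omega) (by omega))
  have ha : a < 4 := by
    by_contra hc
    have := hG a b (Or.inl (by omega))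
    omega
  have hb : b < 8 := by
    by_contra hc
    have := hG a b (Or.inr (by omega))
    omega
  have es : s = h1 p q - 1 := by omega
  have et : t = h1 a b - 1 := by
    rcases k3 with ⟨rfl, rfl, k3⟩ | ⟨_, k3⟩
    · unfold key at hpos
      omega
    · omega
  subst es
  subst et
  exact hC _ (mem_RC h1 p q ha hb (by omega) hpos)

end Steps

end Comb

open Comb in
theorem combStmt : CombStmt := by
  intro h0 h1 h2 p0 q0 a1 b1 e0 e1 B0 B1 B2 hG h40
  refine ⟨RA h1 (thrAll h0 h1 h2) ∪ RB h1 p0 q0 ∪ RC h1 a1 b1, ?_, ?_⟩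
  · intro G L0 L1 L2 hneg hR
    have hA := fun r hr => hR r (mem_union_left _ (mem_union_left _ hr))
    have hB := fun r hr => hR r (mem_union_left _ (mem_union_right _ hr))
    have hC := fun r hr => hR r (mem_union_right _ hr)
    have main : ∀ p q, Col h0 G p q ∧ Col h1 G p q ∧ Col h2 G p q := by
      intro p
      induction p using Nat.strong_induction_on with
      | _ p ih =>
        intro q
        induction q using Nat.strong_induction_on with
        | _ q ihq =>
          have c1 : Col h1 G p q := by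
            intro s a b t hs ht
            refine move L1 (s' := s + (h1 a b - 1 - t)) (t' := h1 a b - 1) hs ht (by omega)
              (by omega) (by omega) ?_
            exact step1 e0 e1 B0 B1 B2 hG h40 L0 L1 L2 hneg hA ih ihq (by omega) (by omega)
          exact ⟨step3 e0 B0 hG L0 hneg hB (fun p' hp' q' => (ih p' hp' q').1)
            (fun q' hq' => (ihq q' hq').1) c1, c1, step4 e0 e1 hG L2 hneg hC c1⟩
    intro p q s a b t h
    rcases h with h | h | h
    · exact (main p q).1 s a b t h.1 h.2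
    · exact (main p q).2.1 s a b t h.1 h.2
    · exact (main p q).2.2 s a b t h.1 h.2
  · refine (card_union_le _ _).trans (Nat.add_le_add ((card_union_le _ _).trans ?_) ?_)
    · exact Nat.add_le_add (card_RA _ _) (card_RB _ _ _)
    · exact card_RC _ _ _

end Pool.Agent.Lib.MP_ed43e6_ag.N
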