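import Pool.Agent.Lib.MP_ed43e6_ag.N.Defs

/-! The entries of a punctual cyclic representation with Borel initial ideals have few
generators. -/

namespace Pool.Agent.Lib.MP_ed43e6_ag.N

open MvPolynomial Module Matrix Finset

universe u

namespace Core

variable {Ω : Type u} [Field Ω]

theorem finrank_quot {W : Type*} [AddCommGroup W] [Module Ω W] (I : Ideal (SS Ω))
    (φ : SS Ω →ₗ[Ω] W) (hφ : Function.Surjective φ) (hI : ∀ f, f ∈ I ↔ φ f = 0) :
    finrank Ω (SS Ω ⧸ I) = finrank Ω W := by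
  have h : I.restrictScalars Ω = LinearMap.ker φ := by
    ext f
    rw [Submodule.restrictScalars_mem, LinearMap.mem_ker]
    exact hI f
  rw [← (Submodule.Quotient.restrictScalarsEquiv Ω I).finrank_eq,
    (Submodule.quotEquivOfEq _ _ h).finrank_eq, (φ.quotKerEquivOfSurjective hφ).finrank_eq]

theorem ini_mono {I J : Ideal (SS Ω)} (h : I ≤ J) : ini I ⊆ ini J := by
  rintro u ⟨f, hf, h1, h2⟩
  exact ⟨f, h hf, h1, h2⟩

theorem lam_sub {I J : Ideal (SS Ω)} {l l' : Finset (Fin 3 →₀ ℕ)} {p p' : SS Ω →ₗ[Ω] SS Ω}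
    (h : I ≤ J) (hI : NF I l p) (hJ : NF J l' p') : l' ⊆ l := fun w hw =>
  (hI.mem_iff w).2 fun hw' => (hJ.mem_iff w).1 hw (ini_mono h hw')

theorem apply_eq_sum {τ : Type*} (φ : SS Ω →ₗ[Ω] (τ → Ω)) (f : SS Ω) (a : τ) :
    φ f a = ∑ m ∈ f.support, coeff m f * φ (monomial m 1) a := by
  conv_lhs => rw [f.as_sum]
  rw [map_sum, Finset.sum_apply]
  refine Finset.sum_congr rfl fun m _ => ?_
  have : (monomial m (coeff m f) : SS Ω) = coeff m f • monomial m (1 : Ω) := by
    rw [smul_monomial, smul_eq_mul, mul_one]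
  rw [this, map_smul, Pi.smul_apply, smul_eq_mul]

theorem apply_mem {K : Type u} [Field K] [Algebra K Ω] (E : IntermediateField K Ω) {τ : Type*}
    (φ : SS Ω →ₗ[Ω] (τ → Ω)) (f : SS Ω) (a : τ) (hc : ∀ m, coeff m f ∈ E)
    (hm : ∀ m ∈ f.support, φ (monomial m 1) a ∈ E) : φ f a ∈ E := by
  rw [apply_eq_sum]
  exact sum_mem fun m hm' => mul_mem (hc m) (hm m hm')

/-- The orbit map of the cyclic vector. -/
noncomputable def orb {n : ℕ} (ρ : SS Ω →ₐ[Ω] Matrix (Ix n) (Ix n) Ω) (v : Ix n → Ω) :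
    SS Ω →ₗ[Ω] (Ix n → Ω) where
  toFun f := ρ f *ᵥ v
  map_add' f g := by rw [map_add, add_mulVec]
  map_smul' c f := by rw [map_smul, smul_mulVec, RingHom.id_apply]

theorem orb_apply {n : ℕ} (ρ : SS Ω →ₐ[Ω] Matrix (Ix n) (Ix n) Ω) (v : Ix n → Ω) (f : SS Ω) :
    orb ρ v f = ρ f *ᵥ v := rfl

end Core

open Pool.Agent.Lib.MP_ed43e6_ag.N.Core

theorem coreStmt : RatStmt.{u} → ∀ n, ChainStmt.{u} n → CoreStmt.{u} n := by
  classical
  intro hRat n hChain K Ω _ _ _ ρ v s hP hs _ I h0 h1 h2 hB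
  -- the three quotient dimensions
  have hsur0 : Function.Surjective (orb ρ v) := hP.cyc
  let π₁ : (Ix n → Ω) →ₗ[Ω] (Fin n → Ω) := LinearMap.funLeft Ω Ω Sum.inl
  have hπ₁ : Function.Surjective π₁ :=
    LinearMap.funLeft_surjective_of_injective Ω Ω _ Sum.inl_injective
  have hd0 : finrank Ω (SS Ω ⧸ I 0) = n + 1 := by
    rw [finrank_quot (I 0) (orb ρ v) hsur0 h0]
    simp
  have hd1 : finrank Ω (SS Ω ⧸ I 1) = n := by
    rw [finrank_quot (I 1) (π₁ ∘ₗ orb ρ v) (hπ₁.comp hsur0)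
      (fun f => (h1 f).trans ⟨fun h => funext h, fun h a => congrFun h a⟩)]
    simp
  have hd2 : finrank Ω (SS Ω ⧸ I 2) + 1 = n := by
    rw [finrank_quot (I 2) ((Submodule.span Ω {s}).mkQ ∘ₗ π₁ ∘ₗ orb ρ v)
      ((Submodule.mkQ_surjective _).comp (hπ₁.comp hsur0)) ?_]
    · have := Submodule.finrank_quotient_add_finrank (Submodule.span Ω {s})
      rw [finrank_span_singleton hs] at this
      simpa using this
    · intro f
      rw [h2 f, LinearMap.comp_apply, Submodule.mkQ_apply, Submodule.Quotient.mk_eq_zero,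
        Submodule.mem_span_singleton]
      exact ⟨fun ⟨μ, h⟩ => ⟨μ, funext fun a => (h a).symm⟩,
        fun ⟨μ, h⟩ => ⟨μ, fun a => (congrFun h a).symm⟩⟩
  have h01 : I 0 ≤ I 1 := fun f hf => (h1 f).2 fun a => by rw [(h0 f).1 hf]; rfl
  have h12 : I 1 ≤ I 2 := fun f hf => (h2 f).2 ⟨0, fun a => by rw [(h1 f).1 hf a, zero_mul]⟩
  have hm : mm Ω ^ (n + 1) ≤ I 0 := fun f hf => (h0 f).2 (by rw [hP.nil f hf, zero_mulVec])
  obtain ⟨lam, nf, S, hNF, hS, hc⟩ := hChain K Ω I h01 h12 hm hd0 hd1 hd2 hB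
  have hl10 : lam 1 ⊆ lam 0 := lam_sub h01 (hNF 0) (hNF 1)
  have hl21 : lam 2 ⊆ lam 1 := lam_sub h12 (hNF 1) (hNF 2)
  have hc0 : (lam 0).card = n + 1 := (hNF 0).card.trans hd0
  have hc1 : (lam 1).card = n := (hNF 1).card.trans hd1
  have hc2 : (lam 2).card + 1 = n := by rw [(hNF 2).card]; exact hd2
  obtain ⟨u0, -, hu0⟩ := Finset.exists_eq_insert_iff.2 ⟨hl10, by rw [hc0, hc1]⟩
  obtain ⟨sg, hsg2, hsg⟩ := Finset.exists_eq_insert_iff.2 ⟨hl21, by rw [hc2, hc1]⟩
  have hsg1 : sg ∈ lam 1 := hsg ▸ Finset.mem_insert_self _ _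
  -- the two extra generators
  obtain ⟨la, hla⟩ := (h2 _).1 ((hNF 2).sub_mem (monomial sg 1))
  have hla0 : la ≠ 0 := by
    intro h
    have hg : monomial sg 1 - nf 2 (monomial sg 1) ∈ I 1 :=
      (h1 _).2 fun a => by rw [hla a, h, zero_mul]
    have hz := (hNF 1).eq_zero _ hg (by
      refine (support_sub _ _ _).trans (Finset.union_subset ?_ (((hNF 2).supp _).trans hl21))
      refine support_monomial_subset.trans ?_
      simpa using hsg1)
    apply hsg2
    apply (hNF 2).supp (monomial sg 1)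
    rw [← sub_eq_zero.1 hz]
    simp
  set mu : Ω := orb ρ v (monomial u0 1 - nf 1 (monomial u0 1)) (Sum.inr ()) with hmu
  let T : Finset Ω :=
    ((lam 1) ×ˢ (univ : Finset (Ix n))).image fun x => orb ρ v (monomial x.1 1) x.2
  have hT : T.card ≤ n * (n + 1) := by
    refine card_image_le.trans ?_
    rw [card_product, hc1]
    simp
  let S' : Finset Ω := insert mu (insert la (S ∪ T))
  have hS' : S'.card ≤ n * n + 4 * n := by
    have e1 : S'.card ≤ (insert la (S ∪ T)).card + 1 := card_insert_le _ _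
    have e2 : (insert la (S ∪ T)).card ≤ (S ∪ T).card + 1 := card_insert_le _ _
    have e3 : (S ∪ T).card ≤ S.card + T.card := card_union_le _ _
    have e4 : n * (n + 1) = n * n + n := by ring
    omega
  set E := IntermediateField.adjoin K (S' : Set Ω) with hE
  have hSE : ∀ x ∈ S', x ∈ E := fun x hx => IntermediateField.subset_adjoin K _ hx
  have hcE : ∀ j w w', coeff w' (nf j (monomial w 1)) ∈ E := fun j w w' =>
    IntermediateField.adjoin.mono K _ _ (fun x hx => by
      simp only [S', coe_insert, coe_union, Set.mem_insert_iff, Set.mem_union]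
      exact Or.inr (Or.inr (Or.inl hx))) (hc j w w')
  have hmuE : mu ∈ E := hSE _ (mem_insert_self _ _)
  have hlaE : la ∈ E := hSE _ (mem_insert_of_mem (mem_insert_self _ _))
  have hE1 : ∀ m ∈ lam 1, ∀ a, orb ρ v (monomial m 1) a ∈ E := fun m hm' a =>
    hSE _ (mem_insert_of_mem (mem_insert_of_mem (mem_union_right _
      (mem_image.2 ⟨(m, a), mem_product.2 ⟨hm', mem_univ _⟩, rfl⟩))))
  have hEu0 : ∀ a, orb ρ v (monomial u0 1) a ∈ E := by
    intro a
    have e : orb ρ v (monomial u0 1) a =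
        orb ρ v (monomial u0 1 - nf 1 (monomial u0 1)) a + orb ρ v (nf 1 (monomial u0 1)) a := by
      rw [map_sub, Pi.sub_apply, sub_add_cancel]
    rw [e]
    refine add_mem ?_ (apply_mem E _ _ _ (hcE 1 u0) fun m hm' => hE1 m ((hNF 1).supp _ hm') a)
    rcases a with a | a
    · rw [orb_apply, (h1 _).1 ((hNF 1).sub_mem _) a]
      exact zero_mem _
    · exact hmuE
  have hE0 : ∀ m ∈ lam 0, ∀ a, orb ρ v (monomial m 1) a ∈ E := by
    intro m hm' a
    rw [← hu0, mem_insert] at hm'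
    rcases hm' with rfl | hm'
    · exact hEu0 a
    · exact hE1 m hm' a
  have hEall : ∀ m a, orb ρ v (monomial m 1) a ∈ E := by
    intro m a
    have e : orb ρ v (monomial m 1) = orb ρ v (nf 0 (monomial m 1)) := by
      rw [← sub_eq_zero, ← map_sub]
      exact (h0 _).1 ((hNF 0).sub_mem _)
    rw [e]
    exact apply_mem E _ _ _ (hcE 0 m) fun m' hm' => hE0 m' ((hNF 0).supp _ hm') a
  refine ⟨S', hS', fun i a b => ?_, fun a => ?_, fun a => ?_⟩
  · obtain ⟨f, hf⟩ := hsur0 (Pi.single b 1)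
    obtain ⟨c', hc', hy⟩ := hRat K Ω E (Fin 3 →₀ ℕ) (Ix n) f.support
      (fun m => orb ρ v (monomial m 1)) (fun m => coeff m f) (Pi.single b 1)
      (fun m _ a' => hEall m a')
      (fun a' => by
        by_cases h : a' = b
        · subst h
          rw [Pi.single_eq_same]
          exact one_mem _
        · rw [Pi.single_eq_of_ne h]
          exact zero_mem _)
      (fun a' => by rw [← hf]; exact apply_eq_sum _ _ _)
    have hy' : (Pi.single b 1 : Ix n → Ω) = ∑ m ∈ f.support, c' m • orb ρ v (monomial m 1) := by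
      funext a'
      rw [hy a', Finset.sum_apply]
      rfl
    have e : ρ (X i) a b = (ρ (X i) *ᵥ Pi.single b 1) a := by
      rw [mulVec_single_one]
      rfl
    rw [e, hy', mulVec_sum, Finset.sum_apply]
    refine sum_mem fun m _ => ?_
    rw [mulVec_smul, Pi.smul_apply, smul_eq_mul]
    refine mul_mem (hc' m) ?_
    have e' : ρ (X i) *ᵥ orb ρ v (monomial m 1) =
        orb ρ v (monomial (Finsupp.single i 1 + m) 1) := by
      rw [orb_apply, orb_apply, mulVec_mulVec, ← map_mul, monomial_single_add, pow_one]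
    rw [e']
    exact hEall _ a
  · have e : v = orb ρ v (monomial 0 1) := by
      rw [orb_apply, ← C_apply, C_1, map_one, one_mulVec]
    rw [e]
    exact hEall 0 a
  · have e : s a = orb ρ v (monomial sg 1 - nf 2 (monomial sg 1)) (Sum.inl a) / la := by
      rw [orb_apply, hla a, mul_div_cancel_left₀ _ hla0]
    rw [e, map_sub, Pi.sub_apply]
    exact div_mem (sub_mem (hEall _ _)
      (apply_mem E _ _ _ (hcE 2 sg) fun m _ => hEall m _)) hlaE

end Pool.Agent.Lib.MP_ed43e6_ag.N
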