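import Pool.Agent.Lib.MP_ed43e6_ag.N.Defs

/-! Cyclicity is an open condition, and a basis adapted to a socle element. -/

namespace Pool.Agent.Lib.MP_ed43e6_ag.N

open MvPolynomial Module Matrix Finset

universe u

namespace Cyc

theorem map_col {B F : Type u} [CommRing B] [CommRing F] {ι : Type} [Fintype ι] [DecidableEq ι]
    (φ : B →+* F) (ρB : MvPolynomial (Fin 3) B →ₐ[B] Matrix ι ι B)
    (ρF : MvPolynomial (Fin 3) F →ₐ[F] Matrix ι ι F) (h : ∀ i, (ρB (X i)).map φ = ρF (X i))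
    (g : MvPolynomial (Fin 3) B) (w : ι → B) (a : ι) :
    φ ((ρB g *ᵥ w) a) = (ρF (MvPolynomial.map φ g) *ᵥ fun a => φ (w a)) a := by
  rw [RingHom.map_mulVec, rep_map ρB ρF φ h]
  rfl

theorem exists_basis {K V W : Type*} [Field K] [AddCommGroup V] [Module K V] [AddCommGroup W]
    [Module K W] (γ : V →ₗ[K] W) (hγ : Function.Surjective γ) (s : V) (hs : s ≠ 0)
    (hk : (K ∙ s) = LinearMap.ker γ) {n : ℕ} (c : Basis (Fin n) K W) :
    ∃ b : Basis (Ix n) K V, b (Sum.inr ()) = s ∧ (∀ a, γ (b (Sum.inl a)) = c a) ∧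
      ∀ v a, b.repr v (Sum.inl a) = c.repr (γ v) a := by
  let bW : Basis Unit K (LinearMap.ker γ) := (Basis.singleton Unit K).map
    (LinearEquiv.toSpanNonzeroSingleton K V s hs ≪≫ₗ LinearEquiv.ofEq _ _ hk)
  let bQ := c.map (γ.quotKerEquivOfSurjective hγ).symm
  refine ⟨(Basis.sumQuot bW bQ).reindex (Equiv.sumComm _ _), ?_, fun a => ?_, fun v a => ?_⟩
  · simp [bW]
  · have h := congrArg (γ.quotKerEquivOfSurjective hγ) (Basis.sumQuot_inr bW bQ a)
    rw [LinearMap.quotKerEquivOfSurjective_apply_mk] at h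
    simpa [bQ] using h
  · rw [Basis.repr_reindex_apply]
    simp [bQ]

end Cyc

open Cyc

theorem cycStmt : CycStmt.{u} := by
  intro B K F _ _ _ ι _ _ ψ φ hψ hφ N w hN ρK ρF hK hF hc y
  obtain ⟨ρB, hB⟩ := exists_rep N hN
  choose f hf using fun j : ι => hc (Pi.single j 1)
  choose g hg using fun j => MvPolynomial.map_surjective ψ hψ (f j)
  let G : Matrix ι ι B := Matrix.of fun a j => (ρB (g j) *ᵥ w) a
  have hG : ∀ a j, G a j = (ρB (g j) *ᵥ w) a := fun _ _ => rfl
  have h1 : G.map ψ = 1 := by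
    ext a j
    rw [Matrix.map_apply, hG,
      map_col ψ ρB ρK (fun i => by rw [hB, hK]), hg, hf, Pi.single_apply, Matrix.one_apply]
  have h2 : G.det ≠ 0 := fun h0 => by
    have := ψ.map_det G
    rw [h0, map_zero, RingHom.mapMatrix_apply, h1, det_one] at this
    exact zero_ne_one this
  have h3 : (G.map φ).det ≠ 0 := by
    rw [← RingHom.mapMatrix_apply, ← φ.map_det]
    exact (map_ne_zero_iff φ hφ).2 h2
  obtain ⟨c, rfl⟩ := Matrix.mulVec_surjective_iff_isUnit.2
    ((Matrix.isUnit_iff_isUnit_det _).2 h3.isUnit) y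
  refine ⟨∑ j, c j • MvPolynomial.map φ (g j), ?_⟩
  rw [map_sum, Matrix.sum_mulVec]
  ext a
  rw [Finset.sum_apply, Matrix.mulVec, dotProduct]
  refine Finset.sum_congr rfl fun j _ => ?_
  rw [map_smul, Matrix.smul_mulVec, Pi.smul_apply, smul_eq_mul, mul_comm, Matrix.map_apply,
    hG, map_col φ ρB ρF (fun i => by rw [hB, hF])]

theorem socleStmt : SocleStmt.{u} := by
  intro K _ n M I hM hn hJ
  classical
  have hfin := finite_quot hM
  have hex : ∃ j, mm K ^ j ≤ I := ⟨M, hM⟩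
  have h0 : Nat.find hex ≠ 0 := fun h => by
    have h1 := Nat.find_spec hex
    rw [h, pow_zero, Ideal.one_eq_top, top_le_iff] at h1
    subst h1
    have : finrank K (SS K ⧸ (⊤ : Ideal (SS K))) = 0 := finrank_zero_of_subsingleton
    omega
  obtain ⟨k, hk⟩ := Nat.exists_eq_succ_of_ne_zero h0
  have h1 : mm K ^ (k + 1) ≤ I := by
    have := Nat.find_spec hex
    rwa [hk] at this
  obtain ⟨s, hs, hsI⟩ := SetLike.not_le_iff_exists.1 (Nat.find_min hex (m := k) (by omega))
  have hms : ∀ r ∈ mm K, r * s ∈ I := fun r hr => h1 (by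
    rw [pow_succ']
    exact Ideal.mul_mem_mul hr hs)
  have hle : I ≤ I ⊔ Ideal.span {s} := le_sup_left
  have hs0 : Ideal.Quotient.mk I s ≠ 0 := mt Ideal.Quotient.eq_zero_iff_mem.1 hsI
  have hker : (K ∙ Ideal.Quotient.mk I s) = LinearMap.ker (qmap hle) := by
    apply le_antisymm
    · rw [Submodule.span_singleton_le_iff_mem, LinearMap.mem_ker, qmap_mk,
        Ideal.Quotient.eq_zero_iff_mem]
      exact Ideal.mem_sup_right (Ideal.mem_span_singleton_self s)
    · intro x hx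
      obtain ⟨f, rfl⟩ := Ideal.Quotient.mk_surjective x
      rw [LinearMap.mem_ker, qmap_mk, Ideal.Quotient.eq_zero_iff_mem] at hx
      obtain ⟨g, hg, t, ht, rfl⟩ := Submodule.mem_sup.1 hx
      obtain ⟨r, rfl⟩ := Ideal.mem_span_singleton'.1 ht
      refine Submodule.mem_span_singleton.2 ⟨coeff 0 r, ?_⟩
      rw [← Ideal.Quotient.mkₐ_eq_mk K, ← map_smul, Ideal.Quotient.mkₐ_eq_mk, eq_comm,
        Ideal.Quotient.eq]
      have e : g + r * s - coeff 0 r • s = g + (r - C (coeff 0 r)) * s := by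
        rw [smul_eq_C_mul]
        ring
      rw [e]
      exact I.add_mem hg (hms _ (sub_C_mem_mm r))
  have hfJ := finite_of_le hle
  have hnJ : finrank K (SS K ⧸ (I ⊔ Ideal.span {s})) = n := by
    have h2 := (qmap hle).finrank_range_add_finrank_ker
    rw [LinearMap.range_eq_top.2 (qmap_surjective hle), finrank_top, ← hker,
      finrank_span_singleton hs0] at h2
    omega
  obtain ⟨b, b1, b2, b3⟩ := exists_basis (qmap hle) (qmap_surjective hle) _ hs0 hker
    (Module.finBasisOfFinrankEq K _ hnJ)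
  have hsm : ∀ (f : SS K) (v : SS K ⧸ I), qmap hle (f • v) = f • qmap hle v := fun f v => by
    obtain ⟨g, rfl⟩ := Ideal.Quotient.mk_surjective v
    rfl
  refine ⟨b, fun i a => ?_, ?_⟩
  · have h2 : (X i : SS K) • Ideal.Quotient.mk I s = 0 :=
      Ideal.Quotient.eq_zero_iff_mem.2 (hms _ (Ideal.subset_span ⟨i, rfl⟩))
    rw [repOf_apply, LinearMap.toMatrix_apply, b1, Algebra.lsmul_apply, h2, map_zero,
      Finsupp.zero_apply]
  · convert (hJ _ hfJ hnJ).smM (Module.finBasisOfFinrankEq K _ hnJ) using 2 with i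
    ext a a'
    rw [Matrix.toBlocks₁₁, Matrix.of_apply, repOf_apply, LinearMap.toMatrix_apply,
      LinearMap.toMatrix_apply, b3, Algebra.lsmul_apply, hsm, b2, act_apply]

end Pool.Agent.Lib.MP_ed43e6_ag.N
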