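import Pool.Agent.Lib.MP_ed43e6_ag.N.Defs

/-! Derivations of a rational function field with prescribed values on the variables. -/

namespace Pool.Agent.Lib.MP_ed43e6_ag.N

open MvPolynomial

universe u

namespace Der

variable {F : Type u} [Field F]

/-- The algebra map to the dual numbers sending `X i` to `X i + y i ε`. -/
noncomputable def toDual (y : Fin 3 → RF F 3) :
    MvPolynomial (Fin 3) F →ₐ[F] TrivSqZeroExt (RF F 3) (RF F 3) :=
  aeval fun i => TrivSqZeroExt.inl (algebraMap (MvPolynomial (Fin 3) F) (RF F 3) (X i)) +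
    TrivSqZeroExt.inr (y i)

theorem fst_toDual (y : Fin 3 → RF F 3) (f : MvPolynomial (Fin 3) F) :
    (toDual y f).fst = algebraMap (MvPolynomial (Fin 3) F) (RF F 3) f := by
  have h : (TrivSqZeroExt.fstHom F (RF F 3) (RF F 3)).comp (toDual y) =
      IsScalarTower.toAlgHom F (MvPolynomial (Fin 3) F) (RF F 3) := by
    apply MvPolynomial.algHom_ext
    intro i
    simp [toDual]
  exact AlgHom.congr_fun h f

theorem isUnit_toDual (y : Fin 3 → RF F 3) (s : nonZeroDivisors (MvPolynomial (Fin 3) F)) :
    IsUnit (toDual y s) := by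
  rw [TrivSqZeroExt.isUnit_iff_isUnit_fst, fst_toDual]
  exact IsLocalization.map_units (RF F 3) s

/-- The extension to the fraction field. -/
noncomputable def lifted (y : Fin 3 → RF F 3) :
    RF F 3 →ₐ[F] TrivSqZeroExt (RF F 3) (RF F 3) :=
  IsLocalization.liftAlgHom (M := nonZeroDivisors (MvPolynomial (Fin 3) F)) (isUnit_toDual y)

theorem lifted_algebraMap (y : Fin 3 → RF F 3) (f : MvPolynomial (Fin 3) F) :
    lifted y (algebraMap (MvPolynomial (Fin 3) F) (RF F 3) f) = toDual y f := by
  simp [lifted]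

theorem fst_lifted (y : Fin 3 → RF F 3) (x : RF F 3) : (lifted y x).fst = x := by
  have h : (((TrivSqZeroExt.fstHom F (RF F 3) (RF F 3)).comp (lifted y) : RF F 3 →ₐ[F] RF F 3) :
      RF F 3 →+* RF F 3) = RingHom.id (RF F 3) := by
    apply IsLocalization.ringHom_ext (nonZeroDivisors (MvPolynomial (Fin 3) F))
    refine RingHom.ext fun f => ?_
    change (lifted y (algebraMap (MvPolynomial (Fin 3) F) (RF F 3) f)).fst = _
    rw [lifted_algebraMap, fst_toDual]
    rfl
  exact RingHom.congr_fun h x

/-- The `ε` component as a linear map. -/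
noncomputable def lin (y : Fin 3 → RF F 3) : RF F 3 →ₗ[F] RF F 3 where
  toFun x := (lifted y x).snd
  map_add' a b := by rw [map_add, TrivSqZeroExt.snd_add]
  map_smul' c a := by rw [map_smul, TrivSqZeroExt.snd_smul, RingHom.id_apply]

/-- The derivation. -/
noncomputable def der (y : Fin 3 → RF F 3) : Derivation F (RF F 3) (RF F 3) :=
  Derivation.mk' (lin y) fun a b => by
    change (lifted y (a * b)).snd = a • (lifted y b).snd + b • (lifted y a).snd
    rw [map_mul, TrivSqZeroExt.snd_mul, fst_lifted, fst_lifted]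
    simp [mul_comm]

end Der

theorem derStmt : DerStmt.{u} := by
  intro F _ y
  refine ⟨Der.der y, fun i => ?_⟩
  change (Der.lifted y (algebraMap (MvPolynomial (Fin 3) F) (RF F 3) (X i))).snd = y i
  rw [Der.lifted_algebraMap]
  simp [Der.toDual]

end Pool.Agent.Lib.MP_ed43e6_ag.N
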