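import Pool.Agent.Lib.MP_ed43e6_ag.N.Defs

/-! The normal form coefficients of a chain of ideals are generated by those at the roots. -/

namespace Pool.Agent.Lib.MP_ed43e6_ag.N

open MvPolynomial Finset

universe u

namespace Gen2

variable {K Ω : Type u} [Field K] [Field Ω] [Algebra K Ω] {I I' : Ideal (SS Ω)}
  {lam lam' : Finset (Fin 3 →₀ ℕ)} {nf nf' : SS Ω →ₗ[Ω] SS Ω} {u v : Fin 3 →₀ ℕ}

lemma wt_add (u v : Fin 3 →₀ ℕ) : wt (u + v) = wt u + wt v := by
  simp only [wt, key, Finsupp.add_apply]; ring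

lemma wt_mon (a b t : ℕ) : wt (mon a b t) = key a b t := by simp [wt, mon]

lemma mon_eq (u : Fin 3 →₀ ℕ) : mon (u 0) (u 1) (u 2) = u := by
  ext i; fin_cases i <;> simp [mon]

lemma mon_x (a b t : ℕ) : mon (a + 1) b t = mon a b t + Finsupp.single 0 1 := by
  ext i; fin_cases i <;> simp [mon]

lemma mon_y (a b t : ℕ) : mon a (b + 1) t = mon a b t + Finsupp.single 1 1 := by
  ext i; fin_cases i <;> simp [mon]

lemma mon_z (a b t : ℕ) : mon a b (t + 1) = mon a b t + Finsupp.single 2 1 := by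
  ext i; fin_cases i <;> simp [mon]

lemma kill (h : NF I lam nf) {f : SS Ω} (hf : f ∈ I) : nf f = 0 :=
  h.eq_zero _ (by simpa using I.sub_mem hf (h.sub_mem f)) (h.supp f)

lemma fix (h : NF I lam nf) (hu : u ∈ lam) : nf (monomial u 1) = monomial u 1 :=
  (sub_eq_zero.1 (h.eq_zero _ (h.sub_mem _) ((support_sub ..).trans (union_subset
    (support_monomial_subset.trans (singleton_subset_iff.2 hu)) (h.supp _))))).symm

lemma up (h : NF I lam nf) (hu : u ∉ lam) (w : Fin 3 →₀ ℕ) : u + w ∉ lam := by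
  obtain ⟨f, h1, h2, h3⟩ := not_not.1 (mt (h.mem_iff u).2 hu)
  refine fun e => (h.mem_iff _).1 e ⟨f * monomial w 1, I.mul_mem_right _ h1,
    by rwa [coeff_mul_monomial, mul_one], fun v hv hne => ?_⟩
  rw [mem_support_iff, coeff_mul_monomial'] at hv
  split_ifs at hv with hw
  · obtain ⟨v, rfl⟩ : ∃ v', v = v' + w := ⟨v - w, (tsub_add_cancel_of_le hw).symm⟩
    rw [add_tsub_cancel_right, mul_one] at hv
    rw [wt_add, wt_add]
    exact Nat.add_lt_add_right (h3 v (mem_support_iff.2 hv) fun e => hne (by rw [e])) _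
  · exact (hv rfl).elim

lemma lt (h : NF I lam nf) (hu : u ∉ lam) (hv : coeff v (nf (monomial u 1)) ≠ 0) : wt u < wt v :=
  h.pos u (not_not.1 (mt (h.mem_iff u).2 hu)) v (mem_support_iff.2 hv)

lemma zero (h : NF I lam nf) (hne : u ≠ v) (hw : wt v ≤ wt u) : coeff v (nf (monomial u 1)) = 0 := by
  classical
  by_cases hu : u ∈ lam
  · rw [fix h hu, coeff_monomial, if_neg hne]
  · exact not_not.1 fun e => (lt h hu e).not_ge hw

lemma expand (L : SS Ω →ₗ[Ω] SS Ω) (f : SS Ω) (v : Fin 3 →₀ ℕ) :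
    coeff v (L f) = ∑ w ∈ f.support, coeff w f * coeff v (L (monomial w 1)) := by
  conv_lhs => rw [f.as_sum, map_sum, coeff_sum]
  refine sum_congr rfl fun w _ => ?_
  rw [← smul_eq_mul, ← coeff_smul, ← map_smul, smul_monomial, smul_eq_mul, mul_one]

variable {E : IntermediateField K Ω} {g : ℕ}

lemma sum_sub (f : SS Ω) (φ : (Fin 3 →₀ ℕ) → Ω) (v : Fin 3 →₀ ℕ) (h1 : φ v = 1)
    (h : ∀ w ∈ f.support, w ≠ v → coeff w f * φ w ∈ E) :
    ∑ w ∈ f.support, coeff w f * φ w - coeff v f ∈ E := by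
  classical
  by_cases hv : v ∈ f.support
  · rw [← add_sum_erase _ _ hv, h1, mul_one, add_sub_cancel_left]
    exact sum_mem fun w hw => h w (mem_of_mem_erase hw) (ne_of_mem_erase hw)
  · rw [notMem_support_iff.1 hv, sub_zero]
    exact sum_mem fun w hw => h w hw fun e => hv (e ▸ hw)

/-- All coefficients with gap less than `g` lie in `E`. -/
def Small (E : IntermediateField K Ω) (nf : SS Ω →ₗ[Ω] SS Ω) (g : ℕ) : Prop :=
  ∀ u v, wt v < wt u + g → coeff v (nf (monomial u 1)) ∈ E

lemma term (h : NF I lam nf) (h' : NF I' lam' nf') (s : Small E nf g) (s' : Small E nf' g)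
    (hu : u ∉ lam) {w e : Fin 3 →₀ ℕ} (hg : wt (u + e) + g = wt v)
    (hw : w ∈ (nf (monomial u 1)).support) (hne : w + e ≠ v) :
    coeff w (nf (monomial u 1)) * coeff v (nf' (monomial (w + e) 1)) ∈ E := by
  have h1 := lt h hu (mem_support_iff.1 hw)
  have h2 := wt_add w e
  rw [wt_add] at hg
  by_cases h3 : wt v ≤ wt (w + e)
  · rw [zero h' hne h3, mul_zero]; exact zero_mem _
  · exact mul_mem (s _ _ (by omega)) (s' _ _ (by omega))

lemma exp2 (h : NF I lam nf) (h' : NF I' lam' nf') (hI : I ≤ I') (u v e : Fin 3 →₀ ℕ) :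
    coeff v (nf' (monomial (u + e) 1)) = ∑ w ∈ (nf (monomial u 1)).support,
      coeff w (nf (monomial u 1)) * coeff v (nf' (monomial (w + e) 1)) := by
  have h1 := kill h' (I'.mul_mem_right (monomial e 1) (hI (h.sub_mem (monomial u 1))))
  rw [sub_mul, map_sub, sub_eq_zero, monomial_mul, mul_one] at h1
  rw [h1]
  simpa [monomial_mul] using expand (nf' ∘ₗ LinearMap.mulRight Ω (monomial e 1)) (nf (monomial u 1)) v

lemma rel (h : NF I lam nf) (h' : NF I' lam' nf') (hI : I ≤ I') (s : Small E nf g)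
    (s' : Small E nf' g) (hu : u ∉ lam) {e : Fin 3 →₀ ℕ} (hv : v + e ∈ lam')
    (hg : wt u + g = wt v) :
    coeff (v + e) (nf' (monomial (u + e) 1)) ∈ E ↔ coeff v (nf (monomial u 1)) ∈ E := by
  have h1 := sum_sub (E := E) (nf (monomial u 1))
    (fun w => coeff (v + e) (nf' (monomial (w + e) 1))) v (by simp [fix h' hv]) fun w hw hne =>
      term h h' s s' hu (by rw [wt_add, wt_add]; omega) hw fun e => hne (add_right_cancel e)
  rw [← exp2 h h' hI] at h1
  exact ⟨fun a => by simpa using sub_mem a h1, fun a => by simpa using add_mem h1 a⟩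

lemma dead (h : NF I lam nf) (s : Small E nf g) (hu : u ∉ lam) {k : Fin 3} (hv : v k = 0)
    (hg : wt (u + Finsupp.single k 1) + g = wt v) :
    coeff v (nf (monomial (u + Finsupp.single k 1) 1)) ∈ E := by
  rw [exp2 h h le_rfl]
  exact sum_mem fun w hw => term h h s s hu hg hw fun e => by simp [← e] at hv

end Gen2

open Gen2 in
theorem genStmt : GenStmt.{u} := by
  classical
  intro K Ω _ _ _ I lam nf h h01 h12 hN hh R hR
  have tot : ∀ j j', I j ≤ I j' ∨ I j' ≤ I j := by
    have := h01.trans h12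
    intro j j'
    fin_cases j <;> fin_cases j' <;> simp [*]
  have : ∀ u v : Fin 3 →₀ ℕ, ∃ j₀, ∀ j, u ∉ lam j → v ∈ lam j → u ∉ lam j₀ ∧ v ∈ lam j₀ :=
    fun u v => by
      by_cases e : ∃ j, u ∉ lam j ∧ v ∈ lam j
      · exact e.imp fun _ a _ _ _ => a
      · exact ⟨0, fun j a b => (e ⟨j, a, b⟩).elim⟩
  choose lev hlev using this
  let val : (Fin 3 →₀ ℕ) → (Fin 3 →₀ ℕ) → Ω := fun u v => coeff v (nf (lev u v) (monomial u 1))
  refine ⟨R.image fun r => val (mon r.1.1 r.1.2.1 r.1.2.2) (mon r.2.1 r.2.2.1 r.2.2.2),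
    card_image_le, ?_⟩
  set E := IntermediateField.adjoin K ((R.image fun r =>
    val (mon r.1.1 r.1.2.1 r.1.2.2) (mon r.2.1 r.2.2.1 r.2.2.2) : Finset Ω) : Set Ω)
  have triv : ∀ j u v, u ∈ lam j → coeff v (nf j (monomial u 1)) ∈ E := fun j u v hu => by
    rw [fix (hN j) hu, coeff_monomial]
    split_ifs
    exacts [one_mem _, zero_mem _]
  suffices H : ∀ g j, Small E (nf j) g from fun j u v => H (wt v + 1) j u v (by omega)
  intro g
  induction g with
  | zero =>
    intro j u v hw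
    rw [zero (hN j) (by rintro rfl; omega) (by omega)]
    exact zero_mem _
  | succ g ih =>
    let G : (Fin 3 →₀ ℕ) → (Fin 3 →₀ ℕ) → Prop := fun u v => wt u + g = wt v → wt u < wt v →
      ∀ j, u ∉ lam j → v ∈ lam j → coeff v (nf j (monomial u 1)) ∈ E
    have tr : ∀ {j u v}, u ∉ lam j → v ∈ lam j →
        (G u v ↔ (wt u + g = wt v → wt u < wt v → coeff v (nf j (monomial u 1)) ∈ E)) :=
      fun {j u v} hu hv => ⟨fun a b c => a b c j hu hv, fun a b c j' hu' hv' => by
        rcases tot j j' with e | e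
        · simpa using (rel (e := 0) (hN j) (hN j') e (ih j) (ih j') hu (by simpa) b).2 (a b c)
        · exact (rel (e := 0) (hN j') (hN j) e (ih j') (ih j) hu' (by simpa) b).1
            (by simpa using a b c)⟩
    have link : ∀ {j u v} e, u ∉ lam j → v + e ∈ lam j → (G u v ↔ G (u + e) (v + e)) :=
      fun {j u v} e hu hv => by
        rw [tr hu (not_not.1 fun a => up (hN j) a e hv), tr (up (hN j) hu e) hv, wt_add, wt_add,
          add_right_comm, add_left_inj, add_lt_add_iff_right]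
        exact forall_congr' fun b => forall_congr' fun _ =>
          (rel (hN j) (hN j) le_rfl (ih j) (ih j) hu hv b).symm
    have kl : ∀ {j u v} k, u ∉ lam j → v ∈ lam j → v k = 0 → G (u + Finsupp.single k 1) v :=
      fun {j u v} k hu hv h0 => (tr (up (hN j) hu _) hv).2 fun b _ => dead (hN j) (ih j) hu h0 b
    have out : ∀ {j p q s}, h j p q ≤ s → mon p q s ∉ lam j := fun a b => ((hh ..).1 b).not_ge a
    have L : ∀ j, Links (h j) fun p q s a b t => G (mon p q s) (mon a b t) := fun j =>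
      ⟨fun p q s a b t h1 h2 => by
          rw [mon_x, mon_x]; exact link _ (out h1) (mon_x a b t ▸ (hh ..).2 h2),
        fun p q s a b t h1 h2 => by
          rw [mon_y, mon_y]; exact link _ (out h1) (mon_y a b t ▸ (hh ..).2 h2),
        fun p q s a b t h1 h2 => by
          rw [mon_z, mon_z]; exact link _ (out h1) (mon_z a b t ▸ (hh ..).2 h2),
        fun p q s b t h1 h2 => by
          rw [mon_x]; exact kl _ (out h1) ((hh ..).2 h2) (by simp [mon]),
        fun p q s a t h1 h2 => by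
          rw [mon_y]; exact kl _ (out h1) ((hh ..).2 h2) (by simp [mon]),
        fun p q s a b h1 h2 => by
          rw [mon_z]; exact kl _ (out h1) ((hh ..).2 h2) (by simp [mon])⟩
    have main := hR _ (L 0) (L 1) (L 2)
      (fun p q s a b t h1 _ h2 => (h1 (by rwa [wt_mon, wt_mon] at h2)).elim)
      fun r hr a b j hu hv => (tr (hlev _ _ j hu hv).1 (hlev _ _ j hu hv).2).2
        (fun _ _ => IntermediateField.subset_adjoin _ _ (mem_coe.2 (mem_image_of_mem _ hr)))
        a b j hu hv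
    intro j u v hw
    by_cases h1 : wt v < wt u + g
    · exact ih j u v h1
    by_cases hu : u ∈ lam j
    · exact triv j u v hu
    by_cases h0 : coeff v (nf j (monomial u 1)) = 0
    · rw [h0]; exact zero_mem _
    have hv : v ∈ lam j := (hN j).supp _ (mem_support_iff.2 h0)
    have h2 : h j (u 0) (u 1) ≤ u 2 ∧ v 2 < h j (v 0) (v 1) :=
      ⟨not_lt.1 fun a => hu (mon_eq u ▸ (hh ..).2 a), (hh ..).1 ((mon_eq v).symm ▸ hv)⟩
    have h3 := main (u 0) (u 1) (u 2) (v 0) (v 1) (v 2) (by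
      fin_cases j
      exacts [Or.inl h2, Or.inr (Or.inl h2), Or.inr (Or.inr h2)])
    rw [mon_eq, mon_eq] at h3
    exact h3 (by omega) (lt (hN j) hu h0) j hu hv

end Pool.Agent.Lib.MP_ed43e6_ag.N
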