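import Pool.Agent.Lib.MP_ed43e6_ag.N.Chk

/-! Completeness of the depth first enumeration of Borel staircases. -/

namespace Pool.Agent.Lib.MP_ed43e6_ag.N

open Finset

namespace Go

lemma frc_eq {α : Type} (n : ℕ) (f : ℕ → α) : frc n f = f n := by cases n <;> rfl

lemma allLt_iff (n : ℕ) (f : ℕ → Bool) : allLt n f = true ↔ ∀ i < n, f i = true := by
  induction n with
  | zero => simp [allLt]
  | succ n ih =>
    rw [show allLt (n + 1) f = (f n && allLt n f) from rfl, Bool.and_eq_true, ih,
      Nat.forall_lt_succ_right, and_comm]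

lemma mn_eq (a b : ℕ) : mn a b = min a b := by
  change a - (a - b) = _
  omega

lemma put_def (r : ℕ → ℕ → ℕ → ℕ → ℕ → ℕ → Bool) (a b s x y n v : ℕ) : put r a b s x y n v =
    r a (b + 1) (s + v * uS a b) (x + v * uA a b) (y + v * uQ a b) (n + v) := frc_eq _ _

lemma go_succ (k a b s x y n : ℕ) : go (k + 1) a b s x y n = (chk s x y n &&
    ((Nat.ble 7 b || allLt (mn (mn (31 - n) (get s a (b - 1) - 1))
        (cond (Nat.beq a 0) 31 (get s (a - 1) (b + 1)))) fun v => put (go k) a b s x y n (v + 1)) &&
      (Nat.ble 3 a || allLt (mn (31 - n) (get s a 1))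
        fun v => put (go k) (a + 1) 0 s x y n (v + 1)))) := rfl

lemma chk_test {s x y n : ℕ} (h : chk s x y n = true) : get s 3 1 = 0 ∧ get s 0 6 ≤ 1 := by
  unfold chk at h
  rw [Bool.and_eq_true, Bool.and_eq_true] at h
  exact ⟨Nat.eq_of_beq_eq_true h.1.1, Nat.le_of_ble_eq_true h.1.2⟩

/-- The columns before `(a, b)` in row major order. -/
def trunc (h : ℕ → ℕ → ℕ) (a b : ℕ) : ℕ → ℕ → ℕ :=
  fun p q => if p < a ∨ (p = a ∧ q < b) then h p q else 0

variable {h : ℕ → ℕ → ℕ} {a b : ℕ}

lemma trunc_le (p q : ℕ) : trunc h a b p q ≤ h p q := by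
  unfold trunc; split_ifs <;> omega

lemma trunc_succ (p q : ℕ) :
    trunc h a (b + 1) p q = trunc h a b p q + (if p = a ∧ q = b then 1 else 0) * h a b := by
  unfold trunc
  by_cases e : p = a ∧ q = b
  · obtain ⟨rfl, rfl⟩ := e
    simp
  · rw [if_neg e, zero_mul, add_zero]
    exact if_congr (by omega) rfl rfl

lemma size_mono {g : ℕ → ℕ → ℕ} (e : ∀ p q, g p q ≤ h p q) : size g ≤ size h :=
  sum_le_sum fun p _ => sum_le_sum fun q _ => e p q

lemma size_succ (ha : a < 128) (hb : b < 128) :
    size (trunc h a (b + 1)) = size (trunc h a b) + h a b := by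
  simp only [size, trunc_succ, sum_add_distrib, ite_and, ite_mul, one_mul, zero_mul]
  refine congrArg (HAdd.hAdd _) ?_
  rw [sum_eq_single a (fun p _ hp => by simp [hp]) fun e => absurd (mem_range.2 ha) e]
  simp only [if_true]
  rw [sum_eq_single b (fun p _ hp => if_neg hp) fun e => absurd (mem_range.2 hb) e, if_pos rfl]

lemma put_trunc (L : LaneStmt) (r : ℕ → ℕ → ℕ → ℕ → ℕ → ℕ → Bool) (ha : a < 4) (hb : b < 8) :
    put r a b (sml (trunc h a b)) (xP (trunc h a b)) (xQ (trunc h a b)) (size (trunc h a b))
      (h a b) = r a (b + 1) (sml (trunc h a (b + 1))) (xP (trunc h a (b + 1)))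
        (xQ (trunc h a (b + 1))) (size (trunc h a (b + 1))) := by
  have e1 : sml (trunc h a b) + h a b * uS a b = sml (trunc h a (b + 1)) := by
    rw [L.uS_eq a (by omega) b hb, mul_comm, L.sml_mul, L.sml_add]
    exact L.sml_congr _ _ fun p _ q _ => (trunc_succ p q).symm
  have e2 : xP (trunc h a b) + h a b * uA a b = xP (trunc h a (b + 1)) := by
    rw [L.uA_eq a ha b hb, mul_comm, L.big_mul, xP, xP, L.big_add]
    exact L.big_congr _ _ fun _ _ _ _ p _ q _ => (trunc_succ p q).symm
  have e3 : xQ (trunc h a b) + h a b * uQ a b = xQ (trunc h a (b + 1)) := by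
    rw [L.uQ_eq a (by omega) b hb, mul_comm, L.big_mul, xQ, xQ, L.big_add]
    exact L.big_congr _ _ fun p _ q _ _ _ _ _ => (trunc_succ p q).symm
  rw [put_def, e1, e2, e3, size_succ (by omega) (by omega)]

lemma row (hB : Bor h) (a b k : ℕ) : h a (b + k) ≤ h a b := by
  induction k with
  | zero => rfl
  | succ k ih => exact (hB.1 a (b + k)).trans ((Nat.sub_le _ _).trans ih)

lemma col (hB : Bor h) (a b k : ℕ) : h (a + k) b ≤ h a b := by
  induction k with
  | zero => rfl
  | succ k ih => exact (hB.2 (a + k) b).trans ((row hB _ b 1).trans ih)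

lemma anti (hB : Bor h) {a b p q : ℕ} (e : a ≤ p) (e' : b ≤ q) : h p q ≤ h a b := by
  obtain ⟨k, rfl⟩ := Nat.exists_eq_add_of_le e
  obtain ⟨l, rfl⟩ := Nat.exists_eq_add_of_le e'
  exact (row hB _ b l).trans (col hB a b k)

lemma le_size (hB : Bor h) (p q : ℕ) : h p q ≤ size h := by
  refine (anti hB (Nat.zero_le p) (Nat.zero_le q)).trans ?_
  have := size_succ (h := h) (a := 0) (b := 0) (by omega) (by omega)
  have := size_mono (trunc_le (h := h) (a := 0) (b := 0 + 1))
  omega

lemma get_trunc (L : LaneStmt) (hB : Bor h) (hs : size h ≤ 31) {p q : ℕ} (hp : p < 5) (hq : q < 8)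
    (e : p < a ∨ (p = a ∧ q < b)) : get (sml (trunc h a b)) p q = h p q := by
  rw [L.get_sml _ (fun p _ q _ => by
    have := trunc_le (h := h) (a := a) (b := b) p q
    have := le_size hB p q
    omega) p hp q hq]
  exact if_pos e

lemma grid_succ (hG : Grid (trunc h a b)) (ha : a < 4) (hb : b < 7) :
    Grid (trunc h a (b + 1)) := fun p q e => by
  rw [trunc_succ, hG p q e, if_neg (by omega), zero_mul, add_zero]

lemma main (L : LaneStmt) (hB : Bor h) (hs : size h ≤ 31) (k : ℕ) : ∀ a b, a ≤ 3 → 1 ≤ b →
    b ≤ 7 → Grid (trunc h a b) → go k a b (sml (trunc h a b)) (xP (trunc h a b))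
      (xQ (trunc h a b)) (size (trunc h a b)) = true →
    Grid h ∧ chk (sml h) (xP h) (xQ h) (size h) = true := by
  induction k with
  | zero => exact fun _ _ _ _ _ _ e => absurd e Bool.false_ne_true
  | succ k ih =>
    intro a b ha hb hb' hG e
    rw [go_succ, Bool.and_eq_true, Bool.and_eq_true, Bool.or_eq_true, Bool.or_eq_true, allLt_iff,
      allLt_iff, Nat.ble_eq, Nat.ble_eq, mn_eq, mn_eq, mn_eq] at e
    obtain ⟨e0, e1, e2⟩ := e
    obtain ⟨t1, t2⟩ := chk_test e0
    rcases (h a b).eq_zero_or_pos with z | z
    · have r : trunc h a b = trunc h (a + 1) 0 := by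
        funext p q
        unfold trunc
        split_ifs with c d d
        · rfl
        · omega
        · have := anti hB (a := a) (b := b) (p := p) (q := q) (by omega) (by omega)
          omega
        · rfl
      rw [r] at hG e0 e2 t1
      rcases (h (a + 1) 0).eq_zero_or_pos with w | w
      · have r' : trunc h (a + 1) 0 = h := by
          funext p q
          unfold trunc
          split_ifs with c
          · rfl
          · have := anti hB (a := a + 1) (b := 0) (p := p) (q := q) (by omega) (by omega)
            omega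
        rw [r'] at hG e0
        exact ⟨hG, e0⟩
      · have b2 := hB.2 a 0
        have a3 : a < 3 := by
          by_contra c
          obtain rfl : a = 3 := by omega
          rw [get_trunc L hB hs (by omega) (by omega) (by omega)] at t1
          rw [zero_add, t1] at b2
          omega
        have s1 := size_succ (h := h) (a := a + 1) (b := 0) (by omega) (by omega)
        have s2 := size_mono (trunc_le (h := h) (a := a + 1) (b := 0 + 1))
        have := (e2.resolve_left (by omega)) (h (a + 1) 0 - 1) (by
          rw [get_trunc L hB hs (by omega) (by omega) (by omega)]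
          rw [zero_add] at b2
          omega)
        rw [Nat.sub_add_cancel w, put_trunc L _ (by omega) (by omega)] at this
        exact ih _ _ (by omega) (by omega) (by omega) (grid_succ hG (by omega) (by omega)) this
    · have b7 : b < 7 := by
        by_contra c
        obtain rfl : b = 7 := by omega
        rw [get_trunc L hB hs (by omega) (by omega) (by omega)] at t2
        have := anti hB (a := 0) (b := 7) (Nat.zero_le a) le_rfl
        have : h 0 7 ≤ h 0 6 - 1 := hB.1 0 6
        omega
      have s1 := size_succ (h := h) (a := a) (b := b) (by omega) (by omega)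
      have s2 := size_mono (trunc_le (h := h) (a := a) (b := b + 1))
      have b1 := hB.1 a (b - 1)
      rw [Nat.sub_add_cancel hb] at b1
      have := (e1.resolve_left (by omega)) (h a b - 1) (by
        rw [get_trunc L hB hs (by omega) (by omega) (by omega)]
        cases a with
        | zero =>
          rw [show Nat.beq 0 0 = true from rfl, cond_true]
          omega
        | succ a =>
          rw [show Nat.beq (a + 1) 0 = false from rfl, cond_false,
            get_trunc L hB hs (by omega) (by omega) (by omega), Nat.add_sub_cancel]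
          have := hB.2 a b
          omega)
      rw [Nat.sub_add_cancel z, put_trunc L _ (by omega) (by omega)] at this
      exact ih _ _ ha (by omega) (by omega) (grid_succ hG (by omega) b7) this

lemma run_def (v w : ℕ) :
    run v w = put (fun a b s x y n => put (go 30) a b s x y n w) 0 0 0 0 0 0 v := rfl

end Go

open Go

theorem goStmt : LaneStmt → RunStmt → GoStmt := by
  intro L R h hB h0 hs
  have t0 : ∀ p q, trunc h 0 0 p q = 0 := fun p q => if_neg (by omega)
  have z1 : sml (trunc h 0 0) = 0 :=
    ((L.sml_congr _ _ fun p _ q _ => (t0 p q).trans (mul_zero _).symm).trans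
      (L.sml_mul (trunc h 0 0) 0).symm).trans (mul_zero _)
  have zb : ∀ f : ℕ → ℕ → ℕ → ℕ → ℕ, (∀ p q a b, f p q a b = 0) → big f = 0 := fun f e =>
    ((L.big_congr _ _ fun p _ q _ a _ b _ => (e p q a b).trans (mul_zero _).symm).trans
      (L.big_mul f 0).symm).trans (mul_zero _)
  have z2 : xP (trunc h 0 0) = 0 := zb _ fun _ _ p q => t0 p q
  have z3 : xQ (trunc h 0 0) = 0 := zb _ fun p q _ _ => t0 p q
  have z4 : size (trunc h 0 0) = 0 := sum_eq_zero fun p _ => sum_eq_zero fun q _ => t0 p q
  have p0 : 0 < h 0 0 := by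
    by_contra c
    have : size h = 0 := sum_eq_zero fun p _ => sum_eq_zero fun q _ => by
      have := anti hB (Nat.zero_le p) (Nat.zero_le q)
      omega
    omega
  have b1 : h 0 1 ≤ h 0 0 - 1 := hB.1 0 0
  have s0 := size_succ (h := h) (a := 0) (b := 0) (by omega) (by omega)
  have s1 := size_succ (h := h) (a := 0) (b := 0 + 1) (by omega) (by omega)
  have s2 := size_mono (trunc_le (h := h) (a := 0) (b := 0 + 1 + 1))
  have e := R (h 0 0) (h 0 (0 + 1)) (by rw [zero_add]; omega) (by omega)
  have e1 := put_trunc (h := h) (a := 0) (b := 0) L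
    (fun a b s x y n => put (go 30) a b s x y n (h 0 (0 + 1))) (by omega) (by omega)
  rw [z1, z2, z3, z4, put_trunc L _ (by omega) (by omega)] at e1
  rw [run_def, e1] at e
  refine main L hB hs 30 0 _ (by omega) (by omega) (by omega)
    (grid_succ (grid_succ (fun p q _ => t0 p q) (by omega) (by omega)) (by omega) (by omega)) e

end Pool.Agent.Lib.MP_ed43e6_ag.N
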