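import Pool.Agent.Lib.MP_ed43e6_ag.N.Defs
import Pool.Agent.Lib.MP_2c79a0_ag.H68Dim

/-! The height bound for a minimal prime over elements subject to linear relations. -/

namespace Pool.Agent.Lib.MP_ed43e6_ag.N

open Module Matrix

universe u

namespace Krull

/-- A matrix of rank `r` over a field has an invertible `r × r` submatrix. -/
theorem exists_minor {F : Type u} [Field F] {σ τ : Type} [Fintype σ] [Fintype τ]
    (M : Matrix σ τ F) :
    ∃ (a : Fin M.rank → σ) (c : Fin M.rank → τ), Function.Injective a ∧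
      (M.submatrix a c).det ≠ 0 := by
  classical
  obtain ⟨κ, a, ha, hsp, hli⟩ := exists_linearIndependent' F M.row
  have : Finite κ := Finite.of_injective a ha
  let : Fintype κ := Fintype.ofFinite κ
  have hrow : (M.submatrix a id).row = M.row ∘ a := rfl
  have h1 : (M.submatrix a id).rank = Fintype.card κ :=
    LinearIndependent.rank_matrix (by rw [hrow]; exact hli)
  have h2 : (M.submatrix a id).rank = M.rank := by
    rw [rank_eq_finrank_span_row, rank_eq_finrank_span_row, hrow, hsp]
  obtain ⟨κ', b, hb, hsp', hli'⟩ := exists_linearIndependent' F (M.submatrix a id).col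
  have : Finite κ' := Finite.of_injective b hb
  let : Fintype κ' := Fintype.ofFinite κ'
  have h3 : Fintype.card κ' = M.rank := by
    rw [← h2, rank_eq_finrank_span_cols, ← hsp', linearIndependent_iff_card_eq_finrank_span.mp hli',
      Set.finrank]
  let e : κ ≃ Fin M.rank := Fintype.equivFinOfCardEq (h1.symm.trans h2)
  let e' : κ' ≃ Fin M.rank := Fintype.equivFinOfCardEq h3
  refine ⟨a ∘ e.symm, b ∘ e'.symm, ha.comp e.symm.injective, ?_⟩
  have h4 : IsUnit (M.submatrix a (b ∘ e'.symm ∘ e)) := by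
    rw [← linearIndependent_cols_iff_isUnit]
    exact hli'.comp (e'.symm ∘ e) (e'.symm.injective.comp e.injective)
  have h5 : M.submatrix (a ∘ e.symm) (b ∘ e'.symm) =
      (M.submatrix a (b ∘ e'.symm ∘ e)).submatrix e.symm e.symm := by
    ext i j
    simp
  rw [h5, det_submatrix_equiv_self]
  exact ((isUnit_iff_isUnit_det _).mp h4).ne_zero

/-- The adjugate trick. -/
theorem det_mul_mem {R : Type u} [CommRing R] {σ τ : Type} [Fintype σ] {r : ℕ}
    (N : Matrix σ τ R) (ω : σ → R) (h : ω ᵥ* N = 0) (a : Fin r → σ) (c : Fin r → τ)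
    (ha : Function.Injective a) (J : Ideal R) (hJ : ∀ i, i ∉ Set.range a → ω i ∈ J) (k : Fin r) :
    (N.submatrix a c).det * ω (a k) ∈ J := by
  classical
  have h1 : ∀ j, ((ω ∘ a) ᵥ* N.submatrix a c) j ∈ J := by
    intro j
    have h2 : ∑ i, ω i * N i (c j) = 0 := congrFun h (c j)
    rw [← Finset.sum_add_sum_compl (Finset.univ.image a),
      Finset.sum_image fun x _ y _ hxy => ha hxy] at h2
    have h3 : ((ω ∘ a) ᵥ* N.submatrix a c) j =
        -∑ i ∈ (Finset.univ.image a)ᶜ, ω i * N i (c j) := eq_neg_of_add_eq_zero_left h2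
    rw [h3]
    refine J.neg_mem (J.sum_mem fun i hi => J.mul_mem_right _ (hJ i ?_))
    rintro ⟨x, rfl⟩
    simp at hi
  have h4 : ((ω ∘ a) ᵥ* N.submatrix a c) ᵥ* (N.submatrix a c).adjugate =
      (N.submatrix a c).det • (ω ∘ a) := by
    rw [vecMul_vecMul, mul_adjugate, vecMul_smul, vecMul_one]
  have h5 := congrFun h4 k
  have h6 : ((N.submatrix a c).det • (ω ∘ a)) k = (N.submatrix a c).det * ω (a k) := rfl
  rw [← h6, ← h5]
  change ∑ j, ((ω ∘ a) ᵥ* N.submatrix a c) j * (N.submatrix a c).adjugate j k ∈ J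
  exact J.sum_mem fun j _ => J.mul_mem_right _ (h1 j)

/-- The height bound. -/
theorem height_le {R : Type u} [CommRing R] [IsNoetherianRing R] {σ τ : Type} [Fintype σ] {r : ℕ}
    (N : Matrix σ τ R) (ω : σ → R) (h : ω ᵥ* N = 0) (a : Fin r → σ) (c : Fin r → τ)
    (ha : Function.Injective a) (P : Ideal R)
    (hP : P ∈ (Ideal.span (Set.range ω)).minimalPrimes) (hd : (N.submatrix a c).det ∉ P) :
    P.height + r ≤ Fintype.card σ := by
  classical
  let s : Finset R := ((Finset.univ.image a)ᶜ).image ω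
  have hs : ∀ i, i ∉ Set.range a → ω i ∈ Ideal.span (s : Set R) := by
    intro i hi
    apply Ideal.subset_span
    simp only [s, Finset.coe_image, Set.mem_image]
    exact ⟨i, by simpa using hi, rfl⟩
  have hle : Ideal.span (s : Set R) ≤ Ideal.span (Set.range ω) := by
    apply Ideal.span_mono
    intro x hx
    simp only [s, Finset.coe_image, Set.mem_image] at hx
    obtain ⟨i, -, rfl⟩ := hx
    exact ⟨i, rfl⟩
  have hmin : P ∈ (Ideal.span (s : Set R)).minimalPrimes := by
    refine ⟨⟨hP.1.1, hle.trans hP.1.2⟩, ?_⟩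
    rintro Q ⟨hQ, hQs⟩ hQP
    refine hP.2 ⟨hQ, ?_⟩ hQP
    rw [Ideal.span_le]
    rintro _ ⟨i, rfl⟩
    by_cases hi : i ∈ Set.range a
    · obtain ⟨k, rfl⟩ := hi
      exact (hQ.mem_or_mem (hQs (det_mul_mem N ω h a c ha _ hs k))).resolve_left
        fun hq => hd (hQP hq)
    · exact hQs (hs i hi)
  have h1 := Ideal.height_le_card_of_mem_minimalPrimes_span_finset hmin
  have h2 : s.card + r ≤ Fintype.card σ := by
    have h3 : s.card ≤ ((Finset.univ.image a)ᶜ).card := Finset.card_image_le
    have h4 : (Finset.univ.image a).card = r := by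
      rw [Finset.card_image_of_injective _ ha, Finset.card_univ, Fintype.card_fin]
    have h5 := Finset.card_add_card_compl (Finset.univ.image a)
    omega
  calc P.height + r ≤ (s.card : ℕ∞) + r := by gcongr
    _ = ((s.card + r : ℕ) : ℕ∞) := by push_cast; rfl
    _ ≤ _ := by exact_mod_cast h2

/-- Dimension equals transcendence degree for finitely generated domains. -/
theorem exists_dim (K R : Type u) [Field K] [CommRing R] [IsDomain R] [Algebra K R]
    [Algebra.FiniteType K R] :
    ∃ s : ℕ, Order.coheight (⊥ : PrimeSpectrum R) = s ∧ Algebra.trdeg K R = s := by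
  obtain ⟨s, g, hg, hint⟩ := exists_integral_inj_algHom_of_fg K R
  let : Algebra (MvPolynomial (Fin s) K) R := g.toRingHom.toAlgebra
  have : Algebra.IsIntegral (MvPolynomial (Fin s) K) R := ⟨hint⟩
  have : FaithfulSMul (MvPolynomial (Fin s) K) R :=
    (faithfulSMul_iff_algebraMap_injective _ _).mpr hg
  have : IsScalarTower K (MvPolynomial (Fin s) K) R :=
    IsScalarTower.of_algebraMap_eq fun x => (g.commutes x).symm
  refine ⟨s, ?_, ?_⟩
  · rw [← MP_2c79a0_ag.H68Dim.coheight_comap (A := MvPolynomial (Fin s) K),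
      MP_2c79a0_ag.H68Dim.comap_bot, MP_2c79a0_ag.H68Dim.coheight_bot_mvPolynomial]
  · rw [← trdeg_add_eq K (MvPolynomial (Fin s) K), trdeg_eq_zero (A := R), add_zero,
      MvPolynomial.trdeg_of_isDomain]
    simp

end Krull

theorem krullStmt : KrullStmt.{u} := by
  intro K R F _ _ _ _ _ _ _ σ τ _ _ N ω h φ hP
  have : IsNoetherianRing R := Algebra.FiniteType.isNoetherianRing K R
  obtain ⟨a, c, ha, hdet⟩ := Krull.exists_minor (N.map φ)
  have hd : (N.submatrix a c).det ∉ RingHom.ker φ := by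
    intro hmem
    apply hdet
    rw [RingHom.mem_ker, AlgHom.map_det] at hmem
    exact hmem
  have h1 := Krull.height_le N ω h a c ha _ hP hd
  have hprime : (RingHom.ker φ).IsPrime := hP.1.1
  obtain ⟨s, hs, hs'⟩ := Krull.exists_dim K R
  obtain ⟨t, ht, ht'⟩ := Krull.exists_dim K (R ⧸ RingHom.ker φ)
  have h2 := MP_2c79a0_ag.H68Dim.height_add_coheight K R ⟨RingHom.ker φ, hprime⟩
  rw [← MP_2c79a0_ag.H68Dim.coheight_bot_quot, ← PrimeSpectrum.height_eq_orderHeight] at h2
  simp only at h2
  rw [ht, hs] at h2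
  have h3 : (t : Cardinal) ≤ Algebra.trdeg K F := by
    rw [← ht']
    exact trdeg_le_of_injective (Ideal.kerLiftAlg φ) (Ideal.kerLiftAlg_injective φ)
  have h4 : s + (N.map φ).rank ≤ t + Fintype.card σ := by
    have h5 : ((s + (N.map φ).rank : ℕ) : ℕ∞) ≤ ((t + Fintype.card σ : ℕ) : ℕ∞) := by
      push_cast
      rw [← h2, add_comm _ (t : ℕ∞), add_assoc]
      gcongr
    exact_mod_cast h5
  rw [hs']
  calc (s : Cardinal.{u}) + ((N.map φ).rank : Cardinal)
      = ((s + (N.map φ).rank : ℕ) : Cardinal) := by push_cast; rfl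
    _ ≤ ((t + Fintype.card σ : ℕ) : Cardinal) := by exact_mod_cast h4
    _ = (t : Cardinal) + (Fintype.card σ : Cardinal) := by push_cast; rfl
    _ ≤ _ := by gcongr

end Pool.Agent.Lib.MP_ed43e6_ag.N
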