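import Pool.Agent.Lib.MP_ed43e6_ag.N.Chk

/-! Lanewise meaning of the packed operations. -/

namespace Pool.Agent.Lib.MP_ed43e6_ag.N

open Pool.Agent.Lib.MP_5a2675_co Finset

namespace Lane

theorem pk_sub (w n : ℕ) (f g : ℕ → ℕ) (h : ∀ i < n, g i ≤ f i) :
    pk w n f - pk w n g = pk w n fun i => f i - g i :=
  Nat.sub_eq_of_eq_add (by
    rw [pk_add]; exact pk_congr _ _ _ _ fun i hi => (Nat.sub_add_cancel (h i hi)).symm)

theorem pk_shr (w n k : ℕ) (e : ℕ → ℕ) : (pk w n fun i => e i * 2 ^ k) >>> k = pk w n e := by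
  rw [← pk_mul, Nat.shiftRight_eq_div_pow, Nat.mul_div_cancel _ (by positivity)]

theorem pk_tsub (k n : ℕ) (f g : ℕ → ℕ) (h : ∀ i < n, f i < 2 ^ k ∧ g i < 2 ^ k) :
    tsub (pk (k + 1) n fun _ => 2 ^ k) k (pk (k + 1) n f) (pk (k + 1) n g) =
      pk (k + 1) n fun i => f i - g i := by
  have hp : 0 < 2 ^ k := by positivity
  have hd : pk (k + 1) n f + (pk (k + 1) n fun _ => 2 ^ k) - pk (k + 1) n g =
      pk (k + 1) n fun i => f i + 2 ^ k - g i := by
    rw [pk_add, pk_sub _ _ _ _ fun i hi => by have := h i hi; omega]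
  have hl : ∀ i < n, f i + 2 ^ k - g i < 2 ^ (k + 1) := fun i hi => by
    have := h i hi; rw [pow_succ]; omega
  have hm : (pk (k + 1) n fun i => f i + 2 ^ k - g i) &&& (pk (k + 1) n fun _ => 2 ^ k) =
      pk (k + 1) n fun i => (if g i ≤ f i then 1 else 0) * 2 ^ k := by
    rw [pk_and _ _ _ _ hl fun i _ => by rw [pow_succ]; omega]
    refine pk_congr _ _ _ _ fun i hi => ?_
    have := h i hi
    rw [Nat.and_two_pow]
    split_ifs with e
    · rw [Nat.testBit_of_two_pow_le_and_two_pow_add_one_gt (by omega) (hl i hi)]; rfl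
    · rw [Nat.testBit_lt_two_pow (by omega)]; rfl
  have key : ∀ d G : ℕ, d = (pk (k + 1) n fun i => f i + 2 ^ k - g i) →
      G = (pk (k + 1) n fun _ => 2 ^ k) →
      d &&& ((d &&& G) - (d &&& G) >>> k) = pk (k + 1) n fun i => f i - g i := by
    rintro _ _ rfl rfl
    rw [hm, pk_shr, pk_sub _ _ _ _ fun i _ => Nat.le_mul_of_pos_right _ hp,
      pk_and _ _ _ _ hl fun i _ => by rw [pow_succ]; split_ifs <;> omega]
    refine pk_congr _ _ _ _ fun i hi => ?_
    have := h i hi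
    split_ifs with e
    · rw [one_mul, Nat.and_two_pow_sub_one_eq_mod, Nat.sub_add_comm e, Nat.add_mod_right,
        Nat.mod_eq_of_lt (by omega)]
    · rw [zero_mul, Nat.sub_zero, Nat.and_zero]; omega
  exact key _ _ hd rfl

theorem pk_max (k n : ℕ) (f g : ℕ → ℕ) (h : ∀ i < n, f i < 2 ^ k ∧ g i < 2 ^ k) :
    vmax (pk (k + 1) n fun _ => 2 ^ k) k (pk (k + 1) n f) (pk (k + 1) n g) =
      pk (k + 1) n fun i => max (f i) (g i) := by
  rw [vmax, pk_tsub k n g f fun i hi => (h i hi).symm, Nat.add_eq, pk_add]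
  exact pk_congr _ _ _ _ fun i _ => by omega

theorem pk_min (k n : ℕ) (f g : ℕ → ℕ) (h : ∀ i < n, f i < 2 ^ k ∧ g i < 2 ^ k) :
    vmin (pk (k + 1) n fun _ => 2 ^ k) k (pk (k + 1) n f) (pk (k + 1) n g) =
      pk (k + 1) n fun i => min (f i) (g i) := by
  rw [vmin, pk_tsub k n f g h, Nat.sub_eq, pk_sub _ _ _ _ fun i _ => Nat.sub_le _ _]
  exact pk_congr _ _ _ _ fun i _ => by omega

theorem pk_mod (w n : ℕ) (f : ℕ → ℕ) : pk w n f ≡ ∑ i ∈ range n, f i [MOD 2 ^ w - 1] := by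
  induction n with
  | zero => rfl
  | succ n ih =>
    have h1 : 2 ^ w ≡ 1 [MOD 2 ^ w - 1] := ((Nat.modEq_iff_dvd' Nat.one_le_two_pow).2 dvd_rfl).symm
    have h2 := (h1.pow n).mul_right (f n)
    rw [one_pow, one_mul, ← pow_mul] at h2
    rw [pk_succ, sum_range_succ, add_comm]
    exact ih.add h2

theorem pk_sum (w n c : ℕ) (f : ℕ → ℕ) (h : ∀ i < n, f i ≤ c) (hc : n * c < 2 ^ w - 1) :
    pk w n f % (2 ^ w - 1) = ∑ i ∈ range n, f i := by
  rw [pk_mod w n f, Nat.mod_eq_of_lt]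
  refine (sum_le_card_nsmul _ _ c fun i hi => h i (mem_range.1 hi)).trans_lt ?_
  rwa [card_range, smul_eq_mul]

theorem pk_get (w n j : ℕ) (f : ℕ → ℕ) (h : ∀ i < n, f i < 2 ^ w) (hj : j < n) :
    pk w n f >>> (w * j) &&& (2 ^ w - 1) = f j := by
  rw [Nat.and_two_pow_sub_one_eq_mod, Nat.shiftRight_eq_div_pow]
  induction n with
  | zero => omega
  | succ n ih =>
    rw [pk_succ]
    rcases Nat.lt_succ_iff_lt_or_eq.1 hj with h1 | rfl
    · obtain ⟨d, rfl⟩ := Nat.exists_eq_add_of_lt h1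
      rw [show 2 ^ (w * (j + d + 1)) * f (j + d + 1) =
        2 ^ (w * j) * (2 ^ w * (2 ^ (w * d) * f (j + d + 1))) by ring,
        Nat.mul_add_div (by positivity), Nat.mul_add_mod]
      exact ih (fun i hi => h i (by omega)) h1
    · rw [Nat.mul_add_div (by positivity),
        Nat.div_eq_of_lt (pk_lt _ _ _ fun i hi => h i (by omega)), add_zero,
        Nat.mod_eq_of_lt (h j hj)]

theorem sum_split (m n : ℕ) (F : ℕ → ℕ) :
    ∑ i ∈ range (n * m), F i = ∑ a ∈ range m, ∑ b ∈ range n, F (n * a + b) := by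
  induction m with
  | zero => rfl
  | succ m ih => rw [Nat.mul_succ, sum_range_add, ih, sum_range_succ]

theorem bigI {P : ℕ → ℕ → ℕ → ℕ → Prop} (h : ∀ p < 5, ∀ q < 8, ∀ a < 4, ∀ b < 8, P p q a b) :
    ∀ i < 1280, P (i / 64 % 5) (i / 8 % 8) (i / 320) (i % 8) := fun i _ =>
  h _ (by omega) _ (by omega) _ (by omega) _ (by omega)

theorem smlI {P : ℕ → ℕ → Prop} (h : ∀ p < 5, ∀ q < 8, P p q) : ∀ i < 40, P (i / 8) (i % 8) :=
  fun i _ => h _ (by omega) _ (by omega)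

theorem big_sum (f : ℕ → ℕ → ℕ → ℕ → ℕ) (h : ∀ p < 5, ∀ q < 8, ∀ a < 4, ∀ b < 8, f p q a b < 128) :
    big f % 262143 = ∑ a ∈ range 4, ∑ p ∈ range 5, ∑ q ∈ range 8, ∑ b ∈ range 8, f p q a b := by
  refine (pk_sum 18 1280 128 _ (fun i hi => (bigI h i hi).le) (by norm_num)).trans
    ((sum_split 4 320 _).trans (sum_congr rfl fun a _ => (sum_split 5 64 _).trans
      (sum_congr rfl fun p hp => (sum_split 8 8 _).trans (sum_congr rfl fun q hq =>
        sum_congr rfl fun b hb => ?_))))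
  rw [mem_range] at hp hq hb
  congr 1 <;> omega

theorem sml_sum (f : ℕ → ℕ → ℕ) (h : ∀ p < 5, ∀ q < 8, f p q < 128) :
    ssum (sml f) = ∑ p ∈ range 5, ∑ q ∈ range 8, f p q := by
  refine (pk_sum 24 40 128 _ (fun i hi => (smlI h i hi).le) (by norm_num)).trans
    ((sum_split 5 8 _).trans (sum_congr rfl fun p _ => sum_congr rfl fun q hq => ?_))
  rw [mem_range] at hq
  congr 1 <;> omega

theorem get_sml (f : ℕ → ℕ → ℕ) (h : ∀ p < 5, ∀ q < 8, f p q < 16777216) (p : ℕ) (hp : p < 5)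
    (q : ℕ) (hq : q < 8) : get (sml f) p q = f p q := by
  refine (pk_get 24 40 (8 * p + q) _ (smlI h) (by omega)).trans ?_
  congr 1 <;> omega

set_option maxRecDepth 1000000 in
theorem uA_eq : ∀ a < 4, ∀ b < 8,
    uA a b = big fun _ _ a' b' => if a' = a ∧ b' = b then 1 else 0 := by decide +kernel

set_option maxRecDepth 1000000 in
theorem uQ_eq : ∀ p < 5, ∀ q < 8,
    uQ p q = big fun p' q' _ _ => if p' = p ∧ q' = q then 1 else 0 := by decide +kernel

set_option maxRecDepth 1000000 in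
theorem uS_eq : ∀ p < 5, ∀ q < 8,
    uS p q = sml fun p' q' => if p' = p ∧ q' = q then 1 else 0 := by decide +kernel

end Lane

open Lane in
theorem laneStmt : LaneStmt where
  big_add _ _ := pk_add 18 1280 _ _
  big_mul _ c := pk_mul 18 1280 c _
  big_congr _ _ h := pk_congr 18 1280 _ _ (bigI h)
  sml_add _ _ := pk_add 24 40 _ _
  sml_mul _ c := pk_mul 24 40 c _
  sml_congr _ _ h := pk_congr 24 40 _ _ (smlI h)
  big_tsub _ _ h := pk_tsub 17 1280 _ _ (bigI h)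
  big_max _ _ h := pk_max 17 1280 _ _ (bigI h)
  big_min _ _ h := pk_min 17 1280 _ _ (bigI h)
  sml_tsub _ _ h := pk_tsub 23 40 _ _ (smlI h)
  sml_min _ _ h := pk_min 23 40 _ _ (smlI h)
  big_sum := big_sum
  sml_sum := sml_sum
  get_sml := get_sml
  uA_eq := uA_eq
  uQ_eq := uQ_eq
  uS_eq := uS_eq

end Pool.Agent.Lib.MP_ed43e6_ag.N
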