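import Pool.Agent.Lib.MP_ed43e6_ag.N.Defs

/-! Existence of normal forms for the local degree order. -/

namespace Pool.Agent.Lib.MP_ed43e6_ag.N

open MvPolynomial Module

universe u

namespace NFile

lemma deg_eq (u : Fin 3 →₀ ℕ) : Finsupp.degree u = u 0 + u 1 + u 2 := by
  rw [Finsupp.degree_eq_sum, Fin.sum_univ_three]

lemma wt_le (u : Fin 3 →₀ ℕ) : wt u ≤ 16513 * Finsupp.degree u := by
  rw [deg_eq, wt, key]; omega

lemma wt_inj {u v : Fin 3 →₀ ℕ} (hu : Finsupp.degree u < 128) (hv : Finsupp.degree v < 128)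
    (h : wt u = wt v) : u = v := by
  rw [deg_eq] at hu hv
  simp only [wt, key] at h
  have h0 : u 0 = v 0 ∧ u 1 = v 1 ∧ u 2 = v 2 := by omega
  ext i
  fin_cases i
  exacts [h0.1, h0.2.1, h0.2.2]

variable {Ω : Type u} [Field Ω] {I : Ideal (SS Ω)} {M : ℕ}

lemma mon_mem (h : mm Ω ^ M ≤ I) {u : Fin 3 →₀ ℕ} (hu : M ≤ Finsupp.degree u) :
    (monomial u 1 : SS Ω) ∈ I :=
  h ((monomial_mem_pow_idealOfVars_iff M u one_ne_zero).2 hu)

lemma deg_lt (h : mm Ω ^ M ≤ I) {u : Fin 3 →₀ ℕ} (hu : u ∉ ini I) : Finsupp.degree u < M := by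
  by_contra e
  refine hu ⟨monomial u 1, mon_mem h (not_lt.1 e), by simp, fun v hv hv' => ?_⟩
  exact (hv' (Finset.mem_singleton.1 (support_monomial_subset hv))).elim

/-- Combinations of standard monomials of weight at least `k`. -/
noncomputable def W (I : Ideal (SS Ω)) (k : ℕ) : Submodule Ω (SS Ω) :=
  restrictSupport Ω {v | v ∉ ini I ∧ k ≤ wt v}

lemma W_mono {k l : ℕ} (h : k ≤ l) : W I l ≤ W I k :=
  restrictSupport_mono Ω fun _ hv => ⟨hv.1, h.trans hv.2⟩

lemma V_mono {k l : ℕ} (h : k ≤ l) : I.restrictScalars Ω ⊔ W I l ≤ I.restrictScalars Ω ⊔ W I k :=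
  sup_le_sup_left (W_mono h) _

lemma step {u : Fin 3 →₀ ℕ} (hu : u ∈ ini I)
    (ih : ∀ v, wt u < wt v → (monomial v 1 : SS Ω) ∈ I.restrictScalars Ω ⊔ W I (wt v)) :
    (monomial u 1 : SS Ω) ∈ I.restrictScalars Ω ⊔ W I (wt u + 1) := by
  classical
  obtain ⟨f, f1, f2, f3⟩ := hu
  have e : f = coeff u f • monomial u 1 + ∑ v ∈ f.support.erase u, coeff v f • monomial v 1 := by
    rw [Finset.add_sum_erase _ (fun v => coeff v f • (monomial v 1 : SS Ω)) (mem_support_iff.2 f2)]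
    simp only [smul_monomial, smul_eq_mul, mul_one]
    exact f.as_sum
  rw [← Submodule.smul_mem_iff _ f2, eq_sub_of_add_eq e.symm]
  refine sub_mem (Submodule.mem_sup_left f1) (Submodule.sum_mem _ fun v hv => ?_)
  have l := f3 v (Finset.mem_of_mem_erase hv) (Finset.ne_of_mem_erase hv)
  exact Submodule.smul_mem _ _ (V_mono l (ih v l))

lemma span (h : mm Ω ^ M ≤ I) (u : Fin 3 →₀ ℕ) :
    (monomial u 1 : SS Ω) ∈ I.restrictScalars Ω ⊔ W I (wt u) := by
  induction hn : 16513 * M - wt u using Nat.strong_induction_on generalizing u with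
  | _ n ih =>
    by_cases hd : M ≤ Finsupp.degree u
    · exact Submodule.mem_sup_left (mon_mem h hd)
    by_cases hu : u ∈ ini I
    · have := wt_le u
      exact V_mono (Nat.le_succ _) (step hu fun v hv => ih _ (by omega) v rfl)
    · exact Submodule.mem_sup_right (monomial_mem_restrictSupport Ω |>.2 (Or.inl ⟨hu, le_rfl⟩))

lemma exists_g (h : mm Ω ^ M ≤ I) (u : Fin 3 →₀ ℕ) : ∃ g : SS Ω, monomial u 1 - g ∈ I ∧
    g ∈ W I 0 ∧ (u ∈ ini I → g ∈ W I (wt u + 1)) := by
  by_cases hu : u ∈ ini I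
  · obtain ⟨a, ha, g, hg, e⟩ := Submodule.mem_sup.1 (step hu fun v _ => span h v)
    exact ⟨g, by rw [← e, add_sub_cancel_right]; exact ha, W_mono (Nat.zero_le _) hg, fun _ => hg⟩
  · exact ⟨monomial u 1, by simp, monomial_mem_restrictSupport Ω |>.2 (Or.inl ⟨hu, Nat.zero_le _⟩),
      fun e => (hu e).elim⟩

lemma indep (hM : M ≤ 128) (h : mm Ω ^ M ≤ I) {f : SS Ω} (hf : f ∈ I)
    (hs : ∀ v ∈ f.support, v ∉ ini I) : f = 0 := by
  by_contra e
  obtain ⟨u, u1, u2⟩ := f.support.exists_min_image wt (support_nonempty.2 e)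
  refine hs u u1 ⟨f, hf, mem_support_iff.1 u1, fun v hv hv' => (u2 v hv).lt_of_ne fun e' => ?_⟩
  exact hv' (wt_inj ((deg_lt h (hs u u1)).trans_le hM) ((deg_lt h (hs v hv)).trans_le hM) e').symm

end NFile

open NFile in
theorem nfStmt : NFStmt.{u} := by
  intro Ω _ I M hM h
  have fin : {u | u ∉ ini I}.Finite :=
    (Finsupp.finite_of_degree_lt M).subset fun u hu => deg_lt h hu
  choose g g1 g2 g3 using exists_g h
  let nf : SS Ω →ₗ[Ω] SS Ω := (basisMonomials (Fin 3) Ω).constr Ω g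
  have n0 : ∀ u, nf (monomial u 1) = g u := fun u => by
    simpa using (basisMonomials (Fin 3) Ω).constr_basis Ω g u
  have n1 : ∀ f, f - nf f ∈ I ∧ nf f ∈ W I 0 := fun f => by
    induction f using MvPolynomial.induction_on' with
    | monomial u a =>
      have e : (monomial u a : SS Ω) = a • monomial u 1 := by simp [smul_monomial]
      rw [e, map_smul, n0, ← smul_sub]
      exact ⟨(I.restrictScalars Ω).smul_mem a (g1 u), Submodule.smul_mem _ a (g2 u)⟩
    | add p q hp hq =>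
      rw [map_add, add_sub_add_comm]
      exact ⟨add_mem hp.1 hq.1, add_mem hp.2 hq.2⟩
  refine ⟨fin.toFinset, nf, fun u => fin.mem_toFinset, fun f => (n1 f).1,
    fun f v hv => fin.mem_toFinset.2 ((n1 f).2 hv).1,
    fun f hf hs => indep hM h hf fun v hv => fin.mem_toFinset.1 (hs hv),
    fun u hu v hv => (g3 u hu (n0 u ▸ hv)).2, ?_⟩
  have c : IsCompl (I.restrictScalars Ω) (restrictSupport Ω (fin.toFinset : Set (Fin 3 →₀ ℕ))) := by
    refine ⟨Submodule.disjoint_def.2 fun f hf hs => indep hM h hf fun v hv =>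
      fin.mem_toFinset.1 (hs hv), codisjoint_iff.2 (eq_top_iff.2 fun f _ => ?_)⟩
    rw [← sub_add_cancel f (nf f)]
    exact Submodule.add_mem_sup (n1 f).1 fun v hv => fin.mem_toFinset.2 ((n1 f).2 hv).1
  rw [← (Submodule.Quotient.restrictScalarsEquiv Ω I).finrank_eq,
    (Submodule.quotientEquivOfIsCompl _ _ c).finrank_eq,
    finrank_eq_card_basis (basisRestrictSupport Ω _)]
  simp

end Pool.Agent.Lib.MP_ed43e6_ag.N
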