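import Pool.Agent.Lib.MP_ed43e6_ag.N.Defs

/-! Reduction to ideals primary to the origin, and irreducibility of the tables. -/

namespace Pool.Agent.Lib.MP_ed43e6_ag.N

open MvPolynomial Module Matrix

universe u

theorem originStmt : OriginStmt.{u} := by
  intro K _ I _ hI IH
  obtain ⟨j, -, hj⟩ := exists_stab I (finrank K (SS K ⧸ I) + 1)
    (Nat.lt_succ_of_le (finrank_quot_le le_sup_left))
  have hj' : mm K ^ (j + 1) ≤ I ⊔ mm K ^ (j + 1 + 1) :=
    (Ideal.pow_le_pow_right (Nat.le_succ _)).trans (stab hj _)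
  obtain ⟨h, hh, hidem, hle⟩ := exists_idem hj'
  by_cases hhI : h ∈ I
  · exact Or.inl ⟨_, hle.trans (sup_le le_rfl ((Ideal.span_singleton_le_iff_mem _).2 hhI))⟩
  refine Or.inr ?_
  have hm : h ∈ mm K := Ideal.pow_le_self (by omega) hh
  have h1 : 1 - h ∉ I := fun h' => by
    have := add_mem (hI h') hm
    rw [sub_add_cancel, ← pow_one (mm K), ← C_1, C_mem_pow_idealOfVars_iff] at this
    simp at this
  have aux : ∀ g, g ∉ I → Sm (act K (SS K ⧸ (I ⊔ Ideal.span {g}))) := fun g hg =>
    IH _ (finite_of_le le_sup_left) (finrank_quot_lt le_sup_left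
      fun h => hg (h (Ideal.mem_sup_right (Ideal.mem_span_singleton_self _))))
  let e := (qmap (le_sup_left : I ≤ I ⊔ Ideal.span {h})).prod
    (qmap (le_sup_left : I ≤ I ⊔ Ideal.span {1 - h}))
  have he : Function.Bijective e := by
    refine ⟨inj_of_ker _ fun x hx => ?_, fun ⟨x, y⟩ => ?_⟩
    · obtain ⟨f, rfl⟩ := Ideal.Quotient.mk_surjective x
      obtain ⟨g1, h1, _, h2, e1⟩ := Submodule.mem_sup.1
        (Ideal.Quotient.eq_zero_iff_mem.1 (congrArg Prod.fst hx))
      obtain ⟨g2, h3, _, h4, e2⟩ := Submodule.mem_sup.1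
        (Ideal.Quotient.eq_zero_iff_mem.1 (congrArg Prod.snd hx))
      obtain ⟨a, rfl⟩ := Ideal.mem_span_singleton'.1 h2
      obtain ⟨b, rfl⟩ := Ideal.mem_span_singleton'.1 h4
      refine Ideal.Quotient.eq_zero_iff_mem.2 ?_
      rw [show f = (1 - h) * g1 + h * g2 - (a + b) * (h * h - h) by
        linear_combination -(1 - h) * e1 - h * e2]
      exact sub_mem (add_mem (Ideal.mul_mem_left _ _ h1) (Ideal.mul_mem_left _ _ h3))
        (Ideal.mul_mem_left _ _ hidem)
    · obtain ⟨f, rfl⟩ := Ideal.Quotient.mk_surjective x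
      obtain ⟨g, rfl⟩ := Ideal.Quotient.mk_surjective y
      refine ⟨Ideal.Quotient.mk _ ((1 - h) * f + h * g), Prod.ext (Ideal.Quotient.eq.2 ?_)
        (Ideal.Quotient.eq.2 ?_)⟩
      · exact Ideal.mem_sup_right (Ideal.mem_span_singleton'.2 ⟨g - f, by ring⟩)
      · exact Ideal.mem_sup_right (Ideal.mem_span_singleton'.2 ⟨f - g, by ring⟩)
  refine ((aux h hhI).prod (aux _ h1)).of_equiv (LinearEquiv.ofBijective e he).symm fun i v => ?_
  obtain ⟨x, rfl⟩ := he.2 v
  obtain ⟨f, rfl⟩ := Ideal.Quotient.mk_surjective x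
  rw [LinearEquiv.symm_apply_eq, ← LinearEquiv.ofBijective_apply (hf := he),
    LinearEquiv.symm_apply_apply]
  rfl

theorem reduceStmt : ReduceStmt.{u} := by
  intro K _ _ d ih hloc I _ hI
  by_cases h0 : I = ⊤
  · refine sm_of_finrank_le_one ?_ _
    have : Subsingleton (SS K ⧸ I) := Ideal.Quotient.subsingleton_iff.2 h0
    rw [finrank_zero_of_subsingleton]; exact Nat.zero_le _
  obtain ⟨P, hP, hIP⟩ := Ideal.exists_le_maximal I h0
  obtain ⟨a, rfl⟩ := isMaximal_iff_eq_vanishingIdeal_singleton.1 hP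
  let α : SS K →ₐ[K] SS K := aeval fun i => X i - C (a i)
  have hα : Function.Surjective α := fun f => ⟨aeval (fun i => X i + C (a i)) f, by
    rw [← AlgHom.comp_apply, show α.comp (aeval fun i => X i + C (a i)) = AlgHom.id K _ from by
      ext i : 1; simp [α], AlgHom.id_apply]⟩
  let e0 := Ideal.quotientMapₐ I α (le_refl (I.comap α))
  let e := LinearEquiv.ofBijective e0.toLinearMap
    ⟨Ideal.quotientMap_injective, Ideal.quotientMap_surjective (H := le_rfl) hα⟩
  have : Module.Finite K (SS K ⧸ I.comap α) := Module.Finite.equiv e.symm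
  have hfin : finrank K (SS K ⧸ I.comap α) = d := e.finrank_eq.trans hI
  have hS : Sm (act K (SS K ⧸ I.comap α)) := by
    refine (originStmt K _ this (fun f hf => ?_) fun J hJ hlt => ih J hJ (hfin ▸ hlt)).elim
      (fun ⟨M, hM⟩ => hloc _ M hM hfin) id
    have h1 := (mem_vanishingIdeal_singleton_iff _ _).1 (hIP hf)
    rw [← AlgHom.comp_apply, show (aeval a).comp α = aeval 0 from by ext i : 1; simp [α]] at h1
    have h2 : coeff 0 f = 0 := by simpa [constantCoeff_eq] using h1
    simpa [h2] using sub_C_mem_mm f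
  refine (hS.translate a).of_equiv e fun i x => ?_
  obtain ⟨f, rfl⟩ := Ideal.Quotient.mk_surjective x
  change Ideal.Quotient.mk I (α (X i * f + a i • f)) = Ideal.Quotient.mk I (X i * α f)
  congr 1
  simp only [map_add, map_mul, α, aeval_X, smul_eq_C_mul, aeval_C, algebraMap_eq]
  ring

theorem primeStmt : PrimeStmt.{u} := by
  intro K _ _ ι _ _ hsm
  let ev : MvPolynomial (Var ι ⊕ ι) K →ₐ[K] GG K ι :=
    aeval (Sum.elim (fun v => rename Sum.inl (ent (genM K ι) v)) fun a => X (Sum.inr a))
  have : vanishingIdeal K (tables K ι) = RingHom.ker ev := by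
    ext P
    rw [mem_vanishingIdeal_iff, RingHom.mem_ker]
    constructor
    · intro hP
      let g : Matrix ι ι (GG K ι) := (genG K ι).map (rename Sum.inl)
      let D : GG K ι := g.det * ((∏ x : {x : ι × ι // x.1 ≠ x.2},
        (X (Sum.inl (Sum.inr (0, x.1.1))) - X (Sum.inl (Sum.inr (0, x.1.2))))) *
        ∏ a, (g.adjugate *ᵥ fun b => X (Sum.inr b)) a)
      have hy : ∀ y : ((ι × ι) ⊕ (Fin 3 × ι)) ⊕ ι → K, eval y D =
          (g.map (eval y)).det * ((∏ x : {x : ι × ι // x.1 ≠ x.2},
            (y (Sum.inl (Sum.inr (0, x.1.1))) - y (Sum.inl (Sum.inr (0, x.1.2))))) *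
          ∏ a, ((g.map (eval y)).adjugate *ᵥ fun b => y (Sum.inr b)) a) := fun y => by
        simp only [D, map_mul, map_prod, map_sub, eval_X, RingHom.map_det, RingHom.map_mulVec,
          RingHom.mapMatrix_apply]
        rw [show g.adjugate.map (eval y) = (g.map (eval y)).adjugate from (eval y).map_adjugate g]
        simp only [Function.comp_def, eval_X]
      have hD : D ≠ 0 := fun h => by
        let y : ((ι × ι) ⊕ (Fin 3 × ι)) ⊕ ι → K := Sum.elim (Sum.elim
          (fun p => (1 : Matrix ι ι K) p.1 p.2) fun p => Infinite.natEmbedding K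
            (Fintype.equivFin ι p.2)) fun _ => 1
        have h1 : g.map (eval y) = 1 := by ext a b; simp [g, genG, y]
        have h2 := hy y
        rw [h, map_zero, h1, det_one, adjugate_one, one_mul, one_mulVec] at h2
        refine mul_ne_zero (Finset.prod_ne_zero_iff.2 fun x _ => sub_ne_zero.2 fun h3 => x.2 ?_)
          (by simp [y]) h2.symm
        exact (Fintype.equivFin ι).injective (Fin.ext ((Infinite.natEmbedding K).injective h3))
      refine (mul_eq_zero.1 (MvPolynomial.funext fun y => ?_)).resolve_right hD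
      rw [map_mul, map_zero, mul_eq_zero, or_iff_not_imp_right, hy]
      intro h
      obtain ⟨h1, h2⟩ := mul_ne_zero_iff.1 h
      obtain ⟨h2, h3⟩ := mul_ne_zero_iff.1 h2
      have := hP _ (mem_tables_of_diag _ h1 (fun i a => y (Sum.inl (Sum.inr (i, a))))
        (fun a b hab => by
          by_contra hne
          exact Finset.prod_ne_zero_iff.1 h2 ⟨(a, b), hne⟩ (Finset.mem_univ _) (sub_eq_zero.2 hab))
        _ fun a => Finset.prod_ne_zero_iff.1 h3 a (Finset.mem_univ _))
      rw [← this, ← coe_aeval_eq_eval]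
      change ((aeval y).comp ev) P = _
      congr 1
      refine algHom_ext fun v => ?_
      rcases v with ⟨i, a, b⟩ | a
      · let ψ : GenRing K ι →ₐ[K] K := (aeval y).comp (rename Sum.inl)
        have e1 : g.map ((aeval y : GG K ι →ₐ[K] K) : GG K ι →+* K) =
            (genG K ι).map ψ := by ext a b; simp [g, genG, ψ]
        have e2 : (genM K ι i).map ψ = (genG K ι).map ψ *
            diagonal (fun a => y (Sum.inl (Sum.inr (i, a)))) * ((genG K ι).map ψ).adjugate := by
          rw [genM, Matrix.map_mul (f := ψ), Matrix.map_mul (f := ψ), diagonal_map (map_zero _),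
            show (genG K ι).adjugate.map ψ = ((genG K ι).map ψ).adjugate from
              (ψ : GenRing K ι →+* K).map_adjugate _]
          simp [genL, ψ]
        simp only [ev, AlgHom.comp_apply, aeval_X, Sum.elim_inl, ent, e1, ← e2]
        rfl
      · simp [ev]
    · rintro hP _ ⟨I, b, rfl⟩
      have hS := (hsm I (Module.Finite.of_basis b) (finrank_eq_card_basis b)).smM b
      let s1 : MvPolynomial (Var ι ⊕ ι) K →ₐ[K] MvPolynomial (Var ι) K :=
        aeval (Sum.elim X fun a => C (b.repr 1 a))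
      let s2 : GG K ι →ₐ[K] GenRing K ι := aeval (Sum.elim X fun a => C (b.repr 1 a))
      have e1 : (aeval (ent (genM K ι))).comp s1 = s2.comp ev := by
        refine algHom_ext fun v => ?_
        rcases v with v | a
        · simp only [s1, s2, ev, AlgHom.comp_apply, aeval_X, Sum.elim_inl, aeval_rename]
          rw [show (Sum.elim X fun a => C (b.repr 1 a)) ∘ Sum.inl = (X : _ → GenRing K ι) from rfl,
            aeval_X_left_apply]
        · simp [s1, s2, ev]
      have e2 := hS (s1 P) (by rw [← AlgHom.comp_apply, e1, AlgHom.comp_apply, hP, map_zero])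
      rw [← e2, ← AlgHom.comp_apply]
      congr 1
      refine algHom_ext fun v => ?_
      rcases v with v | a <;> simp [s1]
  rw [this]
  exact RingHom.ker_isPrime ev

end Pool.Agent.Lib.MP_ed43e6_ag.N
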