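import Pool.Agent.Lib.MP_ed43e6_ag.N.Defs

/-! Upper bound for the transcendence degree of a punctual nested pair. -/

namespace Pool.Agent.Lib.MP_ed43e6_ag.N

open MvPolynomial Module Matrix Finset

universe u

namespace PunctAux

/-- A basis of the common kernel of the three blocks. -/
theorem exists_ker_basis {F : Type u} [Field F] {n : ℕ} (N : Fin 3 → Matrix (Ix n) (Ix n) F) :
    ∃ (c : ℕ) (g : Fin c → Fin n → F), (stack N).rank + c = n ∧ LinearIndependent F g ∧
      (∀ j i, (N i).toBlocks₁₁ *ᵥ g j = 0) ∧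
      ((∃ s : Fin n → F, s ≠ 0 ∧ ∀ i, (N i).toBlocks₁₁ *ᵥ s = 0) → 0 < c) := by
  classical
  set W := LinearMap.ker (stack N).mulVecLin with hW
  have hmem : ∀ s : Fin n → F, s ∈ W ↔ ∀ i, (N i).toBlocks₁₁ *ᵥ s = 0 := by
    intro s
    rw [hW, LinearMap.mem_ker, Matrix.mulVecLin_apply]
    constructor
    · intro h i
      funext a
      exact congrFun h (i, a)
    · intro h
      funext x
      exact congrFun (h x.1) x.2
  let b := Module.finBasis F W
  refine ⟨finrank F W, fun j => (b j : Fin n → F), ?_, ?_, ?_, ?_⟩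
  · have := LinearMap.finrank_range_add_finrank_ker (stack N).mulVecLin
    rw [Module.finrank_fin_fun] at this
    exact this
  · exact b.linearIndependent.map' W.subtype (Submodule.ker_subtype W)
  · intro j
    exact (hmem _).1 (b j).2
  · rintro ⟨s, hs, h⟩
    have hsW : s ∈ W := (hmem s).2 h
    have : Nontrivial W := ⟨⟨⟨s, hsW⟩, 0, fun e => hs (congrArg Subtype.val e)⟩⟩
    exact Module.finrank_pos

theorem card_cancel {t w : Cardinal.{u}} {c r n m : ℕ} (h1 : t + (c : Cardinal) + (3 : ℕ) ≤ w)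
    (h2 : w ≤ ((m + 3 : ℕ) : Cardinal)) (h3 : r + c = n) :
    t + (n : Cardinal) ≤ ((m + r : ℕ) : Cardinal) := by
  have h4 := h1.trans h2
  have ht : t < Cardinal.aleph0 := by
    refine lt_of_le_of_lt ?_ (lt_of_le_of_lt h4 Cardinal.natCast_lt_aleph0)
    rw [add_assoc]
    exact self_le_add_right _ _
  obtain ⟨k, rfl⟩ := Cardinal.lt_aleph0.1 ht
  have h5 : k + c + 3 ≤ m + 3 := by exact_mod_cast h4
  have h6 : k + n ≤ m + r := by omega
  exact_mod_cast h6

end PunctAux

open PunctAux in
theorem punctStmt : RatStmt.{u} → TrStmt.{u} → BCStmt.{u} → ∀ n, 0 < n → UnipStmt.{u} n →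
    PunctStmt.{u} n := by
  intro hRat hTr hBC n hn hU K F _ _ _ hchar ρ v p M hP hG
  classical
  obtain ⟨c, g, hrank, hli, hker, hpos⟩ := exists_ker_basis (fun i => ρ (X i))
  have hc : 0 < c := hpos (hBC.2.2 F n M ρ v hn hP)
  -- base change to the function field
  obtain ⟨ρ', hρ', hP'⟩ := hBC.1 F (RF F c) n M ρ v hP
  have hP'' := hBC.2.1 (RF F c) n M ρ' _ hP'
  have hchar' : ∀ i : ℕ, 0 < i → i ≤ n → (i : RF F c) ≠ 0 := by
    intro i hi hin h
    apply hchar i hi hin
    apply (algebraMap F (RF F c)).injective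
    rw [map_natCast, map_zero, h]
  let x : Fin c → RF F c := fun j => algebraMap (MvPolynomial (Fin c) F) (RF F c) (X j)
  let s : Fin n → RF F c := ∑ j, x j • (algebraMap F (RF F c) ∘ g j)
  have hli1 : LinearIndependent (RF F c) (fun j => algebraMap F (RF F c) ∘ g j) :=
    linearIndependent_algebraMap_comp_iff.2 hli
  have hs0 : s ≠ 0 := by
    intro h
    have h0 := Fintype.linearIndependent_iff.1 hli1 x h ⟨0, hc⟩
    have hinj : Function.Injective (algebraMap (MvPolynomial (Fin c) F) (RF F c)) :=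
      IsFractionRing.injective _ _
    exact X_ne_zero (R := F) (⟨0, hc⟩ : Fin c) (hinj (h0.trans (map_zero _).symm))
  have hsker : ∀ i, (ρ' (X i)).toBlocks₁₁ *ᵥ s = 0 := by
    intro i
    have hb : (ρ' (X i)).toBlocks₁₁ = ((ρ (X i)).toBlocks₁₁).map (algebraMap F (RF F c)) := by
      rw [hρ' i]; rfl
    rw [hb]
    simp only [s, Matrix.mulVec_sum, Matrix.mulVec_smul]
    refine Finset.sum_eq_zero fun j _ => ?_
    have : ((ρ (X i)).toBlocks₁₁).map (algebraMap F (RF F c)) *ᵥ (algebraMap F (RF F c) ∘ g j)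
        = 0 := by
      funext a
      rw [← RingHom.map_mulVec, hker j i]
      simp
    rw [this, smul_zero]
  obtain ⟨S, hScard, hS1, hS2, hS3, hS4⟩ := hU K (RF F c) hchar' ρ' _ s hP'' hs0 hsker
  -- the enlarged generating set
  let j1 : RF F c →ₐ[K] RF (RF F c) 3 := IsScalarTower.toAlgHom K (RF F c) (RF (RF F c) 3)
  let j0 : F →ₐ[K] RF (RF F c) 3 := j1.comp (IsScalarTower.toAlgHom K F (RF F c))
  have hj0 : ∀ y : F, j0 y = algebraMap (RF F c) (RF (RF F c) 3) (algebraMap F (RF F c) y) :=
    fun y => rfl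
  have hj1 : ∀ y, j1 y = algebraMap (RF F c) (RF (RF F c) 3) y := fun y => rfl
  let S' : Finset (RF (RF F c) 3) := S ∪ Finset.univ.image fun i => j0 (p i)
  have hS'card : S'.card ≤ n * n + 4 * n + 3 + 3 := by
    refine (Finset.card_union_le _ _).trans (add_le_add hScard ?_)
    refine Finset.card_image_le.trans ?_
    simp
  set E := IntermediateField.adjoin K (S' : Set (RF (RF F c) 3)) with hE
  have hle : IntermediateField.adjoin K (S : Set (RF (RF F c) 3)) ≤ E :=
    IntermediateField.adjoin.mono K _ _ (by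
      intro y hy
      exact Finset.mem_coe.2 (Finset.mem_union_left _ (Finset.mem_coe.1 hy)))
  have hF : ∀ y : F, j0 y ∈ E := by
    have htop : E.comap j0 = ⊤ := by
      refine hG (E.comap j0) ?_ ?_ ?_
      · intro i a b
        have := hle (hS1 i a b)
        rw [hρ' i] at this
        exact this
      · intro a
        exact hle (hS2 a)
      · intro i
        refine IntermediateField.subset_adjoin K _ ?_
        exact Finset.mem_coe.2 (Finset.mem_union_right _
          (Finset.mem_image.2 ⟨i, Finset.mem_univ _, rfl⟩))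
    intro y
    have : y ∈ E.comap j0 := htop ▸ IntermediateField.mem_top
    exact this
  have hX : ∀ j, j1 (x j) ∈ E := by
    have hsum : ∀ a, j1 (s a) = ∑ k ∈ Finset.univ, j1 (x k) * j0 (g k a) := by
      intro a
      simp only [s, Finset.sum_apply, Pi.smul_apply, smul_eq_mul, Function.comp_apply, map_sum,
        map_mul]
      rfl
    obtain ⟨c', hc'E, hc'⟩ := hRat K (RF (RF F c) 3) E (Fin c) (Fin n) Finset.univ
      (fun k a => j0 (g k a)) (fun k => j1 (x k)) (fun a => j1 (s a))
      (fun k _ a => hF _) (fun a => hle (hS3 a)) hsum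
    have hli2 : LinearIndependent (RF (RF F c) 3)
        (fun j => algebraMap (RF F c) (RF (RF F c) 3) ∘ (algebraMap F (RF F c) ∘ g j)) :=
      linearIndependent_algebraMap_comp_iff.2 hli1
    have hz := Fintype.linearIndependent_iff.1 hli2 (fun k => j1 (x k) - c' k) (by
      funext a
      have h1 := hsum a
      have h2 := hc' a
      simp only [Finset.sum_apply, Pi.smul_apply, smul_eq_mul, Function.comp_apply, sub_mul,
        Finset.sum_sub_distrib, Pi.zero_apply, ← hj0]
      rw [← h1, ← h2, sub_self])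
    intro j
    rw [sub_eq_zero.1 (hz j)]
    exact hc'E j
  have hF1 : ∀ y, j1 y ∈ E := hTr.2.1 K F _ c j1 E hF hX
  have hall : ∀ y, y ∈ E :=
    hTr.2.1 K (RF F c) _ 3 (AlgHom.id K _) E hF1 fun i => hle (hS4 i)
  have hup := hTr.2.2 K _ S' hall
  have h1 := hTr.1 K F c
  have h2 := hTr.1 K (RF F c) 3
  refine card_cancel (c := c) (w := Algebra.trdeg K (RF (RF F c) 3)) ?_ ?_ hrank
  · exact (add_le_add_left h1 _).trans h2
  · exact hup.trans (by exact_mod_cast hS'card)

end Pool.Agent.Lib.MP_ed43e6_ag.N
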