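import Pool.Agent.Lib.MP_ed43e6_ag.N.Defs

/-! Rational combinations, and transcendence degrees of rational function fields. -/

namespace Pool.Agent.Lib.MP_ed43e6_ag.N

open MvPolynomial

universe u

namespace Rat

theorem retr {E Ω : Type u} [Field E] [Field Ω] [Algebra E Ω] :
    ∃ π : Ω →ₗ[E] E, ∀ e : E, π (algebraMap E Ω e) = e := by
  obtain ⟨π, hπ⟩ := LinearMap.exists_leftInverse_of_injective (Algebra.linearMap E Ω)
    (LinearMap.ker_eq_bot.mpr (algebraMap E Ω).injective)
  exact ⟨π, fun e => LinearMap.congr_fun hπ e⟩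

theorem tr1 (K F : Type u) [Field K] [Field F] [Algebra K F] (m : ℕ) :
    Algebra.trdeg K F + (m : Cardinal) ≤ Algebra.trdeg K (RF F m) := by
  have h1 : (m : Cardinal.{u}) ≤ Algebra.trdeg F (RF F m) := by
    have h := trdeg_le_of_injective
      (IsScalarTower.toAlgHom F (MvPolynomial (Fin m) F) (RF F m))
      (IsFractionRing.injective (MvPolynomial (Fin m) F) (RF F m))
    rw [MvPolynomial.trdeg_of_isDomain] at h
    simpa using h
  exact le_trans (add_le_add le_rfl h1) (trdeg_add_le (R := K) (S := F) (A := RF F m))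

theorem tr2 (K F Ω : Type u) [Field K] [Field F] [Field Ω] [Algebra K F] [Algebra K Ω] (m : ℕ)
    (j : RF F m →ₐ[K] Ω) (E : IntermediateField K Ω) (hF : ∀ x : F, j (algebraMap F _ x) ∈ E)
    (hX : ∀ i, j (algebraMap (MvPolynomial (Fin m) F) _ (X i)) ∈ E) (x : RF F m) : j x ∈ E := by
  have hp : ∀ p : MvPolynomial (Fin m) F, j (algebraMap (MvPolynomial (Fin m) F) _ p) ∈ E := by
    intro p
    induction p using MvPolynomial.induction_on with
    | C a =>
      have e : algebraMap (MvPolynomial (Fin m) F) (RF F m) (C a) = algebraMap F (RF F m) a :=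
        (IsScalarTower.algebraMap_apply F (MvPolynomial (Fin m) F) (RF F m) a).symm
      rw [e]
      exact hF a
    | add p q hp hq =>
      rw [map_add, map_add]
      exact E.add_mem hp hq
    | mul_X p i hp =>
      rw [map_mul, map_mul]
      exact E.mul_mem hp (hX i)
  obtain ⟨a, b, -, rfl⟩ := IsFractionRing.div_surjective (A := MvPolynomial (Fin m) F) x
  rw [map_div₀]
  exact E.div_mem (hp a) (hp b)

theorem tr3 (K Ω : Type u) [Field K] [Field Ω] [Algebra K Ω] (S : Finset Ω)
    (h : ∀ x, x ∈ IntermediateField.adjoin K (S : Set Ω)) :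
    Algebra.trdeg K Ω ≤ (S.card : Cardinal) := by
  have h1 : Algebra.IsAlgebraic (IntermediateField.adjoin K (S : Set Ω)) Ω :=
    ⟨fun x => isAlgebraic_algebraMap (⟨x, h x⟩ : IntermediateField.adjoin K (S : Set Ω))⟩
  have h2 : Algebra.IsAlgebraic (Algebra.adjoin K (S : Set Ω)) Ω :=
    IntermediateField.isAlgebraic_adjoin_iff_top.mp h1
  have h3 := Algebra.IsAlgebraic.trdeg_le_cardinalMk K (S : Set Ω)
  simpa using h3

end Rat

theorem ratStmt : RatStmt.{u} := by
  intro K Ω _ _ _ E κ τ s g c y hg hy h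
  obtain ⟨π, hπ⟩ := Rat.retr (E := E) (Ω := Ω)
  refine ⟨fun k => (π (c k) : Ω), fun k => (π (c k)).2, fun a => ?_⟩
  have h1 : ∀ k ∈ s, (π (c k * g k a) : Ω) = (π (c k) : Ω) * g k a := by
    intro k hk
    have e : c k * g k a = (⟨g k a, hg k hk a⟩ : E) • c k := by
      rw [mul_comm]
      rfl
    rw [e, map_smul, smul_eq_mul, mul_comm]
    rfl
  have h2 : (π (y a) : Ω) = y a := congrArg Subtype.val (hπ ⟨y a, hy a⟩)
  rw [← h2, h a, map_sum, ← Finset.sum_congr rfl h1]
  exact map_sum (algebraMap E Ω) _ s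

theorem trStmt : TrStmt.{u} :=
  ⟨Rat.tr1, Rat.tr2, Rat.tr3⟩

end Pool.Agent.Lib.MP_ed43e6_ag.N
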