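import Pool.Agent.Lib.MP_ed43e6_ag.N.Spl

/-! Kernel runs of the checker, in small pieces. -/

namespace Pool.Agent.Lib.MP_ed43e6_ag.N.Lit.Spl

set_option maxRecDepth 1000000
set_option linter.defProp false

def l1 : List Job := [(6, 4, [2], 18446744017874976767)]
def t1 : l1.all job = true := by decide +kernel
def l4 : List Job := [(7, 6, [4], 36893487876836163570)]
def t4 : l4.all job = true := by decide +kernel
def l7 : List Job := [(8, 4, [2], 36893488121649299455)]
def t7 : l7.all job = true := by decide +kernel
def l10 : List Job := [(8, 6, [2, 1], 36893488130239234047)]
def t10 : l10.all job = true := by decide +kernel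
def l13 : List Job := [(8, 6, [4], 18446743957745434612)]
def t13 : l13.all job = true := by decide +kernel
def l16 : List Job := [(8, 7, [3], 18446744486026412034)]
def t16 : l16.all job = true := by decide +kernel
def l19 : List Job := [(8, 7, [5], 18446744348587458585)]
def t19 : l19.all job = true := by decide +kernel
def l22 : List Job := [(9, 5, [3], 36893488134534201338)]
def t22 : l22.all job = true := by decide +kernel
def l25 : List Job := [(9, 6, [3], 36893487962735509500)]
def t25 : l25.all job = true := by decide +kernel
def l28 : List Job := [(9, 7, [5], 36893487606253223927)]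
def t28 : l28.all job = true := by decide +kernel
def l31 : List Job := [(9, 8, [4], 36893487430159564791)]
def t31 : l31.all job = true := by decide +kernel
def l34 : List Job := [(10, 6, [4], 18446743914795761654)]
def t34 : l34.all job = true := by decide +kernel
def l37 : List Job := [(10, 7, [4], 18446743768766873591)]
def t37 : l37.all job = true := by decide +kernel
def l40 : List Job := [(10, 9, [], 36893487601958256516)]
def t40 : l40.all job = true := by decide +kernel
def l43 : List Job := [(11, 5, [2], 18446743957745434623)]
def t43 : l43.all job = true := by decide +kernel
def l46 : List Job := [(11, 6, [3], 18446743914795761662)]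
def t46 : l46.all job = true := by decide +kernel
def l49 : List Job := [(11, 7, [3], 18446743768766873599)]
def t49 : l49.all job = true := by decide +kernel
def l52 : List Job := [(11, 9, [], 10)]
def t52 : l52.all job = true := by decide +kernel
def l55 : List Job := [(12, 6, [], 36893488082994593764)]
def t55 : l55.all job = true := by decide +kernel
def l58 : List Job := [(12, 8, [], 274877906954)]
def t58 : l58.all job = true := by decide +kernel
def l61 : List Job := [(13, 5, [], 36893488147419103224)]
def t61 : l61.all job = true := by decide +kernel
def l64 : List Job := [(13, 9, [], 36893487052202442718)]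
def t64 : l64.all job = true := by decide +kernel
def l67 : List Job := [(14, 8, [], 36893488082994593758)]
def t67 : l67.all job = true := by decide +kernel
def l70 : List Job := [(7, 6, [3, 1], 36893487992800280575)]
def t70 : l70.all job = true := by decide +kernel
def l73 : List Job := [(9, 7, [3], 36893488147419103228)]
def t73 : l73.all job = true := by decide +kernel
def l76 : List Job := [(12, 7, [], 36893488147419103173)]
def t76 : l76.all job = true := by decide +kernel
def l79 : List Job := [(13, 8, [], 36893488147419103142), (12, 0, [], 36893488147419103231)]
def t79 : l79.all job = true := by decide +kernel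
def l82 : List Job := [(10, 6, [3], 3), (12, 1, [], 36893488147419103231)]
def t82 : l82.all job = true := by decide +kernel
def l85 : List Job := [(15, 7, [], 36893488147419103198), (15, 1, [], 36893488147419103231)]
def t85 : l85.all job = true := by decide +kernel
def l88 : List Job := [(11, 7, [], 36893488147419103184), (7, 2, [], 36893488147419103231), (2, 1, [], 36893488147419103231)]
def t88 : l88.all job = true := by decide +kernel
def l91 : List Job := [(11, 8, [], 34), (17, 13, [], 36893488147419103231), (5, 2, [], 36893488147419103231)]
def t91 : l91.all job = true := by decide +kernel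
def l94 : List Job := [(8, 7, [2], 36893488147419103229), (8, 4, [2], 25769803776)]
def t94 : l94.all job = true := by decide +kernel
def l97 : List Job := [(14, 6, [], 12884901912), (12, 6, [3], 18446744095184388096), (4, 1, [], 36893488147419103231)]
def t97 : l97.all job = true := by decide +kernel
def l100 : List Job := [(10, 7, [2], 36893488147419103230), (8, 6, [2, 1], 17179869184)]
def t100 : l100.all job = true := by decide +kernel
def l103 : List Job := [(12, 7, [], 34), (17, 11, [], 36893488147419103231)]
def t103 : l103.all job = true := by decide +kernel
def l106 : List Job := [(6, 5, [3, 2], 36893488044339888126), (20, 8, [], 36893488147419103231), (5, 1, [], 36893488147419103231)]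
def t106 : l106.all job = true := by decide +kernel
def l109 : List Job := [(15, 4, [], 36893488147419103231), (23, 5, [], 36893488147419103231), (8, 1, [], 36893488147419103231)]
def t109 : l109.all job = true := by decide +kernel
def l112 : List Job := [(9, 7, [4], 18446744413011968009), (24, 3, [], 36893488147419103231), (10, 1, [], 36893488147419103231)]
def t112 : l112.all job = true := by decide +kernel
def l115 : List Job := [(10, 9, [], 80), (14, 13, [], 36893488147419103231)]
def t115 : l115.all job = true := by decide +kernel
def l118 : List Job := [(16, 5, [], 36893488147419103229), (17, 10, [], 36893488147419103231)]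
def t118 : l118.all job = true := by decide +kernel
def l121 : List Job := [(14, 5, [], 36893488147419103225), (8, 7, [5], 64424509440), (6, 2, [], 36893488147419103231)]
def t121 : l121.all job = true := by decide +kernel
def l124 : List Job := [(13, 4, [], 36893488147419103229), (19, 8, [], 36893488147419103231), (20, 10, [], 36893488147419103231), (14, 0, [], 36893488147419103231)]
def t124 : l124.all job = true := by decide +kernel
def l127 : List Job := [(13, 8, [], 89), (21, 6, [], 36893488147419103231), (8, 2, [], 36893488147419103231)]
def t127 : l127.all job = true := by decide +kernel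
def l130 : List Job := [(8, 7, [], 36893488147419103171), (8, 6, [3, 2], 163208757248), (1, 0, [], 36893488147419103231)]
def t130 : l130.all job = true := by decide +kernel
def l133 : List Job := [(9, 7, [], 36893488147419103171), (22, 5, [], 36893488147419103231), (13, 2, [], 36893488147419103231), (16, 15, [], 36893488147419103231)]
def t133 : l133.all job = true := by decide +kernel
def l136 : List Job := [(11, 7, [], 33), (15, 7, [], 33)]
def t136 : l136.all job = true := by decide +kernel
def l139 : List Job := [(8, 6, [4], 2), (19, 3, [], 36893488147419103231), (5, 0, [], 36893488147419103231)]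
def t139 : l139.all job = true := by decide +kernel
def l142 : List Job := [(17, 6, [], 36893488147419103231), (18, 3, [], 36893488147419103231)]
def t142 : l142.all job = true := by decide +kernel
def l145 : List Job := [(8, 7, [3], 64424509441), (11, 6, [4], 18446744095184388104)]
def t145 : l145.all job = true := by decide +kernel
def l148 : List Job := [(7, 6, [], 36893488147419103203), (20, 5, [], 36893488147419103231)]
def t148 : l148.all job = true := by decide +kernel
def l151 : List Job := [(9, 6, [2], 120259084289), (8, 5, [3, 2], 103079215104)]
def t151 : l151.all job = true := by decide +kernel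
def l154 : List Job := [(14, 5, [], 4), (12, 10, [], 1095216660769), (16, 13, [], 36893488147419103231)]
def t154 : l154.all job = true := by decide +kernel
def l157 : List Job := [(9, 7, [2], 18446744378652229633), (19, 6, [], 36893488147419103231)]
def t157 : l157.all job = true := by decide +kernel
def l160 : List Job := [(7, 5, [3, 2], 34359738369), (10, 4, [], 3)]
def t160 : l160.all job = true := by decide +kernel
def l163 : List Job := [(10, 8, [], 2), (13, 12, [], 36893488147419103231), (23, 7, [], 36893488147419103231)]
def t163 : l163.all job = true := by decide +kernel
def l166 : List Job := [(8, 7, [4], 2), (10, 5, [2], 1)]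
def t166 : l166.all job = true := by decide +kernel
def l169 : List Job := [(12, 6, [], 3), (8, 4, [], 36893488147419103227)]
def t169 : l169.all job = true := by decide +kernel
def l172 : List Job := [(8, 5, [2], 18446744189673668609), (13, 7, [], 4294967329), (18, 1, [], 36893488147419103231)]
def t172 : l172.all job = true := by decide +kernel
def l175 : List Job := [(7, 6, [3, 2], 137438953473), (10, 7, [2], 1)]
def t175 : l175.all job = true := by decide +kernel
def l178 : List Job := [(9, 6, [4], 8), (10, 6, [2], 1)]
def t178 : l178.all job = true := by decide +kernel
def l181 : List Job := [(15, 9, [], 36893488147419103231), (18, 7, [], 36893488147419103231), (17, 2, [], 36893488147419103231), (19, 10, [], 36893488147419103231)]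
def t181 : l181.all job = true := by decide +kernel
def l184 : List Job := [(8, 5, [], 36893488147419103219), (11, 3, [], 36893488147419103231), (10, 8, [3], 717259538432), (19, 2, [], 36893488147419103231), (20, 0, [], 36893488147419103231)]
def t184 : l184.all job = true := by decide +kernel
def l187 : List Job := [(11, 5, [], 36893488147419103219), (14, 3, [], 36893488147419103231), (16, 6, [], 1), (22, 2, [], 36893488147419103231), (20, 1, [], 36893488147419103231)]
def t187 : l187.all job = true := by decide +kernel
def l190 : List Job := [(12, 5, [], 36893488147419103219), (8, 7, [4], 1)]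
def t190 : l190.all job = true := by decide +kernel
def l193 : List Job := [(8, 6, [4], 1), (9, 5, [3], 12884901889), (21, 1, [], 36893488147419103231), (21, 0, [], 36893488147419103231)]
def t193 : l193.all job = true := by decide +kernel
def l196 : List Job := [(19, 5, [], 36893488147419103231), (8, 3, [], 36893488147419103231), (7, 6, [2, 1], 163208757248), (25, 1, [], 36893488147419103231), (22, 0, [], 36893488147419103231)]
def t196 : l196.all job = true := by decide +kernel
def l199 : List Job := [(19, 7, [], 36893488147419103231), (20, 6, [], 36893488147419103231), (20, 3, [], 36893488147419103231), (21, 5, [], 36893488147419103231), (27, 1, [], 36893488147419103231), (28, 1, [], 36893488147419103231), (29, 1, [], 36893488147419103231), (22, 9, [], 36893488147419103231), (23, 0, [], 36893488147419103231), (23, 8, [], 36893488147419103231), (24, 0, [], 36893488147419103231), (24, 7, [], 36893488147419103231), (25, 0, [], 36893488147419103231), (25, 6, [], 36893488147419103231), (26, 0, [], 36893488147419103231), (26, 5, [], 36893488147419103231)]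
def t199 : l199.all job = true := by decide +kernel

def L1 : List Job := l1 ++ (l4 ++ (l7 ++ (l10 ++ (l13 ++ (l16 ++ (l19 ++ (l22 ++ (l25 ++ (l28 ++ (l31 ++ (l34 ++ (l37 ++ (l40 ++ (l43 ++ (l46 ++ (l49 ++ (l52 ++ (l55 ++ (l58 ++ (l61 ++ (l64 ++ (l67 ++ (l70 ++ (l73 ++ (l76 ++ (l79 ++ (l82 ++ (l85 ++ (l88 ++ (l91 ++ (l94 ++ (l97 ++ (l100 ++ (l103 ++ (l106 ++ (l109 ++ (l112 ++ (l115 ++ (l118 ++ (l121 ++ (l124 ++ (l127 ++ (l130 ++ (l133 ++ (l136 ++ (l139 ++ (l142 ++ (l145 ++ (l148 ++ (l151 ++ (l154 ++ (l157 ++ (l160 ++ (l163 ++ (l166 ++ (l169 ++ (l172 ++ (l175 ++ (l178 ++ (l181 ++ (l184 ++ (l187 ++ (l190 ++ (l193 ++ (l196 ++ (l199 ++ []))))))))))))))))))))))))))))))))))))))))))))))))))))))))))))))))))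

theorem ok1 : ∀ j ∈ L1, job j = true :=
  all_app t1 (all_app t4 (all_app t7 (all_app t10 (all_app t13 (all_app t16 (all_app t19 (all_app t22 (all_app t25 (all_app t28 (all_app t31 (all_app t34 (all_app t37 (all_app t40 (all_app t43 (all_app t46 (all_app t49 (all_app t52 (all_app t55 (all_app t58 (all_app t61 (all_app t64 (all_app t67 (all_app t70 (all_app t73 (all_app t76 (all_app t79 (all_app t82 (all_app t85 (all_app t88 (all_app t91 (all_app t94 (all_app t97 (all_app t100 (all_app t103 (all_app t106 (all_app t109 (all_app t112 (all_app t115 (all_app t118 (all_app t121 (all_app t124 (all_app t127 (all_app t130 (all_app t133 (all_app t136 (all_app t139 (all_app t142 (all_app t145 (all_app t148 (all_app t151 (all_app t154 (all_app t157 (all_app t160 (all_app t163 (all_app t166 (all_app t169 (all_app t172 (all_app t175 (all_app t178 (all_app t181 (all_app t184 (all_app t187 (all_app t190 (all_app t193 (all_app t196 (all_app t199 (fun _ k => absurd k List.not_mem_nil)))))))))))))))))))))))))))))))))))))))))))))))))))))))))))))))))))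

end Pool.Agent.Lib.MP_ed43e6_ag.N.Lit.Spl
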