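import Pool.Agent.Lib.MP_ed43e6_ag.N.Spl

/-! Kernel runs of the checker, in small pieces. -/

namespace Pool.Agent.Lib.MP_ed43e6_ag.N.Lit.Spl

set_option maxRecDepth 1000000
set_option linter.defProp false

def l2 : List Job := [(7, 4, [2], 36893488100174462975)]
def t2 : l2.all job = true := by decide +kernel
def l5 : List Job := [(7, 6, [4, 2], 36893487984210345983)]
def t5 : l5.all job = true := by decide +kernel
def l8 : List Job := [(8, 5, [2], 18446743957745434622)]
def t8 : l8.all job = true := by decide +kernel
def l11 : List Job := [(8, 6, [3], 36893487881131130874)]
def t11 : l11.all job = true := by decide +kernel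
def l14 : List Job := [(8, 7, [2, 1], 36893488138829168639)]
def t14 : l14.all job = true := by decide +kernel
def l17 : List Job := [(8, 7, [4], 36893488147419103220)]
def t17 : l17.all job = true := by decide +kernel
def l20 : List Job := [(9, 4, [2], 18446744069414584319)]
def t20 : l20.all job = true := by decide +kernel
def l23 : List Job := [(9, 5, [3, 2], 36893488143124135935)]
def t23 : l23.all job = true := by decide +kernel
def l26 : List Job := [(9, 7, [2], 18446743768766873598)]
def t26 : l26.all job = true := by decide +kernel
def l29 : List Job := [(9, 8, [], 18446742978492891040)]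
def t29 : l29.all job = true := by decide +kernel
def l32 : List Job := [(10, 5, [3], 36893488147419103228)]
def t32 : l32.all job = true := by decide +kernel
def l35 : List Job := [(10, 7, [], 36893487601958256608)]
def t35 : l35.all job = true := by decide +kernel
def l38 : List Job := [(10, 8, [2], 18446743768766873599)]
def t38 : l38.all job = true := by decide +kernel
def l41 : List Job := [(10, 9, [], 545460846601)]
def t41 : l41.all job = true := by decide +kernel
def l44 : List Job := [(11, 5, [3], 36893488087289561085)]
def t44 : l44.all job = true := by decide +kernel
def l47 : List Job := [(11, 6, [4], 18446744052234715127)]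
def t47 : l47.all job = true := by decide +kernel
def l50 : List Job := [(11, 8, [], 36893487876836163461)]
def t50 : l50.all job = true := by decide +kernel
def l53 : List Job := [(11, 10, [], 36893483753667559303)]
def t53 : l53.all job = true := by decide +kernel
def l56 : List Job := [(12, 6, [3], 18446744052234715135)]
def t56 : l56.all job = true := by decide +kernel
def l59 : List Job := [(12, 9, [], 36893487876836163463)]
def t59 : l59.all job = true := by decide +kernel
def l62 : List Job := [(13, 7, [], 36893488014275117012)]
def t62 : l62.all job = true := by decide +kernel
def l65 : List Job := [(14, 4, [], 36893488082994593791)]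
def t65 : l65.all job = true := by decide +kernel
def l68 : List Job := [(6, 5, [3, 1], 36893488095879495679)]
def t68 : l68.all job = true := by decide +kernel
def l71 : List Job := [(7, 6, [3, 2], 36893488009980149758)]
def t71 : l71.all job = true := by decide +kernel
def l74 : List Job := [(10, 4, [], 36893488147419103228)]
def t74 : l74.all job = true := by decide +kernel
def l77 : List Job := [(15, 5, [], 36893488147419103223)]
def t77 : l77.all job = true := by decide +kernel
def l80 : List Job := [(9, 6, [4], 3), (9, 4, [2], 18446744078004518912)]
def t80 : l80.all job = true := by decide +kernel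
def l83 : List Job := [(10, 8, [], 36893488147419103120), (13, 1, [], 36893488147419103231)]
def t83 : l83.all job = true := by decide +kernel
def l86 : List Job := [(14, 7, [], 36893488147419103206), (8, 7, [2, 1], 8589934592)]
def t86 : l86.all job = true := by decide +kernel
def l89 : List Job := [(16, 6, [], 36893488147419103230), (16, 14, [], 36893488147419103231), (3, 2, [], 36893488147419103231)]
def t89 : l89.all job = true := by decide +kernel
def l92 : List Job := [(7, 6, [4], 270582939649), (25, 2, [], 36893488147419103231)]
def t92 : l92.all job = true := by decide +kernel
def l95 : List Job := [(10, 5, [2], 36893488147419103230), (11, 2, [], 36893488147419103231), (4, 2, [], 36893488147419103231)]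
def t95 : l95.all job = true := by decide +kernel
def l98 : List Job := [(6, 5, [2, 1], 36893488078699626495), (11, 7, [2], 30064771072)]
def t98 : l98.all job = true := by decide +kernel
def l101 : List Job := [(12, 4, [], 36893488147419103229), (15, 13, [], 36893488147419103231)]
def t101 : l101.all job = true := by decide +kernel
def l104 : List Job := [(13, 6, [], 36893488147419103205), (18, 10, [], 36893488147419103231)]
def t104 : l104.all job = true := by decide +kernel
def l107 : List Job := [(7, 5, [3, 1], 36893488113059364863), (21, 7, [], 36893488147419103231), (6, 1, [], 36893488147419103231)]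
def t107 : l107.all job = true := by decide +kernel
def l110 : List Job := [(8, 6, [3], 266287972353), (7, 4, [2], 47244640256)]
def t110 : l110.all job = true := by decide +kernel
def l113 : List Job := [(9, 8, [], 18446745168926212161), (24, 4, [], 36893488147419103231), (18, 12, [], 36893488147419103231), (12, 5, [2], 4294967296)]
def t113 : l113.all job = true := by decide +kernel
def l116 : List Job := [(11, 8, [], 80), (15, 12, [], 36893488147419103231)]
def t116 : l116.all job = true := by decide +kernel
def l119 : List Job := [(12, 11, [], 36893488147419103231), (7, 6, [4, 3], 18446744241213276160), (9, 1, [], 36893488147419103231)]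
def t119 : l119.all job = true := by decide +kernel
def l122 : List Job := [(14, 9, [], 36893488147419103231), (18, 9, [], 36893488147419103231), (19, 11, [], 36893488147419103231)]
def t122 : l122.all job = true := by decide +kernel
def l125 : List Job := [(15, 8, [], 36893488147419103231), (20, 7, [], 36893488147419103231), (21, 9, [], 36893488147419103231), (15, 0, [], 36893488147419103231)]
def t125 : l125.all job = true := by decide +kernel
def l128 : List Job := [(11, 8, [], 270582939656), (7, 6, [4, 2], 163208757248)]
def t128 : l128.all job = true := by decide +kernel
def l131 : List Job := [(10, 8, [], 33), (21, 3, [], 36893488147419103231)]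
def t131 : l131.all job = true := by decide +kernel
def l134 : List Job := [(16, 4, [], 36893488147419103231), (23, 3, [], 36893488147419103231), (14, 2, [], 36893488147419103231), (17, 0, [], 36893488147419103231)]
def t134 : l134.all job = true := by decide +kernel
def l137 : List Job := [(10, 7, [], 545460846595), (6, 5, [2, 1], 68719476736), (3, 0, [], 36893488147419103231)]
def t137 : l137.all job = true := by decide +kernel
def l140 : List Job := [(6, 5, [3], 36893488147419103225), (7, 6, [3, 1], 154618822656)]
def t140 : l140.all job = true := by decide +kernel
def l143 : List Job := [(7, 5, [3], 36893488147419103225), (16, 3, [], 36893488147419103231)]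
def t143 : l143.all job = true := by decide +kernel
def l146 : List Job := [(11, 9, [], 1095216660705), (11, 4, [], 2)]
def t146 : l146.all job = true := by decide +kernel
def l149 : List Job := [(8, 6, [], 36893488147419103203), (12, 4, [], 2), (16, 1, [], 36893488147419103231)]
def t149 : l149.all job = true := by decide +kernel
def l152 : List Job := [(9, 8, [], 2), (6, 5, [3, 1], 51539607552), (22, 8, [], 36893488147419103231), (17, 14, [], 36893488147419103231)]
def t152 : l152.all job = true := by decide +kernel
def l155 : List Job := [(8, 5, [3], 111669149697), (10, 7, [4], 18446744378652229640), (7, 0, [], 36893488147419103231)]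
def t155 : l155.all job = true := by decide +kernel
def l158 : List Job := [(18, 5, [], 36893488147419103231), (9, 8, [4], 717259538440)]
def t158 : l158.all job = true := by decide +kernel
def l161 : List Job := [(6, 5, [2], 36893488147419103229), (14, 5, [], 2), (9, 0, [], 36893488147419103231)]
def t161 : l161.all job = true := by decide +kernel
def l164 : List Job := [(11, 5, [3], 60129542146), (14, 11, [], 36893488147419103231), (24, 6, [], 36893488147419103231)]
def t164 : l164.all job = true := by decide +kernel
def l167 : List Job := [(9, 7, [3], 2), (10, 5, [3], 1)]
def t167 : l167.all job = true := by decide +kernel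
def l170 : List Job := [(12, 8, [], 270582939745), (9, 4, [], 36893488147419103227)]
def t170 : l170.all job = true := by decide +kernel
def l173 : List Job := [(9, 8, [3], 747324309505), (10, 8, [], 64)]
def t173 : l173.all job = true := by decide +kernel
def l176 : List Job := [(11, 7, [], 2), (11, 6, [3], 18446744232623341569)]
def t176 : l176.all job = true := by decide +kernel
def l179 : List Job := [(13, 11, [], 36893488147419103231), (13, 6, [], 2)]
def t179 : l179.all job = true := by decide +kernel
def l182 : List Job := [(16, 8, [], 36893488147419103231), (10, 3, [], 36893488147419103231), (6, 4, [2], 18446744129544126464), (18, 2, [], 36893488147419103231), (10, 0, [], 36893488147419103231)]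
def t182 : l182.all job = true := by decide +kernel
def l185 : List Job := [(9, 5, [], 36893488147419103219), (12, 3, [], 36893488147419103231), (23, 4, [], 36893488147419103231), (20, 2, [], 36893488147419103231), (20, 11, [], 36893488147419103231)]
def t185 : l185.all job = true := by decide +kernel
def l188 : List Job := [(17, 7, [], 36893488147419103231), (15, 3, [], 36893488147419103231), (23, 2, [], 36893488147419103231), (24, 2, [], 36893488147419103231), (9, 2, [], 36893488147419103231), (27, 3, [], 36893488147419103231), (11, 0, [], 36893488147419103231)]
def t188 : l188.all job = true := by decide +kernel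
def l191 : List Job := [(10, 7, [3], 18446744413011968001), (9, 5, [2], 18446744095184388097)]
def t191 : l191.all job = true := by decide +kernel
def l194 : List Job := [(15, 5, [], 8), (9, 7, [3], 1), (22, 1, [], 36893488147419103231), (21, 10, [], 36893488147419103231)]
def t194 : l194.all job = true := by decide +kernel
def l197 : List Job := [(17, 3, [], 36893488147419103231), (7, 3, [], 36893488147419103231), (6, 3, [], 36893488147419103231), (14, 12, [], 36893488147419103231), (24, 5, [], 36893488147419103231), (26, 1, [], 36893488147419103231)]
def t197 : l197.all job = true := by decide +kernel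
def l200 : List Job := [(7, 5, [3, 1], 34359738368), (5, 3, [], 36893488147419103231), (27, 0, [], 36893488147419103231), (27, 4, [], 36893488147419103231), (28, 0, [], 36893488147419103231), (28, 3, [], 36893488147419103231), (29, 0, [], 36893488147419103231), (29, 2, [], 36893488147419103231), (30, 0, [], 36893488147419103231), (30, 1, [], 36893488147419103231), (31, 0, [], 36893488147419103231)]
def t200 : l200.all job = true := by decide +kernel

def L2 : List Job := l2 ++ (l5 ++ (l8 ++ (l11 ++ (l14 ++ (l17 ++ (l20 ++ (l23 ++ (l26 ++ (l29 ++ (l32 ++ (l35 ++ (l38 ++ (l41 ++ (l44 ++ (l47 ++ (l50 ++ (l53 ++ (l56 ++ (l59 ++ (l62 ++ (l65 ++ (l68 ++ (l71 ++ (l74 ++ (l77 ++ (l80 ++ (l83 ++ (l86 ++ (l89 ++ (l92 ++ (l95 ++ (l98 ++ (l101 ++ (l104 ++ (l107 ++ (l110 ++ (l113 ++ (l116 ++ (l119 ++ (l122 ++ (l125 ++ (l128 ++ (l131 ++ (l134 ++ (l137 ++ (l140 ++ (l143 ++ (l146 ++ (l149 ++ (l152 ++ (l155 ++ (l158 ++ (l161 ++ (l164 ++ (l167 ++ (l170 ++ (l173 ++ (l176 ++ (l179 ++ (l182 ++ (l185 ++ (l188 ++ (l191 ++ (l194 ++ (l197 ++ (l200 ++ []))))))))))))))))))))))))))))))))))))))))))))))))))))))))))))))))))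

theorem ok2 : ∀ j ∈ L2, job j = true :=
  all_app t2 (all_app t5 (all_app t8 (all_app t11 (all_app t14 (all_app t17 (all_app t20 (all_app t23 (all_app t26 (all_app t29 (all_app t32 (all_app t35 (all_app t38 (all_app t41 (all_app t44 (all_app t47 (all_app t50 (all_app t53 (all_app t56 (all_app t59 (all_app t62 (all_app t65 (all_app t68 (all_app t71 (all_app t74 (all_app t77 (all_app t80 (all_app t83 (all_app t86 (all_app t89 (all_app t92 (all_app t95 (all_app t98 (all_app t101 (all_app t104 (all_app t107 (all_app t110 (all_app t113 (all_app t116 (all_app t119 (all_app t122 (all_app t125 (all_app t128 (all_app t131 (all_app t134 (all_app t137 (all_app t140 (all_app t143 (all_app t146 (all_app t149 (all_app t152 (all_app t155 (all_app t158 (all_app t161 (all_app t164 (all_app t167 (all_app t170 (all_app t173 (all_app t176 (all_app t179 (all_app t182 (all_app t185 (all_app t188 (all_app t191 (all_app t194 (all_app t197 (all_app t200 (fun _ k => absurd k List.not_mem_nil)))))))))))))))))))))))))))))))))))))))))))))))))))))))))))))))))))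

end Pool.Agent.Lib.MP_ed43e6_ag.N.Lit.Spl
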