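import Pool.Agent.Lib.MP_ed43e6_ag.N.Run0
import Pool.Agent.Lib.MP_ed43e6_ag.N.Run1
import Pool.Agent.Lib.MP_ed43e6_ag.N.Run2

/-! All runs together. -/

namespace Pool.Agent.Lib.MP_ed43e6_ag.N

open Lit.Spl

set_option maxRecDepth 1000000

def lstAll : List Job := L0 ++ (L1 ++ (L2))

theorem run_all : ∀ j ∈ lstAll, job j = true := fun j k => by
  simp only [lstAll, List.mem_append] at k
  rcases k with k | k | k
  exacts [ok0 j k, ok1 j k, ok2 j k]

def cv (v0 : ℕ) : Bool :=
  allLt v0 fun v1 => or (Nat.ble 32 (Nat.add v0 v1)) (cov lstAll v0 v1 30 [])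

set_option linter.defProp false

def cv0 : cv 0 = true := by decide +kernel
def cv1 : cv 1 = true := by decide +kernel
def cv2 : cv 2 = true := by decide +kernel
def cv3 : cv 3 = true := by decide +kernel
def cv4 : cv 4 = true := by decide +kernel
def cv5 : cv 5 = true := by decide +kernel
def cv6 : cv 6 = true := by decide +kernel
def cv7 : cv 7 = true := by decide +kernel
def cv8 : cv 8 = true := by decide +kernel
def cv9 : cv 9 = true := by decide +kernel
def cv10 : cv 10 = true := by decide +kernel
def cv11 : cv 11 = true := by decide +kernel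
def cv12 : cv 12 = true := by decide +kernel
def cv13 : cv 13 = true := by decide +kernel
def cv14 : cv 14 = true := by decide +kernel
def cv15 : cv 15 = true := by decide +kernel
def cv16 : cv 16 = true := by decide +kernel
def cv17 : cv 17 = true := by decide +kernel
def cv18 : cv 18 = true := by decide +kernel
def cv19 : cv 19 = true := by decide +kernel
def cv20 : cv 20 = true := by decide +kernel
def cv21 : cv 21 = true := by decide +kernel
def cv22 : cv 22 = true := by decide +kernel
def cv23 : cv 23 = true := by decide +kernel
def cv24 : cv 24 = true := by decide +kernel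
def cv25 : cv 25 = true := by decide +kernel
def cv26 : cv 26 = true := by decide +kernel
def cv27 : cv 27 = true := by decide +kernel
def cv28 : cv 28 = true := by decide +kernel
def cv29 : cv 29 = true := by decide +kernel
def cv30 : cv 30 = true := by decide +kernel
def cv31 : cv 31 = true := by decide +kernel

theorem runStmt : RunStmt := run_of lstAll run_all ((all_iff 32 cv).2 fun v h => by
  interval_cases v
  exacts [cv0, cv1, cv2, cv3, cv4, cv5, cv6, cv7, cv8, cv9, cv10, cv11, cv12, cv13, cv14, cv15, cv16, cv17, cv18, cv19, cv20, cv21, cv22, cv23, cv24, cv25, cv26, cv27, cv28, cv29, cv30, cv31])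

end Pool.Agent.Lib.MP_ed43e6_ag.N
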