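import Pool.Agent.Lib.MP_ed43e6_ag.N.Defs

/-! The matrix form of the splitting at the origin, and base change of the equations. -/

namespace Pool.Agent.Lib.MP_ed43e6_ag.N

open MvPolynomial Module Matrix

universe u

namespace Split2

/-- The last column of the matrix of a polynomial. -/
theorem col {L : Type u} [Field L] {n : ℕ} (ρ : SS L →ₐ[L] Matrix (Ix n) (Ix n) L)
    (h : ∀ i a, ρ (X i) a (Sum.inr ()) = 0) (f : SS L) (a : Ix n) :
    ρ f a (Sum.inr ()) = coeff 0 f * (1 : Matrix (Ix n) (Ix n) L) a (Sum.inr ()) := by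
  induction f using MvPolynomial.induction_on generalizing a with
  | C c => rw [algHom_C, Algebra.algebraMap_eq_smul_one, coeff_zero_C]; rfl
  | add p q hp hq => rw [map_add, Matrix.add_apply, hp, hq, coeff_add, add_mul]
  | mul_X p i _ =>
    rw [map_mul, Matrix.mul_apply, ← constantCoeff_eq, map_mul, constantCoeff_X]
    simp [h]

end Split2

theorem splitStmt : OriginStmt.{u} → SplitStmt.{u} := by
  intro hO L _ n ρ v hc hcol hJ
  obtain ⟨I, b, hx⟩ := mem_tables_of_surj ρ v hc
  have h1 : ∀ i, ρ (X i) = LinearMap.toMatrix b b (act L (SS L ⧸ I) i) := fun i => by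
    ext a c
    exact congrFun hx (Sum.inl (i, a, c))
  have h2 : ρ = repOf b := algHom_ext h1
  have h3 : ∀ f ∈ I, ρ f = 0 := fun f hf => by
    have h4 : Algebra.lsmul L L (SS L ⧸ I) f = 0 := by
      refine LinearMap.ext fun x => ?_
      obtain ⟨g, rfl⟩ := Ideal.Quotient.mk_surjective x
      change f • Ideal.Quotient.mk I g = 0
      rw [smul_mk]
      exact Ideal.Quotient.eq_zero_iff_mem.2 (I.mul_mem_right g hf)
    rw [h2, repOf_apply, h4, map_zero]
  have h5 : I ≤ mm L := fun f hf => by
    have h6 := Split2.col ρ hcol f (Sum.inr ())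
    rw [h3 f hf, Matrix.one_apply_eq, mul_one, Matrix.zero_apply] at h6
    simpa [← h6] using sub_C_mem_mm f
  have h7 : finrank L (SS L ⧸ I) = n + 1 := by
    rw [finrank_eq_card_basis b]
    simp
  rcases hO L I (Module.Finite.of_basis b) h5 (fun J h8 h9 => hJ J h8 (h7 ▸ h9)) with ⟨M, hM⟩ | hS
  · exact Or.inl ⟨M, fun f hf => h3 f (hM hf)⟩
  · refine Or.inr ?_
    simp only [h1]
    exact hS.smM b

theorem downStmt : DownStmt.{u} := by
  intro K L _ _ _ ι _ _ M hM P hP
  let φ : GenRing K ι →ₐ[K] GenRing L ι := aeval X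
  have h1 : (fun i => (genM K ι i).map φ) = genM L ι := by
    funext i
    have e1 : (genG K ι).map φ = genG L ι := by ext a b : 2; simp [genG, φ]
    have e2 : (adjugate (genG K ι)).map φ = adjugate (genG L ι) := by
      rw [← e1]
      exact (φ : GenRing K ι →+* GenRing L ι).map_adjugate _
    have e3 : (fun a => φ (genL K ι i a)) = genL L ι i := by funext a; simp [genL, φ]
    rw [genM, Matrix.map_mul (f := φ), Matrix.map_mul (f := φ), e1, e2, diagonal_map (map_zero _),
      e3, genM]
  have h2 := smM_genM.map φ P hP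
  rw [h1, ← aeval_map_algebraMap L] at h2
  rw [← aeval_map_algebraMap L]
  exact hM _ h2

end Pool.Agent.Lib.MP_ed43e6_ag.N
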