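import Pool.Agent.Lib.MP_ed43e6_ag.N.Defs

/-! The inductive step: a dimension count excludes punctual components of the nested scheme. -/

namespace Pool.Agent.Lib.MP_ed43e6_ag.N

open MvPolynomial Module Matrix

universe u

theorem map_mem_mm {F L : Type u} [Field F] [Field L] (j : F →+* L) (M : ℕ) {f : SS F}
    (hf : f ∈ mm F ^ M) : MvPolynomial.map j f ∈ mm L ^ M := by
  have h : (mm F).map (MvPolynomial.map j) ≤ mm L := by
    rw [Ideal.map_le_iff_le_comap, Ideal.span_le]
    rintro _ ⟨i, rfl⟩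
    change MvPolynomial.map j (X i) ∈ mm L
    rw [map_X]
    exact Ideal.subset_span ⟨i, rfl⟩
  have h2 := Ideal.mem_map_of_mem (MvPolynomial.map j) hf
  rw [Ideal.map_pow] at h2
  exact Ideal.pow_right_mono h M h2

theorem step (hG : GenericStmt.{u}) (hS : SplitStmt.{u}) (hC : CycStmt.{u}) (hSo : SocleStmt.{u})
    (hD : DownStmt.{u}) (hR : ReduceStmt.{u}) (D n : ℕ) (hn : n < D) (hP : PunctStmt.{u} n)
    (IH : ∀ d < n + 1, SmAll.{u} D d) : SmAll.{u} D (n + 1) := by
  intro K _ _ hch
  refine hR K (n + 1) (fun J hJ hlt => IH _ hlt K hch J hJ rfl) fun I M hM hI => ?_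
  obtain ⟨b, hcol, hsm⟩ := hSo K n M I hM hI fun J hJ hJn => IH n (by omega) K hch J hJ hJn
  obtain ⟨B, _, _, _, ψ, N, w, p, hcomm, hcolN, hψN, hψw, -, hgen, hlow⟩ :=
    hG K n (fun i => repOf b (X i)) (b.repr 1) (fun i j => by
      rw [← map_mul, ← map_mul, mul_comm]) hcol hsm
  let F := FractionRing B
  let L := AlgebraicClosure F
  let φF : B →ₐ[K] F := IsScalarTower.toAlgHom K B F
  let jL : F →ₐ[K] L := IsScalarTower.toAlgHom K F L
  let φL : B →ₐ[K] L := jL.comp φF
  have hφF : Function.Injective φF := IsFractionRing.injective B F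
  have hφL : Function.Injective φL := (jL : F →+* L).injective.comp hφF
  have hψ : Function.Surjective ψ := fun x => ⟨algebraMap K B x, ψ.commutes x⟩
  have hrep : ∀ (E : Type u) [Field E] (φ : B →+* E),
      ∃ ρ : SS E →ₐ[E] Matrix (Ix n) (Ix n) E, ∀ i, ρ (X i) = (N i).map φ := fun E _ φ =>
    exists_rep _ fun i j => by rw [← Matrix.map_mul, ← Matrix.map_mul, hcomm]
  obtain ⟨ρF, hρF⟩ := hrep F (φF : B →+* F)
  obtain ⟨ρL, hρL⟩ := hrep L (φL : B →+* L)
  have hcyc : ∀ y, ∃ f, repOf b f *ᵥ (fun a => (ψ : B →+* K) (w a)) = y := fun y => by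
    obtain ⟨f, hf⟩ := Ideal.Quotient.mk_surjective (b.repr.symm (Finsupp.equivFunOnFinite.symm y))
    refine ⟨f, ?_⟩
    rw [show (fun a => (ψ : B →+* K) (w a)) = b.repr 1 from funext hψw, repOf_mulVec,
      show f • (1 : SS K ⧸ I) = Ideal.Quotient.mk I f from mul_one (Ideal.Quotient.mk I f), hf]
    simp
  have hcF := hC B K F (Ix n) ψ φF hψ hφF N w hcomm (repOf b) ρF (fun i => (hψN i).symm) hρF hcyc
  have hcL := hC B K L (Ix n) ψ φL hψ hφL N w hcomm (repOf b) ρL (fun i => (hψN i).symm) hρL hcyc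
  have hchE : ∀ (E : Type u) [Field E] [Algebra K E] (i : ℕ), 0 < i → i < D → (i : E) ≠ 0 :=
    fun E _ _ i h0 h1 h => hch i h0 h1 ((algebraMap K E).injective (by rw [map_natCast, h, map_zero]))
  rcases hS L n ρL _ hcL (fun i a => by rw [hρL, map_apply, hcolN, map_zero])
    (fun J hJ hlt => IH _ hlt L (hchE L) J hJ rfl) with ⟨M', hM'⟩ | hsmL
  · exfalso
    have hpF : Punct ρF (fun a => (φF : B →+* F) (w a)) M' := by
      refine ⟨fun f hf => ?_, hcF, fun i a => by rw [hρF, map_apply, hcolN, map_zero]⟩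
      have h1 := rep_map ρF ρL (jL : F →+* L) (fun i => by rw [hρF, hρL]; rfl) f
      rw [hM' _ (map_mem_mm _ _ hf)] at h1
      ext a c
      exact (jL : F →+* L).injective ((congrFun (congrFun h1 a) c).trans (map_zero _).symm)
    have hN : (fun i => ρF (X i)) = fun i => (N i).map (algebraMap B F) := funext hρF
    have hup := hP K F (fun i h0 h1 => hchE F i h0 (by omega)) ρF _
      (fun i => algebraMap B F (p i)) M' hpF (by rw [hN]; exact hgen)
    rw [hN] at hup
    have h3 := (add_le_add_left hlow (n : Cardinal)).trans hup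
    rw [← Nat.cast_add, Nat.cast_le] at h3
    change n * n + 3 * n + 4 + (stack fun i => (N i).map (algebraMap B F)).rank + n ≤ _ at h3
    omega
  · have h1 : SmM K fun i => (N i).map φL := by
      have := hD K L (Ix n) _ hsmL
      simp only [hρL] at this
      exact this
    have h2 := (SmM.of_map φL hφL h1).map ψ
    refine ⟨Ix n, inferInstance, inferInstance, b, ?_⟩
    simp only [hψN] at h2
    exact h2

theorem smAll_small (D d : ℕ) (hd : d ≤ 12) : SmAll.{u} D d :=
  fun _ _ _ _ I hI h => sm_quot d hd I hI h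

end Pool.Agent.Lib.MP_ed43e6_ag.N
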