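import Pool.Agent.Lib.MP_ed43e6_ag.N.Defs

/-! The core bound after a generic unipotent change of coordinates. -/

namespace Pool.Agent.Lib.MP_ed43e6_ag.N

open MvPolynomial Module Matrix Finset

universe u

namespace Unip

variable {Ω : Type u} [Field Ω] {n : ℕ}

theorem stable (ρ : SS Ω →ₐ[Ω] Matrix (Ix n) (Ix n) Ω) {W : Submodule Ω (Ix n → Ω)}
    (hW : ∀ i, ∀ w ∈ W, ρ (X i) *ᵥ w ∈ W) (f : SS Ω) : ∀ w ∈ W, ρ f *ᵥ w ∈ W := by
  induction f using MvPolynomial.induction_on with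
  | C c =>
    intro w hw
    rw [← algebraMap_eq, AlgHom.commutes, Algebra.algebraMap_eq_smul_one, smul_mulVec, one_mulVec]
    exact W.smul_mem c hw
  | add f g hf hg =>
    intro w hw
    rw [map_add, add_mulVec]
    exact W.add_mem (hf w hw) (hg w hw)
  | mul_X f i hf =>
    intro w hw
    rw [map_mul, ← mulVec_mulVec]
    exact hf _ (hW i w hw)

/-- The ideal attached to an invariant subspace. -/
def idl (ρ : SS Ω →ₐ[Ω] Matrix (Ix n) (Ix n) Ω) (v : Ix n → Ω) (W : Submodule Ω (Ix n → Ω))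
    (hW : ∀ i, ∀ w ∈ W, ρ (X i) *ᵥ w ∈ W) : Ideal (SS Ω) where
  carrier := {f | ρ f *ᵥ v ∈ W}
  add_mem' := by
    intro f g hf hg
    show ρ (f + g) *ᵥ v ∈ W
    rw [map_add, add_mulVec]
    exact W.add_mem hf hg
  zero_mem' := by
    show ρ 0 *ᵥ v ∈ W
    rw [map_zero, zero_mulVec]
    exact W.zero_mem
  smul_mem' := by
    intro c f hf
    show ρ (c * f) *ᵥ v ∈ W
    rw [map_mul, ← mulVec_mulVec]
    exact stable ρ hW c _ hf

/-- Vectors whose first block is a multiple of `s`. -/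
def lin (s : Fin n → Ω) : Submodule Ω (Ix n → Ω) where
  carrier := {w | ∃ μ : Ω, ∀ a, w (Sum.inl a) = μ * s a}
  add_mem' := by
    rintro w w' ⟨μ, h⟩ ⟨μ', h'⟩
    exact ⟨μ + μ', fun a => by rw [Pi.add_apply, h, h', add_mul]⟩
  zero_mem' := ⟨0, fun a => (zero_mul _).symm⟩
  smul_mem' := by
    rintro c w ⟨μ, h⟩
    exact ⟨c * μ, fun a => by rw [Pi.smul_apply, h, smul_eq_mul, mul_assoc]⟩

theorem mem_lin_zero (w : Ix n → Ω) : w ∈ lin (0 : Fin n → Ω) ↔ ∀ a, w (Sum.inl a) = 0 :=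
  ⟨fun ⟨μ, h⟩ a => (h a).trans (mul_zero μ), fun h => ⟨0, fun a => (h a).trans (zero_mul _).symm⟩⟩

/-- The matrix kills the last basis vector, and its first block kills `s`. -/
def Good (s : Fin n → Ω) (A : Matrix (Ix n) (Ix n) Ω) : Prop :=
  (∀ a, A a (Sum.inr ()) = 0) ∧ A.toBlocks₁₁ *ᵥ s = 0

theorem Good.add {s : Fin n → Ω} {A B : Matrix (Ix n) (Ix n) Ω} (hA : Good s A) (hB : Good s B)
    (c : Ω) : Good s (A + c • B) := by
  refine ⟨fun a => ?_, ?_⟩
  · rw [Matrix.add_apply, Matrix.smul_apply, hA.1, hB.1, smul_zero, add_zero]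
  · have e : (A + c • B).toBlocks₁₁ = A.toBlocks₁₁ + c • B.toBlocks₁₁ := rfl
    rw [e, add_mulVec, smul_mulVec, hA.2, hB.2, smul_zero, add_zero]

theorem Good.lin {s : Fin n → Ω} {A : Matrix (Ix n) (Ix n) Ω} (hA : Good s A) :
    ∀ w ∈ lin s, A *ᵥ w ∈ lin s := by
  rintro w ⟨μ, h⟩
  refine ⟨0, fun a => ?_⟩
  have h1 : ∑ b, A (Sum.inl a) (Sum.inl b) * s b = 0 := congrFun hA.2 a
  show ∑ b, A (Sum.inl a) b * w b = 0 * s a
  rw [Fintype.sum_sum_type, Fintype.sum_unique (ι := Unit), hA.1, zero_mul, add_zero, zero_mul]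
  calc _ = μ * ∑ b, A (Sum.inl a) (Sum.inl b) * s b := by
        rw [Finset.mul_sum]
        exact Finset.sum_congr rfl fun b _ => by rw [h, mul_left_comm]
    _ = 0 := by rw [h1, mul_zero]

section Der

variable {F : Type u} [Field F] [Algebra F Ω] (δ : Derivation F Ω Ω)

theorem der_mulVec {A : Matrix (Ix n) (Ix n) Ω} (hA : ∀ a b, δ (A a b) = 0) {w : Ix n → Ω}
    (hw : ∀ a, δ (w a) = 0) (a : Ix n) : δ ((A *ᵥ w) a) = 0 := by
  show δ (∑ b, A a b * w b) = 0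
  rw [map_sum]
  exact Finset.sum_eq_zero fun b _ => by rw [δ.leibniz, hA, hw, smul_zero, smul_zero, add_zero]

theorem der_mon {ρ : SS Ω →ₐ[Ω] Matrix (Ix n) (Ix n) Ω} (hρ : ∀ i a b, δ (ρ (X i) a b) = 0)
    (m : Fin 3 →₀ ℕ) : ∀ w : Ix n → Ω, (∀ a, δ (w a) = 0) →
      ∀ a, δ ((ρ (monomial m 1) *ᵥ w) a) = 0 := by
  induction m using Finsupp.induction_linear with
  | zero =>
    intro w hw
    rw [monomial_zero', C_1, map_one, one_mulVec]
    exact hw
  | add m m' h h' =>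
    intro w hw
    rw [← one_mul (1 : Ω), ← monomial_mul, map_mul, ← mulVec_mulVec]
    exact h _ (h' w hw)
  | single i k =>
    rw [← X_pow_eq_monomial]
    induction k with
    | zero =>
      intro w hw
      rw [pow_zero, map_one, one_mulVec]
      exact hw
    | succ k ih =>
      intro w hw
      rw [pow_succ, map_mul, ← mulVec_mulVec]
      exact ih _ (der_mulVec δ (hρ i) hw)

theorem expand (ρ : SS Ω →ₐ[Ω] Matrix (Ix n) (Ix n) Ω) (v : Ix n → Ω) (f : SS Ω)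
    {T : Finset (Fin 3 →₀ ℕ)} (hT : f.support ⊆ T) (a : Ix n) :
    (ρ f *ᵥ v) a = ∑ m ∈ T, coeff m f * (ρ (monomial m 1) *ᵥ v) a := by
  have e : f = ∑ m ∈ T, coeff m f • monomial m (1 : Ω) := by
    conv_lhs => rw [f.as_sum]
    rw [Finset.sum_subset hT fun m _ hm => by rw [notMem_support_iff.1 hm, monomial_zero]]
    exact Finset.sum_congr rfl fun m _ => by rw [smul_monomial, smul_eq_mul, mul_one]
  conv_lhs => rw [e]
  rw [map_sum, sum_mulVec, Finset.sum_apply]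
  exact Finset.sum_congr rfl fun m _ => by rw [map_smul, smul_mulVec, Pi.smul_apply, smul_eq_mul]

theorem coeffStable {ρ : SS Ω →ₐ[Ω] Matrix (Ix n) (Ix n) Ω} (hρ : ∀ i a b, δ (ρ (X i) a b) = 0)
    {v : Ix n → Ω} (hv : ∀ a, δ (v a) = 0) {W : Submodule Ω (Ix n → Ω)}
    (hW : ∀ i, ∀ w ∈ W, ρ (X i) *ᵥ w ∈ W) (hδ : ∀ w ∈ W, (fun a => δ (w a)) ∈ W) :
    CoeffStable (idl ρ v W hW) δ := by
  intro f hf g hg
  have hs : g.support ⊆ f.support := fun m hm => by
    rw [MvPolynomial.mem_support_iff] at hm ⊢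
    intro h
    rw [hg, h, map_zero] at hm
    exact hm rfl
  have e : ρ g *ᵥ v = fun a => δ ((ρ f *ᵥ v) a) := by
    funext a
    rw [expand ρ v g hs, expand ρ v f Subset.rfl, map_sum]
    refine Finset.sum_congr rfl fun m _ => ?_
    rw [δ.leibniz, der_mon δ hρ m v hv, smul_zero, zero_add, hg, smul_eq_mul, mul_comm]
  show ρ g *ᵥ v ∈ W
  rw [e]
  exact hδ _ hf

theorem der_lin {s : Fin n → Ω} (hs : ∀ a, δ (s a) = 0) :
    ∀ w ∈ lin s, (fun a => δ (w a)) ∈ lin s := by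
  rintro w ⟨μ, h⟩
  refine ⟨δ μ, fun a => ?_⟩
  show δ (w (Sum.inl a)) = _
  rw [h, δ.leibniz, hs, smul_zero, zero_add, smul_eq_mul, mul_comm]

end Der

variable (a b c : Ω)

theorem unip0 : unip a b c (X 0) = X 0 := aeval_X _ _

theorem unip1 : unip a b c (X 1) = X 1 + a • X 0 := by
  rw [← C_mul']
  exact aeval_X _ _

theorem unip2 : unip a b c (X 2) = X 2 + b • X 1 + c • X 0 := by
  rw [← C_mul', ← C_mul']
  exact aeval_X _ _

theorem X_mem (i : Fin 3) : (X i : SS Ω) ∈ mm Ω := Ideal.subset_span ⟨i, rfl⟩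

theorem smul_mem_mm (r : Ω) (i : Fin 3) : (r • X i : SS Ω) ∈ mm Ω := by
  rw [← C_mul']
  exact Ideal.mul_mem_left _ _ (X_mem i)

theorem unip_mm (M : ℕ) {f : SS Ω} (hf : f ∈ mm Ω ^ M) : unip a b c f ∈ mm Ω ^ M := by
  have h : (mm Ω).map (unip a b c) ≤ mm Ω := by
    rw [Ideal.map_le_iff_le_comap]
    refine Ideal.span_le.2 ?_
    rintro _ ⟨i, rfl⟩
    show unip a b c (X i) ∈ mm Ω
    fin_cases i
    · exact (unip0 a b c).symm ▸ X_mem 0
    · exact (unip1 a b c).symm ▸ add_mem (X_mem 1) (smul_mem_mm a 0)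
    · exact (unip2 a b c).symm ▸ add_mem (add_mem (X_mem 2) (smul_mem_mm b 1)) (smul_mem_mm c 0)
  have h1 := Ideal.mem_map_of_mem (unip a b c) hf
  rw [Ideal.map_pow] at h1
  exact Ideal.pow_right_mono h M h1

theorem unip_surj : Function.Surjective (unip a b c) := by
  have h0 : X 0 ∈ (unip a b c).range := ⟨X 0, unip0 a b c⟩
  have h1 : X 1 ∈ (unip a b c).range := by
    have h := sub_mem (show X 1 + a • X 0 ∈ (unip a b c).range from ⟨X 1, unip1 a b c⟩)
      (Subalgebra.smul_mem _ h0 a)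
    rwa [add_sub_cancel_right] at h
  have h2 : X 2 ∈ (unip a b c).range := by
    have h := sub_mem (sub_mem
      (show X 2 + b • X 1 + c • X 0 ∈ (unip a b c).range from ⟨X 2, unip2 a b c⟩)
      (Subalgebra.smul_mem _ h0 c)) (Subalgebra.smul_mem _ h1 b)
    rwa [add_sub_cancel_right, add_sub_cancel_right] at h
  intro f
  show f ∈ (unip a b c).range
  induction f using MvPolynomial.induction_on with
  | C r => exact Subalgebra.algebraMap_mem _ r
  | add f g hf hg => exact add_mem hf hg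
  | mul_X f i hf =>
    refine mul_mem hf ?_
    fin_cases i
    exacts [h0, h1, h2]

theorem good_unip {ρ : SS Ω →ₐ[Ω] Matrix (Ix n) (Ix n) Ω} {s : Fin n → Ω}
    (h : ∀ i, Good s (ρ (X i))) (i : Fin 3) : Good s (ρ.comp (unip a b c) (X i)) := by
  fin_cases i
  · show Good s (ρ (unip a b c (X 0)))
    rw [unip0]
    exact h 0
  · show Good s (ρ (unip a b c (X 1)))
    rw [unip1, map_add, map_smul]
    exact (h 1).add (h 0) a
  · show Good s (ρ (unip a b c (X 2)))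
    rw [unip2, map_add, map_add, map_smul, map_smul]
    exact ((h 2).add (h 1) b).add (h 0) c

theorem invert {K : Type u} [Field K] [Algebra K Ω] {E : IntermediateField K Ω}
    {ρ : SS Ω →ₐ[Ω] Matrix (Ix n) (Ix n) Ω} (ha : a ∈ E) (hb : b ∈ E) (hc : c ∈ E)
    (h : ∀ i x y, ρ.comp (unip a b c) (X i) x y ∈ E) (i : Fin 3) (x y : Ix n) :
    ρ (X i) x y ∈ E := by
  have h0 : ρ (X 0) x y ∈ E := by
    have h' : ρ (unip a b c (X 0)) x y ∈ E := h 0 x y
    rwa [unip0] at h'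
  have h1 : ρ (X 1) x y ∈ E := by
    have h' : ρ (unip a b c (X 1)) x y ∈ E := h 1 x y
    rw [unip1, map_add, map_smul, Matrix.add_apply, Matrix.smul_apply, smul_eq_mul] at h'
    have h'' := sub_mem h' (mul_mem ha h0)
    rwa [add_sub_cancel_right] at h''
  have h2 : ρ (X 2) x y ∈ E := by
    have h' : ρ (unip a b c (X 2)) x y ∈ E := h 2 x y
    rw [unip2, map_add, map_add, map_smul, map_smul, Matrix.add_apply, Matrix.add_apply,
      Matrix.smul_apply, Matrix.smul_apply, smul_eq_mul, smul_eq_mul] at h'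
    have h'' := sub_mem (sub_mem h' (mul_mem hc h0)) (mul_mem hb h1)
    rwa [add_sub_cancel_right, add_sub_cancel_right] at h''
  fin_cases i
  exacts [h0, h1, h2]

/-- The statement over an extension field with two suitable derivations. -/
theorem main (hB : BorelStmt.{u}) (hC : CoreStmt.{u} n) (K : Type u) [Field K] [Algebra K Ω]
    {F : Type u} [Field F] [Algebra F Ω] (δ₁ δ₂ : Derivation F Ω Ω) (h1 : δ₁ a = 1) (h2 : δ₁ b = 0)
    (h3 : δ₁ c = 0) (h4 : δ₂ a = 0) (h5 : δ₂ b = 1) (h6 : δ₂ c = a)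
    (hch : ∀ i : ℕ, 0 < i → i < n + 1 → (i : Ω) ≠ 0)
    {ρ : SS Ω →ₐ[Ω] Matrix (Ix n) (Ix n) Ω} {v : Ix n → Ω} {s : Fin n → Ω}
    (hP : Punct ρ v (n + 1)) (hs : s ≠ 0) (hs' : ∀ i, (ρ (X i)).toBlocks₁₁ *ᵥ s = 0)
    (c1 : ∀ (δ : Derivation F Ω Ω) i x y, δ (ρ (X i) x y) = 0)
    (c2 : ∀ (δ : Derivation F Ω Ω) x, δ (v x) = 0) (c3 : ∀ (δ : Derivation F Ω Ω) x, δ (s x) = 0) :
    ∃ S : Finset Ω, S.card ≤ n * n + 4 * n ∧
      (∀ i x y, ρ.comp (unip a b c) (X i) x y ∈ IntermediateField.adjoin K (S : Set Ω)) ∧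
      (∀ x, v x ∈ IntermediateField.adjoin K (S : Set Ω)) ∧
      ∀ x, s x ∈ IntermediateField.adjoin K (S : Set Ω) := by
  have g2 : ∀ i, Good s (ρ (X i)) := fun i => ⟨hP.col i, hs' i⟩
  have g1 : ∀ i, Good 0 (ρ (X i)) := fun i => ⟨hP.col i, mulVec_zero _⟩
  have w0 : ∀ i, ∀ w ∈ (⊥ : Submodule Ω (Ix n → Ω)),
      ρ (X i) *ᵥ w ∈ (⊥ : Submodule Ω (Ix n → Ω)) := fun i w hw => by
    rw [(Submodule.mem_bot Ω).1 hw, mulVec_zero]
    exact Submodule.zero_mem _
  have d0 : ∀ δ : Derivation F Ω Ω, ∀ w ∈ (⊥ : Submodule Ω (Ix n → Ω)),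
      (fun x => δ (w x)) ∈ (⊥ : Submodule Ω (Ix n → Ω)) := fun δ w hw => by
    rw [(Submodule.mem_bot Ω).1 hw]
    exact (Submodule.mem_bot Ω).2 (funext fun x => map_zero δ)
  have key : ∀ (W : Submodule Ω (Ix n → Ω)) (hW : ∀ i, ∀ w ∈ W, ρ (X i) *ᵥ w ∈ W),
      (∀ δ : Derivation F Ω Ω, ∀ w ∈ W, (fun x => δ (w x)) ∈ W) →
      IsBorel (ini ((idl ρ v W hW).comap (unip a b c))) := fun W hW hδ =>
    hB F Ω δ₁ δ₂ a b c h1 h2 h3 h4 h5 h6 _ (n + 1) (fun f hf => by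
        show ρ f *ᵥ v ∈ W
        rw [hP.nil f hf, zero_mulVec]
        exact W.zero_mem) hch (coeffStable δ₁ (c1 δ₁) (c2 δ₁) hW (hδ δ₁))
      (coeffStable δ₂ (c1 δ₂) (c2 δ₂) hW (hδ δ₂))
  have hP' : Punct (ρ.comp (unip a b c)) v (n + 1) :=
    ⟨fun f hf => hP.nil _ (unip_mm a b c _ hf), fun w => by
      obtain ⟨f, hf⟩ := hP.cyc w
      obtain ⟨g, rfl⟩ := unip_surj a b c f
      exact ⟨g, hf⟩, fun i => (good_unip a b c g2 i).1⟩
  refine hC K Ω (ρ.comp (unip a b c)) v s hP' hs (fun i => (good_unip a b c g2 i).2)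
    ![(idl ρ v ⊥ w0).comap (unip a b c), (idl ρ v (lin 0) fun i => (g1 i).lin).comap (unip a b c),
      (idl ρ v (lin s) fun i => (g2 i).lin).comap (unip a b c)]
    (fun f => Submodule.mem_bot Ω) (fun f => mem_lin_zero _) (fun f => Iff.rfl) fun j => ?_
  fin_cases j
  · exact key _ w0 d0
  · exact key _ _ fun δ => der_lin δ fun _ => map_zero δ
  · exact key _ _ fun δ => der_lin δ (c3 δ)

end Unip

open Unip in
theorem unipStmt : BorelStmt.{u} → DerStmt.{u} → BCStmt.{u} → ∀ n, CoreStmt.{u} n →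
    UnipStmt.{u} n := by
  classical
  intro hB hD hBC n hC K F _ _ _ hch ρ v s hP hs hs'
  obtain ⟨ρ', hρ, hP'⟩ := hBC.1 F (RF F 3) n (n + 1) ρ v hP
  obtain ⟨δ₁, h1⟩ := hD F ![1, 0, 0]
  obtain ⟨δ₂, h2⟩ := hD F ![0, 1, algebraMap (MvPolynomial (Fin 3) F) (RF F 3) (X 0)]
  have inj := (algebraMap F (RF F 3)).injective
  obtain ⟨S, s1, s2, s3, s4⟩ := Unip.main (algebraMap (MvPolynomial (Fin 3) F) (RF F 3) (X 0))
    (algebraMap (MvPolynomial (Fin 3) F) (RF F 3) (X 1))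
    (algebraMap (MvPolynomial (Fin 3) F) (RF F 3) (X 2)) hB hC K δ₁ δ₂ (h1 0) (h1 1) (h1 2) (h2 0)
    (h2 1) (h2 2) (s := fun x => algebraMap F (RF F 3) (s x))
    (fun i hi hi' h => hch i hi (by omega) (inj (by rw [map_natCast, h, map_zero]))) hP'
    (fun h => hs (funext fun x => inj ((congrFun h x).trans (map_zero _).symm)))
    (fun i => funext fun x => by
      rw [hρ]
      exact (RingHom.map_mulVec (algebraMap F (RF F 3)) (ρ (X i)).toBlocks₁₁ s x).symm.trans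
        (by rw [hs' i, Pi.zero_apply, map_zero, Pi.zero_apply]))
    (fun δ i x y => by
      rw [hρ]
      exact δ.map_algebraMap _)
    (fun δ x => δ.map_algebraMap _) fun δ x => δ.map_algebraMap _
  let T : Finset (RF F 3) :=
    S ∪ Finset.univ.image fun i : Fin 3 => algebraMap (MvPolynomial (Fin 3) F) (RF F 3) (X i)
  have hST : IntermediateField.adjoin K (S : Set (RF F 3)) ≤
      IntermediateField.adjoin K (T : Set (RF F 3)) :=
    IntermediateField.adjoin.mono _ _ _ (Finset.coe_subset.2 Finset.subset_union_left)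
  have hX : ∀ i : Fin 3, algebraMap (MvPolynomial (Fin 3) F) (RF F 3) (X i) ∈
      IntermediateField.adjoin K (T : Set (RF F 3)) := fun i =>
    IntermediateField.subset_adjoin _ _ (Finset.mem_coe.2
      (Finset.mem_union_right _ (Finset.mem_image_of_mem _ (Finset.mem_univ i))))
  refine ⟨T, (Finset.card_union_le _ _).trans (add_le_add s1 (Finset.card_image_le.trans
    (by simp))), fun i x y => ?_, fun x => hST (s3 x), fun x => hST (s4 x), hX⟩
  have h := invert _ _ _ (hX 0) (hX 1) (hX 2) (fun i x y => hST (s2 i x y)) i x y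
  rwa [hρ] at h

end Pool.Agent.Lib.MP_ed43e6_ag.N
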