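import Pool.Agent.Lib.MP_ed43e6_ag.N.BC
import Pool.Agent.Lib.MP_ed43e6_ag.N.Base
import Pool.Agent.Lib.MP_ed43e6_ag.N.Borel
import Pool.Agent.Lib.MP_ed43e6_ag.N.Chain
import Pool.Agent.Lib.MP_ed43e6_ag.N.ChkS
import Pool.Agent.Lib.MP_ed43e6_ag.N.Comb
import Pool.Agent.Lib.MP_ed43e6_ag.N.Core
import Pool.Agent.Lib.MP_ed43e6_ag.N.Cyc
import Pool.Agent.Lib.MP_ed43e6_ag.N.Der
import Pool.Agent.Lib.MP_ed43e6_ag.N.Gen2
import Pool.Agent.Lib.MP_ed43e6_ag.N.Generic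
import Pool.Agent.Lib.MP_ed43e6_ag.N.Go
import Pool.Agent.Lib.MP_ed43e6_ag.N.Krull
import Pool.Agent.Lib.MP_ed43e6_ag.N.Lane
import Pool.Agent.Lib.MP_ed43e6_ag.N.NF
import Pool.Agent.Lib.MP_ed43e6_ag.N.Origin
import Pool.Agent.Lib.MP_ed43e6_ag.N.Punct
import Pool.Agent.Lib.MP_ed43e6_ag.N.Rat
import Pool.Agent.Lib.MP_ed43e6_ag.N.RunAll
import Pool.Agent.Lib.MP_ed43e6_ag.N.Split2
import Pool.Agent.Lib.MP_ed43e6_ag.N.Step
import Pool.Agent.Lib.MP_ed43e6_ag.N.Thr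
import Pool.Agent.Lib.MP_ed43e6_ag.N.Unip

/-! Every ideal of colength at most thirty two in three variables is smoothable. -/

namespace Pool.Agent.Lib.MP_ed43e6_ag.N

open MvPolynomial

universe u

theorem checkStmt : CheckStmt := fun h0 h1 h2 p0 q0 a1 b1 e0 e1 b0 b1' b2 l u => by
  obtain ⟨hg, hc⟩ := goStmt laneStmt runStmt h1 b1' (by omega) u
  exact chkStmt laneStmt (thrStmt laneStmt) h0 h1 h2 p0 q0 a1 b1 e0 e1 b0 b1' b2 l u hg hc

theorem punct_of_chain (n : ℕ) (h0 : 0 < n) (h : ChainStmt.{u} n) : PunctStmt.{u} n :=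
  punctStmt ratStmt trStmt bcStmt n h0
    (unipStmt borelStmt derStmt bcStmt n (coreStmt ratStmt n h))

theorem step_of_punct (D n : ℕ) (hn : n < D) (hP : PunctStmt.{u} n)
    (IH : ∀ d < n + 1, SmAll.{u} D d) : SmAll.{u} D (n + 1) :=
  step (genericStmt krullStmt baseStmt) (splitStmt originStmt) cycStmt socleStmt downStmt
    reduceStmt D n hn hP IH

theorem smAll (D d : ℕ) (hD : d ≤ D) (hd : d ≤ 32) : SmAll.{u} D d := by
  induction d using Nat.strong_induction_on with | _ d ih => ?_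
  by_cases h12 : d ≤ 12
  · exact smAll_small D d h12
  obtain ⟨n, rfl⟩ : ∃ n, d = n + 1 := ⟨d - 1, by omega⟩
  exact step_of_punct D n (by omega) (punct_of_chain n (by omega)
    (chainStmt nfStmt checkStmt combStmt genStmt n (by omega) (by omega)))
    fun e he => ih e he (by omega) (by omega)

theorem cast_ne_zero {K : Type u} [Field K] {d : ℕ} (hk : ringChar K = 0 ∨ d ≤ ringChar K)
    (i : ℕ) (h0 : 0 < i) (h1 : i < d) : (i : K) ≠ 0 := fun h => by
  have h2 := (ringChar.spec K i).1 h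
  rcases hk with hk | hk
  · rw [hk, zero_dvd_iff] at h2
    omega
  · have := Nat.le_of_dvd h0 h2
    omega

theorem tables_prime32 (K : Type u) [Field K] [IsAlgClosed K] (d : ℕ) (hd : d ≤ 32)
    (hk : ringChar K = 0 ∨ d ≤ ringChar K) : (vanishingIdeal K (tables K (Fin d))).IsPrime :=
  primeStmt K (Fin d) fun I hI h =>
    smAll d d le_rfl hd K (cast_ne_zero hk) I hI (h.trans (Fintype.card_fin d))

end Pool.Agent.Lib.MP_ed43e6_ag.N
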