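import Pool.Agent.Lib.MP_ed43e6_ag.N.Defs

/-! Base change of punctual cyclic representations, the nilpotency index and socle vectors. -/

namespace Pool.Agent.Lib.MP_ed43e6_ag.N

open MvPolynomial Module Matrix

universe u

namespace BC

variable {F : Type u} [Field F] {n M : ℕ} {ρ : SS F →ₐ[F] Matrix (Ix n) (Ix n) F} {v : Ix n → F}

theorem base {Ω : Type u} [Field Ω] [Algebra F Ω] (h : Punct ρ v M) :
    ∃ ρ' : SS Ω →ₐ[Ω] Matrix (Ix n) (Ix n) Ω, (∀ i, ρ' (X i) = (ρ (X i)).map (algebraMap F Ω)) ∧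
      Punct ρ' (fun a => algebraMap F Ω (v a)) M := by
  obtain ⟨ρ', hρ⟩ := exists_rep (fun i => (ρ (X i)).map (algebraMap F Ω)) fun i j => by
    rw [← Matrix.map_mul, ← Matrix.map_mul, ← map_mul, ← map_mul, mul_comm]
  have hm := rep_map ρ ρ' (algebraMap F Ω) fun i => (hρ i).symm
  refine ⟨ρ', hρ, fun f hf => ?_, fun w => ?_, fun i a => by simp [hρ, h.col]⟩
  · have e : mm Ω = (mm F).map (MvPolynomial.map (algebraMap F Ω)) := by
      have e : ⇑(MvPolynomial.map (algebraMap F Ω)) ∘ (X : Fin 3 → SS F) = X :=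
        funext fun i => map_X _ i
      rw [Ideal.map_span, ← Set.range_comp, e]
    have : mm Ω ^ M ≤ RingHom.ker ρ' := by
      rw [e, ← Ideal.map_pow, Ideal.map_le_iff_le_comap]
      intro g hg
      rw [Ideal.mem_comap, RingHom.mem_ker, ← hm, h.nil g hg]
      simp
    exact this hf
  · choose f hf using fun j => h.cyc (Pi.single j 1)
    refine ⟨∑ j, w j • MvPolynomial.map (algebraMap F Ω) (f j), ?_⟩
    have e : ∀ j, ρ' (MvPolynomial.map (algebraMap F Ω) (f j)) *ᵥ
        (fun a => algebraMap F Ω (v a)) = Pi.single j 1 := fun j => by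
      ext a
      rw [← hm]
      refine ((algebraMap F Ω).map_mulVec (ρ (f j)) v a).symm.trans ?_
      rw [hf]
      by_cases ha : a = j <;> simp [ha]
    simp only [map_sum, map_smul, Matrix.sum_mulVec, Matrix.smul_mulVec, e]
    exact (pi_eq_sum_univ' w).symm

theorem eq_zero (h : Punct ρ v M) {f : SS F} (hf : ρ f *ᵥ v = 0) : ρ f = 0 := by
  refine Matrix.ext_iff_mulVec.2 fun w => ?_
  obtain ⟨g, rfl⟩ := h.cyc w
  rw [mulVec_mulVec, ← map_mul, mul_comm, map_mul, ← mulVec_mulVec, hf, mulVec_zero, zero_mulVec]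

theorem sharp (h : Punct ρ v M) : Punct ρ v (n + 1) := by
  refine ⟨?_, h.cyc, h.col⟩
  have hI : mm F ^ M ≤ RingHom.ker ρ := h.nil
  have := finite_quot hI
  let L : Matrix (Ix n) (Ix n) F →ₗ[F] (Ix n → F) :=
    { toFun := fun A => A *ᵥ v
      map_add' := fun A B => Matrix.add_mulVec A B v
      map_smul' := fun c A => Matrix.smul_mulVec c A v }
  have h1 : finrank F (SS F ⧸ RingHom.ker ρ) ≤ n + 1 := by
    have := LinearMap.finrank_le_finrank_of_injective
      (f := L ∘ₗ (Ideal.kerLiftAlg ρ).toLinearMap) (by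
        rw [injective_iff_map_eq_zero]
        intro x hx
        obtain ⟨f, rfl⟩ := Ideal.Quotient.mk_surjective x
        exact Ideal.Quotient.eq_zero_iff_mem.2 (eq_zero h hx))
    simpa using this
  obtain ⟨j, hj, h2⟩ := exists_stab (RingHom.ker ρ) (n + 2)
    (((finrank_quot_le le_sup_left).trans h1).trans_lt (Nat.lt_succ_self _))
  exact (Ideal.pow_le_pow_right (Nat.le_of_lt_succ hj)).trans
    ((stab h2 M).trans (sup_le le_rfl hI))

theorem socle (hn : 0 < n) (h : Punct ρ v M) :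
    ∃ s : Fin n → F, s ≠ 0 ∧ ∀ i, (ρ (X i)).toBlocks₁₁ *ᵥ s = 0 := by
  by_contra hc
  have key : ∀ k, ∀ f ∈ mm F ^ (M - k), ∀ a, (ρ f *ᵥ v) (Sum.inl a) = 0 := by
    intro k
    induction k with
    | zero => intro f hf a; simp [h.nil f hf]
    | succ k ih =>
      intro f hf
      by_contra hf0
      refine hc ⟨fun a => (ρ f *ᵥ v) (Sum.inl a), fun e => hf0 (congrFun e), fun i => ?_⟩
      ext a
      have h1 : X i * f ∈ mm F ^ (M - k) :=
        Ideal.pow_le_pow_right (n := M - (k + 1) + 1) (by omega) (by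
          rw [pow_succ']
          exact Ideal.mul_mem_mul (Ideal.subset_span (Set.mem_range_self i)) hf)
      have h2 := ih _ h1 a
      rw [map_mul, ← mulVec_mulVec, mulVec, dotProduct, Fintype.sum_sum_type] at h2
      simpa [h.col, mulVec, dotProduct, toBlocks₁₁] using h2
  obtain ⟨f, hf⟩ := h.cyc fun _ => 1
  have := key M f (by simp) ⟨0, hn⟩
  simp [hf] at this

end BC

theorem bcStmt : BCStmt.{u} :=
  ⟨fun _ _ _ _ _ _ _ _ _ h => BC.base h, fun _ _ _ _ _ _ h => BC.sharp h,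
    fun _ _ _ _ _ _ hn h => BC.socle hn h⟩

end Pool.Agent.Lib.MP_ed43e6_ag.N
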