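import Pool.Agent.Lib.MP_ed43e6_ag.N.Defs
import Pool.Agent.Lib.MP_5a2675_co.Check

/-! The kernel checker: packed lanes and a depth first enumeration of Borel staircases. -/

namespace Pool.Agent.Lib.MP_ed43e6_ag.N

open Pool.Agent.Lib.MP_5a2675_co (pk)

/-- Evaluate `n` before using it. -/
def frc {α : Type} (n : ℕ) (f : ℕ → α) : α := Nat.rec (f 0) (fun m _ => f (Nat.succ m)) n

/-- Lanewise truncated subtraction; `g` has the top bit of every lane, `k + 1` is the width. -/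
def tsub (g k x y : ℕ) : ℕ :=
  (fun d => (fun m => Nat.land d (Nat.sub m (Nat.shiftRight m k))) (Nat.land d g))
    (Nat.sub (Nat.add x g) y)

def vmax (g k x y : ℕ) : ℕ := Nat.add x (tsub g k y x)
def vmin (g k x y : ℕ) : ℕ := Nat.sub x (tsub g k x y)

/-- Big vectors: 1280 lanes of 18 bits, lane `320 a + 64 p + 8 q + b`. -/
def big (f : ℕ → ℕ → ℕ → ℕ → ℕ) : ℕ :=
  pk 18 1280 fun i => f (i / 64 % 5) (i / 8 % 8) (i / 320) (i % 8)

/-- Small vectors: 40 lanes of 24 bits, lane `8 p + q`. -/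
def sml (f : ℕ → ℕ → ℕ) : ℕ := pk 24 40 fun i => f (i / 8) (i % 8)

def bG : ℕ := big fun _ _ _ _ => 131072
def b1 : ℕ := big fun _ _ _ _ => 1
def b40 : ℕ := big fun _ _ _ _ => 40
def bX : ℕ := big fun p _ _ _ => if p = 0 then 0 else 262143
def bY : ℕ := big fun _ q _ _ => if q = 0 then 0 else 262143
def bL : ℕ := big fun _ q _ b => if q < 7 ∧ b < 7 then 262143 else 0
def bPos : ℕ := big posb
def bA : ℕ := big fun _ _ a b => if a = 0 ∧ b = 0 then 1 else 0
def bQ : ℕ := big fun p q _ _ => if p = 0 ∧ q = 0 then 1 else 0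
def sG : ℕ := sml fun _ _ => 8388608
def s1 : ℕ := sml fun _ _ => 1
def sX : ℕ := sml fun p _ => if p = 0 then 64 else 0
def sY : ℕ := sml fun _ q => if q = 0 then 64 else 0
def sK : ℕ := sml fun p q => key p q 0

def uA (a b : ℕ) : ℕ := Nat.shiftLeft bA (Nat.mul 18 (Nat.add (Nat.mul 320 a) b))
def uQ (p q : ℕ) : ℕ := Nat.shiftLeft bQ (Nat.mul 18 (Nat.add (Nat.mul 64 p) (Nat.mul 8 q)))
def uS (p q : ℕ) : ℕ := Nat.shiftLeft 1 (Nat.mul 24 (Nat.add (Nat.mul 8 p) q))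
def get (s p q : ℕ) : ℕ :=
  Nat.land (Nat.shiftRight s (Nat.mul 24 (Nat.add (Nat.mul 8 p) q))) 16777215

/-- The packed thresholds. -/
def vthr (x y : ℕ) : ℕ :=
  (fun c => (fun bs =>
      vmax bG 17 (vmax bG 17 bs (Nat.land (Nat.sub c (Nat.shiftLeft y 144)) bY))
        (vmin bG 17 (Nat.land (Nat.sub (Nat.add b40 (Nat.shiftRight x 18)) y) bL)
          (Nat.shiftRight bs 162)))
    (vmax bG 17 (Nat.sub b40 y) (Nat.land (Nat.sub c (Nat.shiftLeft y 1152)) bX)))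
  (Nat.add b40 x)

def vcnt (c t : ℕ) : ℕ := Nat.mod (tsub bG 17 c t) 262143
def ssum (x : ℕ) : ℕ := Nat.mod x 16777215

/-- Indicator of the generators of the complement. -/
def sgen (s : ℕ) : ℕ :=
  vmin sG 23 s1 (vmin sG 23
    (tsub sG 23 (Nat.add sX (Nat.mod (Nat.shiftLeft s 192) (Nat.pow 2 960))) s)
    (tsub sG 23 (Nat.add sY (Nat.mod (Nat.shiftLeft s 24) (Nat.pow 2 960))) s))

def allLt (n : ℕ) (f : ℕ → Bool) : Bool := Nat.rec true (fun i r => and (f i) r) n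

def canAdd (s p q : ℕ) : Bool :=
  and (or (Nat.beq p 0) (Nat.ble (Nat.succ (get s p q)) (get s (Nat.pred p) (Nat.succ q))))
    (or (Nat.beq q 0) (Nat.ble (Nat.add (get s p q) 2) (get s p (Nat.pred q))))

def canDel (s a b : ℕ) : Bool :=
  and (Nat.ble 1 (get s a b))
    (and (or (Nat.beq b 0) (Nat.ble (Nat.succ (get s (Nat.succ a) (Nat.pred b))) (get s a b)))
      (or (Nat.beq (get s a (Nat.succ b)) 0)
        (Nat.ble (Nat.add (get s a (Nat.succ b)) 2) (get s a b))))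

def chk3 (s x y c k top t0 m : ℕ) : Bool :=
  allLt 4 fun a => allLt 7 fun b => or (not (canDel s a b))
    (Nat.ble (Nat.add (ssum (vmin sG 23 top (tsub sG 23 k (Nat.mul s1 (get k a b)))))
      (vcnt c (vmax bG 17 t0 (vmin bG 17 (vthr (Nat.sub x (uA a b)) (Nat.sub y (uQ a b)))
        (Nat.mul (vmin bG 17 (Nat.sub x (uA a b)) b1) 127))))) m)

def chk2b (s x y c k top t0 nb nc m : ℕ) : Bool :=
  or (Nat.ble (Nat.add (Nat.add (vcnt c t0) nb) nc) m)
    (and (Nat.ble nb m) (chk3 s x y c k top t0 (Nat.sub m nb)))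

def chk2 (s x y c k top gen t1 n1 nc m : ℕ) : Bool :=
  allLt 4 fun p => allLt 7 fun q => or (not (canAdd s p q))
    (frc (ssum (vmin sG 23 gen (tsub sG 23 (Nat.mul s1 (get k p q)) k))) fun nb =>
      or (Nat.ble (Nat.add (Nat.add n1 nb) nc) m)
        (chk2b s x y c k top
          (vmax bG 17 t1 (vthr (Nat.add x (uA p q)) (Nat.add y (uQ p q)))) nb nc m))

def chk1 (s x y c top gen t1 m : ℕ) : Bool :=
  frc (vcnt c t1) fun n1 => frc (ssum top) fun nc =>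
    or (Nat.ble (Nat.add (Nat.add n1 (ssum gen)) nc) m)
      (chk2 s x y c (Nat.add sK (Nat.mul s 16513)) top gen t1 n1 nc m)

def chk (s x y n : ℕ) : Bool :=
  and (and (Nat.beq (get s 3 1) 0) (Nat.ble (get s 0 6) 1))
    (or (Nat.ble n 11)
      (chk1 s x y (Nat.sub (Nat.add b40 x) y) (vmin sG 23 s s1) (sgen s)
        (vmax bG 17 bPos (vthr x y)) (Nat.sub (Nat.mul 3 n) 2)))

def mn (a b : ℕ) : ℕ := Nat.sub a (Nat.sub a b)

/-- Put height `v` on the empty column `(a, b)` and continue. -/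
def put (r : ℕ → ℕ → ℕ → ℕ → ℕ → ℕ → Bool) (a b s x y n v : ℕ) : Bool :=
  frc (Nat.add n v) fun n' => r a (Nat.succ b) (Nat.add s (Nat.mul v (uS a b)))
    (Nat.add x (Nat.mul v (uA a b))) (Nat.add y (Nat.mul v (uQ a b))) n'

/-- The columns before `(a, b)` in row major order are filled, `b ≥ 1`. -/
def go (fuel : ℕ) : ℕ → ℕ → ℕ → ℕ → ℕ → ℕ → Bool :=
  Nat.rec (fun _ _ _ _ _ _ => false) (fun _ r a b s x y n =>
    and (chk s x y n) (and
      (or (Nat.ble 7 b) (allLt (mn (mn (Nat.sub 31 n) (Nat.pred (get s a (Nat.pred b))))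
          (cond (Nat.beq a 0) 31 (get s (Nat.pred a) (Nat.succ b))))
        fun v => put r a b s x y n (Nat.succ v)))
      (or (Nat.ble 3 a) (allLt (mn (Nat.sub 31 n) (get s a 1))
        fun v => put r (Nat.succ a) 0 s x y n (Nat.succ v))))) fuel

/-- Start with heights `v0`, `v1` on the first two columns. -/
def run (v0 v1 : ℕ) : Bool :=
  put (fun a b s x y n => put (go 30) a b s x y n v1) 0 0 0 0 0 0 v0

def xP (h : ℕ → ℕ → ℕ) : ℕ := big fun _ _ a b => h a b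
def xQ (h : ℕ → ℕ → ℕ) : ℕ := big fun p q _ _ => h p q

open Finset in
/-- Lanewise meaning of the packed operations. -/
structure LaneStmt : Prop where
  big_add : ∀ f g, big f + big g = big fun p q a b => f p q a b + g p q a b
  big_mul : ∀ f c, big f * c = big fun p q a b => f p q a b * c
  big_congr : ∀ f g, (∀ p < 5, ∀ q < 8, ∀ a < 4, ∀ b < 8, f p q a b = g p q a b) → big f = big g
  sml_add : ∀ f g, sml f + sml g = sml fun p q => f p q + g p q
  sml_mul : ∀ f c, sml f * c = sml fun p q => f p q * c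
  sml_congr : ∀ f g, (∀ p < 5, ∀ q < 8, f p q = g p q) → sml f = sml g
  big_tsub : ∀ f g, (∀ p < 5, ∀ q < 8, ∀ a < 4, ∀ b < 8, f p q a b < 131072 ∧ g p q a b < 131072) →
    tsub bG 17 (big f) (big g) = big fun p q a b => f p q a b - g p q a b
  big_max : ∀ f g, (∀ p < 5, ∀ q < 8, ∀ a < 4, ∀ b < 8, f p q a b < 131072 ∧ g p q a b < 131072) →
    vmax bG 17 (big f) (big g) = big fun p q a b => max (f p q a b) (g p q a b)
  big_min : ∀ f g, (∀ p < 5, ∀ q < 8, ∀ a < 4, ∀ b < 8, f p q a b < 131072 ∧ g p q a b < 131072) →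
    vmin bG 17 (big f) (big g) = big fun p q a b => min (f p q a b) (g p q a b)
  sml_tsub : ∀ f g, (∀ p < 5, ∀ q < 8, f p q < 8388608 ∧ g p q < 8388608) →
    tsub sG 23 (sml f) (sml g) = sml fun p q => f p q - g p q
  sml_min : ∀ f g, (∀ p < 5, ∀ q < 8, f p q < 8388608 ∧ g p q < 8388608) →
    vmin sG 23 (sml f) (sml g) = sml fun p q => min (f p q) (g p q)
  big_sum : ∀ f, (∀ p < 5, ∀ q < 8, ∀ a < 4, ∀ b < 8, f p q a b < 128) → big f % 262143 =
    ∑ a ∈ range 4, ∑ p ∈ range 5, ∑ q ∈ range 8, ∑ b ∈ range 8, f p q a b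
  sml_sum : ∀ f, (∀ p < 5, ∀ q < 8, f p q < 128) →
    ssum (sml f) = ∑ p ∈ range 5, ∑ q ∈ range 8, f p q
  get_sml : ∀ f, (∀ p < 5, ∀ q < 8, f p q < 16777216) → ∀ p < 5, ∀ q < 8, get (sml f) p q = f p q
  uA_eq : ∀ a < 4, ∀ b < 8, uA a b = big fun _ _ a' b' => if a' = a ∧ b' = b then 1 else 0
  uQ_eq : ∀ p < 5, ∀ q < 8, uQ p q = big fun p' q' _ _ => if p' = p ∧ q' = q then 1 else 0
  uS_eq : ∀ p < 5, ∀ q < 8, uS p q = sml fun p' q' => if p' = p ∧ q' = q then 1 else 0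

/-- The packed thresholds and generator indicators. -/
def ThrStmt : Prop :=
  ∀ h : ℕ → ℕ → ℕ, Grid h → (∀ a b, h a b ≤ 40) →
    vthr (xP h) (xQ h) = big (thr h) ∧
    b40 + xP h - xQ h = big (fun p q a b => 40 + h a b - h p q) ∧
    sgen (sml h) = sml fun p q =>
      if (p = 0 ∨ h p q < h (p - 1) q) ∧ (q = 0 ∨ h p q < h p (q - 1)) then 1 else 0

/-- Soundness of the test at one staircase. -/
def ChkStmt : Prop :=
  ∀ (h0 h1 h2 : ℕ → ℕ → ℕ) (p0 q0 a1 b1 : ℕ), h0 = bump h1 p0 q0 → h1 = bump h2 a1 b1 →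
    Bor h0 → Bor h1 → Bor h2 → 12 ≤ size h1 → size h1 ≤ 31 → Grid h1 →
    chk (sml h1) (xP h1) (xQ h1) (size h1) = true →
    Grid h0 ∧ (∀ a b, h0 a b ≤ 40) ∧
      cntA h1 (thrAll h0 h1 h2) + cntB h1 p0 q0 + cntC h1 a1 b1 + 2 ≤ 3 * size h1

def RunStmt : Prop := ∀ v0 v1, v1 < v0 → v0 + v1 ≤ 31 → run v0 v1 = true

/-- Completeness of the enumeration. -/
def GoStmt : Prop :=
  ∀ h : ℕ → ℕ → ℕ, Bor h → 0 < size h → size h ≤ 31 →
    Grid h ∧ chk (sml h) (xP h) (xQ h) (size h) = true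

end Pool.Agent.Lib.MP_ed43e6_ag.N
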