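import Pool.Agent.Lib.MP_ed43e6_ag.Final

/-! Definitions and intermediate statements for the dimension argument on nested ideals. -/

namespace Pool.Agent.Lib.MP_ed43e6_ag.N

open MvPolynomial Module Matrix Finset

universe u

/-! ### Initial monomials for a local degree order -/

/-- The exponent vector of `x^a y^b z^t`. -/
noncomputable def mon (a b t : ℕ) : Fin 3 →₀ ℕ :=
  Finsupp.single 0 a + Finsupp.single 1 b + Finsupp.single 2 t

/-- The weight of `x^a y^b z^t`. -/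
def key (a b t : ℕ) : ℕ := 16384 * (a + b + t) + 128 * (b + t) + t

/-- The weight of an exponent vector. -/
def wt (u : Fin 3 →₀ ℕ) : ℕ := key (u 0) (u 1) (u 2)

/-- Initial (lowest weight) monomials of the elements of `I`. -/
def ini {Ω : Type u} [Field Ω] (I : Ideal (SS Ω)) : Set (Fin 3 →₀ ℕ) :=
  {u | ∃ f ∈ I, coeff u f ≠ 0 ∧ ∀ v ∈ f.support, v ≠ u → wt u < wt v}

/-- Normal forms modulo `I` in the span of the standard monomials `lam`. -/
structure NF {Ω : Type u} [Field Ω] (I : Ideal (SS Ω)) (lam : Finset (Fin 3 →₀ ℕ))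
    (nf : SS Ω →ₗ[Ω] SS Ω) : Prop where
  mem_iff : ∀ u, u ∈ lam ↔ u ∉ ini I
  sub_mem : ∀ f, f - nf f ∈ I
  supp : ∀ f, (nf f).support ⊆ lam
  eq_zero : ∀ f ∈ I, f.support ⊆ lam → f = 0
  pos : ∀ u ∈ ini I, ∀ v ∈ (nf (monomial u 1)).support, wt u < wt v
  card : lam.card = finrank Ω (SS Ω ⧸ I)

/-- Stability under the moves `y ↦ x` and `z ↦ y`. -/
def IsBorel (J : Set (Fin 3 →₀ ℕ)) : Prop :=
  (∀ a b t, mon a (b + 1) t ∈ J → mon (a + 1) b t ∈ J) ∧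
    ∀ a b t, mon a b (t + 1) ∈ J → mon a (b + 1) t ∈ J

/-- Existence of normal forms. -/
def NFStmt : Prop :=
  ∀ (Ω : Type u) [Field Ω] (I : Ideal (SS Ω)) (M : ℕ), M ≤ 128 → mm Ω ^ M ≤ I →
    ∃ lam nf, NF I lam nf

/-- The unipotent substitution `x, y + a x, z + b y + c x`. -/
noncomputable def unip {Ω : Type u} [Field Ω] (a b c : Ω) : SS Ω →ₐ[Ω] SS Ω :=
  aeval ![X 0, X 1 + C a * X 0, X 2 + C b * X 1 + C c * X 0]

/-- `I` is stable under applying the additive map `δ` to all coefficients. -/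
def CoeffStable {Ω : Type u} [Field Ω] (I : Ideal (SS Ω)) (δ : Ω → Ω) : Prop :=
  ∀ f ∈ I, ∀ g : SS Ω, (∀ u, coeff u g = δ (coeff u f)) → g ∈ I

/-- Initial monomials after a generic unipotent substitution are Borel stable. -/
def BorelStmt : Prop :=
  ∀ (F Ω : Type u) [Field F] [Field Ω] [Algebra F Ω] (δ₁ δ₂ : Derivation F Ω Ω) (a b c : Ω),
    δ₁ a = 1 → δ₁ b = 0 → δ₁ c = 0 → δ₂ a = 0 → δ₂ b = 1 → δ₂ c = a →
    ∀ (I : Ideal (SS Ω)) (M : ℕ), mm Ω ^ M ≤ I → (∀ i : ℕ, 0 < i → i < M → (i : Ω) ≠ 0) →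
      CoeffStable I δ₁ → CoeffStable I δ₂ → IsBorel (ini (I.comap (unip a b c)))

/-- Derivations of a rational function field in three variables. -/
def DerStmt : Prop :=
  ∀ (F : Type u) [Field F] (y : Fin 3 → FractionRing (MvPolynomial (Fin 3) F)),
    ∃ δ : Derivation F (FractionRing (MvPolynomial (Fin 3) F))
      (FractionRing (MvPolynomial (Fin 3) F)),
      ∀ i, δ (algebraMap (MvPolynomial (Fin 3) F) _ (X i)) = y i

/-! ### Combinatorics of height functions -/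

/-- Column heights of a Borel staircase. -/
def Bor (h : ℕ → ℕ → ℕ) : Prop :=
  (∀ a b, h a (b + 1) ≤ h a b - 1) ∧ ∀ a b, h (a + 1) b ≤ h a (b + 1)

/-- Add one box on the column `(p, q)`. -/
def bump (h : ℕ → ℕ → ℕ) (p q : ℕ) : ℕ → ℕ → ℕ :=
  fun a b => if a = p ∧ b = q then h a b + 1 else h a b

def size (h : ℕ → ℕ → ℕ) : ℕ := ∑ a ∈ range 128, ∑ b ∈ range 128, h a b

def Grid (h : ℕ → ℕ → ℕ) : Prop := ∀ a b, 4 ≤ a ∨ 7 ≤ b → h a b = 0

def base (h : ℕ → ℕ → ℕ) (p q a b : ℕ) : ℕ :=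
  max (40 - h p q) (if p = 0 then 0 else 40 + h a b - h (p - 1) q)

def thr (h : ℕ → ℕ → ℕ) (p q a b : ℕ) : ℕ :=
  max (max (base h p q a b) (if q = 0 then 0 else 40 + h a b - h p (q - 1)))
    (min (if q < 7 ∧ b < 7 then 40 + h a (b + 1) - h p q else 0) (base h p (q + 1) a (b + 1)))

def posb (p q a b : ℕ) : ℕ := 40 + p + q - a - b + if a < p ∨ (a = p ∧ b < q) then 0 else 1

def thrAll (h0 h1 h2 : ℕ → ℕ → ℕ) (p q a b : ℕ) : ℕ :=
  max (max (posb p q a b) (thr h1 p q a b))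
    (max (thr h0 p q a b) (if h2 a b = 0 then 0 else thr h2 p q a b))

def cntA (h : ℕ → ℕ → ℕ) (T : ℕ → ℕ → ℕ → ℕ → ℕ) : ℕ :=
  ∑ a ∈ range 4, ∑ p ∈ range 5, ∑ q ∈ range 8, ∑ b ∈ range 8, (40 + h a b - h p q - T p q a b)

def cntB (h : ℕ → ℕ → ℕ) (p0 q0 : ℕ) : ℕ :=
  ((range 5 ×ˢ range 8).filter fun x => (x.1 = 0 ∨ h x.1 x.2 < h (x.1 - 1) x.2) ∧
    (x.2 = 0 ∨ h x.1 x.2 < h x.1 (x.2 - 1)) ∧ key x.1 x.2 (h x.1 x.2) < key p0 q0 (h p0 q0)).card

def cntC (h : ℕ → ℕ → ℕ) (a1 b1 : ℕ) : ℕ :=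
  ((range 4 ×ˢ range 8).filter fun x => 0 < h x.1 x.2 ∧
    key a1 b1 (h a1 b1 - 1) < key x.1 x.2 (h x.1 x.2 - 1)).card

/-- The finite verification. -/
def CheckStmt : Prop :=
  ∀ (h0 h1 h2 : ℕ → ℕ → ℕ) (p0 q0 a1 b1 : ℕ), h0 = bump h1 p0 q0 → h1 = bump h2 a1 b1 →
    Bor h0 → Bor h1 → Bor h2 → 12 ≤ size h1 → size h1 ≤ 31 →
    Grid h0 ∧ (∀ a b, h0 a b ≤ 40) ∧
      cntA h1 (thrAll h0 h1 h2) + cntB h1 p0 q0 + cntC h1 a1 b1 + 2 ≤ 3 * size h1

/-- The linear relations between normal form coefficients for the staircase `g`. The first three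
arguments of `G` give a monomial outside the staircase, the last three one inside. -/
structure Links (g : ℕ → ℕ → ℕ) (G : ℕ → ℕ → ℕ → ℕ → ℕ → ℕ → Prop) : Prop where
  lx : ∀ p q s a b t, g p q ≤ s → t < g (a + 1) b → (G p q s a b t ↔ G (p + 1) q s (a + 1) b t)
  ly : ∀ p q s a b t, g p q ≤ s → t < g a (b + 1) → (G p q s a b t ↔ G p (q + 1) s a (b + 1) t)
  lz : ∀ p q s a b t, g p q ≤ s → t + 1 < g a b → (G p q s a b t ↔ G p q (s + 1) a b (t + 1))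
  kx : ∀ p q s b t, g p q ≤ s → t < g 0 b → G (p + 1) q s 0 b t
  ky : ∀ p q s a t, g p q ≤ s → t < g a 0 → G p (q + 1) s a 0 t
  kz : ∀ p q s a b, g p q ≤ s → 0 < g a b → G p q (s + 1) a b 0

/-- `R` meets every class of pairs that is not killed. -/
def Roots (h0 h1 h2 : ℕ → ℕ → ℕ) (R : Finset ((ℕ × ℕ × ℕ) × (ℕ × ℕ × ℕ))) : Prop :=
  ∀ G : ℕ → ℕ → ℕ → ℕ → ℕ → ℕ → Prop, Links h0 G → Links h1 G → Links h2 G →
    (∀ p q s a b t, ¬ key p q s < key a b t → G p q s a b t) →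
    (∀ r ∈ R, G r.1.1 r.1.2.1 r.1.2.2 r.2.1 r.2.2.1 r.2.2.2) →
    ∀ p q s a b t, (h0 p q ≤ s ∧ t < h0 a b) ∨ (h1 p q ≤ s ∧ t < h1 a b) ∨
      (h2 p q ≤ s ∧ t < h2 a b) → G p q s a b t

def CombStmt : Prop :=
  ∀ (h0 h1 h2 : ℕ → ℕ → ℕ) (p0 q0 a1 b1 : ℕ), h0 = bump h1 p0 q0 → h1 = bump h2 a1 b1 →
    Bor h0 → Bor h1 → Bor h2 → Grid h0 → (∀ a b, h0 a b ≤ 40) →
    ∃ R, Roots h0 h1 h2 R ∧
      R.card ≤ cntA h1 (thrAll h0 h1 h2) + cntB h1 p0 q0 + cntC h1 a1 b1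

/-- The normal form coefficients of a chain of three ideals are generated by few elements. -/
def GenStmt : Prop :=
  ∀ (K Ω : Type u) [Field K] [Field Ω] [Algebra K Ω] (I : Fin 3 → Ideal (SS Ω))
    (lam : Fin 3 → Finset (Fin 3 →₀ ℕ)) (nf : Fin 3 → SS Ω →ₗ[Ω] SS Ω) (h : Fin 3 → ℕ → ℕ → ℕ),
    I 0 ≤ I 1 → I 1 ≤ I 2 → (∀ j, NF (I j) (lam j) (nf j)) →
    (∀ j a b t, mon a b t ∈ lam j ↔ t < h j a b) →
    ∀ R, Roots (h 0) (h 1) (h 2) R → ∃ S : Finset Ω, S.card ≤ R.card ∧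
      ∀ j u v, coeff v (nf j (monomial u 1)) ∈ IntermediateField.adjoin K (S : Set Ω)

/-- A chain of three ideals with Borel initial sets has few generators of its coefficients. -/
def ChainStmt (n : ℕ) : Prop :=
  ∀ (K Ω : Type u) [Field K] [Field Ω] [Algebra K Ω] (I : Fin 3 → Ideal (SS Ω)),
    I 0 ≤ I 1 → I 1 ≤ I 2 → mm Ω ^ (n + 1) ≤ I 0 → finrank Ω (SS Ω ⧸ I 0) = n + 1 →
    finrank Ω (SS Ω ⧸ I 1) = n → finrank Ω (SS Ω ⧸ I 2) + 1 = n → (∀ j, IsBorel (ini (I j))) →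
    ∃ (lam : Fin 3 → Finset (Fin 3 →₀ ℕ)) (nf : Fin 3 → SS Ω →ₗ[Ω] SS Ω) (S : Finset Ω),
      (∀ j, NF (I j) (lam j) (nf j)) ∧ S.card + 2 ≤ 3 * n ∧
      ∀ j u v, coeff v (nf j (monomial u 1)) ∈ IntermediateField.adjoin K (S : Set Ω)

/-! ### Matrices -/

abbrev Ix (n : ℕ) := Fin n ⊕ Unit

/-- A cyclic representation killed by `mm ^ M` whose last basis vector is killed by `mm`. -/
structure Punct {Ω : Type u} [Field Ω] {n : ℕ} (ρ : SS Ω →ₐ[Ω] Matrix (Ix n) (Ix n) Ω)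
    (v : Ix n → Ω) (M : ℕ) : Prop where
  nil : ∀ f ∈ mm Ω ^ M, ρ f = 0
  cyc : ∀ w, ∃ f, ρ f *ᵥ v = w
  col : ∀ i a, ρ (X i) a (Sum.inr ()) = 0

def CoreStmt (n : ℕ) : Prop :=
  ∀ (K Ω : Type u) [Field K] [Field Ω] [Algebra K Ω]
    (ρ : SS Ω →ₐ[Ω] Matrix (Ix n) (Ix n) Ω) (v : Ix n → Ω) (s : Fin n → Ω),
    Punct ρ v (n + 1) → s ≠ 0 → (∀ i, (ρ (X i)).toBlocks₁₁ *ᵥ s = 0) →
    ∀ I : Fin 3 → Ideal (SS Ω), (∀ f, f ∈ I 0 ↔ ρ f *ᵥ v = 0) →
      (∀ f, f ∈ I 1 ↔ ∀ a, (ρ f *ᵥ v) (Sum.inl a) = 0) →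
      (∀ f, f ∈ I 2 ↔ ∃ μ : Ω, ∀ a, (ρ f *ᵥ v) (Sum.inl a) = μ * s a) →
      (∀ j, IsBorel (ini (I j))) →
      ∃ S : Finset Ω, S.card ≤ n * n + 4 * n ∧
        (∀ i a b, ρ (X i) a b ∈ IntermediateField.adjoin K (S : Set Ω)) ∧
        (∀ a, v a ∈ IntermediateField.adjoin K (S : Set Ω)) ∧
        ∀ a, s a ∈ IntermediateField.adjoin K (S : Set Ω)

/-- A rational vector in the span of rational vectors is a rational combination. -/
def RatStmt : Prop :=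
  ∀ (K Ω : Type u) [Field K] [Field Ω] [Algebra K Ω] (E : IntermediateField K Ω) (κ τ : Type)
    (s : Finset κ) (g : κ → τ → Ω) (c : κ → Ω) (y : τ → Ω), (∀ k ∈ s, ∀ a, g k a ∈ E) →
    (∀ a, y a ∈ E) → (∀ a, y a = ∑ k ∈ s, c k * g k a) →
    ∃ c' : κ → Ω, (∀ k, c' k ∈ E) ∧ ∀ a, y a = ∑ k ∈ s, c' k * g k a

/-- The rational function field in `m` variables. -/
abbrev RF (F : Type u) [Field F] (m : ℕ) := FractionRing (MvPolynomial (Fin m) F)

/-- Transcendence degree and generators of rational function fields. -/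
def TrStmt : Prop :=
  (∀ (K F : Type u) [Field K] [Field F] [Algebra K F] (m : ℕ),
    Algebra.trdeg K F + (m : Cardinal) ≤ Algebra.trdeg K (RF F m)) ∧
  (∀ (K F Ω : Type u) [Field K] [Field F] [Field Ω] [Algebra K F] [Algebra K Ω] (m : ℕ)
    (j : RF F m →ₐ[K] Ω) (E : IntermediateField K Ω), (∀ x : F, j (algebraMap F _ x) ∈ E) →
    (∀ i, j (algebraMap (MvPolynomial (Fin m) F) _ (X i)) ∈ E) → ∀ x, j x ∈ E) ∧
  ∀ (K Ω : Type u) [Field K] [Field Ω] [Algebra K Ω] (S : Finset Ω),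
    (∀ x, x ∈ IntermediateField.adjoin K (S : Set Ω)) → Algebra.trdeg K Ω ≤ (S.card : Cardinal)

/-- The core bound after a generic unipotent change of coordinates. -/
def UnipStmt (n : ℕ) : Prop :=
  ∀ (K F : Type u) [Field K] [Field F] [Algebra K F], (∀ i : ℕ, 0 < i → i ≤ n → (i : F) ≠ 0) →
    ∀ (ρ : SS F →ₐ[F] Matrix (Ix n) (Ix n) F) (v : Ix n → F) (s : Fin n → F),
    Punct ρ v (n + 1) → s ≠ 0 → (∀ i, (ρ (X i)).toBlocks₁₁ *ᵥ s = 0) →
    ∃ S : Finset (RF F 3), S.card ≤ n * n + 4 * n + 3 ∧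
      (∀ i a b, algebraMap F (RF F 3) (ρ (X i) a b) ∈ IntermediateField.adjoin K (S : Set (RF F 3))) ∧
      (∀ a, algebraMap F (RF F 3) (v a) ∈ IntermediateField.adjoin K (S : Set (RF F 3))) ∧
      (∀ a, algebraMap F (RF F 3) (s a) ∈ IntermediateField.adjoin K (S : Set (RF F 3))) ∧
      ∀ i, algebraMap (MvPolynomial (Fin 3) F) (RF F 3) (X i) ∈
        IntermediateField.adjoin K (S : Set (RF F 3))

/-- Base change of punctual cyclic representations, and the sharp nilpotency index. -/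
def BCStmt : Prop :=
  (∀ (F Ω : Type u) [Field F] [Field Ω] [Algebra F Ω] (n M : ℕ)
    (ρ : SS F →ₐ[F] Matrix (Ix n) (Ix n) F) (v : Ix n → F), Punct ρ v M →
    ∃ ρ' : SS Ω →ₐ[Ω] Matrix (Ix n) (Ix n) Ω, (∀ i, ρ' (X i) = (ρ (X i)).map (algebraMap F Ω)) ∧
      Punct ρ' (fun a => algebraMap F Ω (v a)) M) ∧
  (∀ (F : Type u) [Field F] (n M : ℕ) (ρ : SS F →ₐ[F] Matrix (Ix n) (Ix n) F) (v : Ix n → F),
    Punct ρ v M → Punct ρ v (n + 1)) ∧
  ∀ (F : Type u) [Field F] (n M : ℕ) (ρ : SS F →ₐ[F] Matrix (Ix n) (Ix n) F) (v : Ix n → F),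
    0 < n → Punct ρ v M → ∃ s : Fin n → F, s ≠ 0 ∧ ∀ i, (ρ (X i)).toBlocks₁₁ *ᵥ s = 0

/-- The three upper left blocks, stacked. -/
def stack {A : Type*} {n : ℕ} (N : Fin 3 → Matrix (Ix n) (Ix n) A) :
    Matrix (Fin 3 × Fin n) (Fin n) A :=
  Matrix.of fun x b => N x.1 (Sum.inl x.2) (Sum.inl b)

/-- The entries of three matrices, a vector and a point generate the field. -/
def Gens (K : Type u) [Field K] {F : Type u} [Field F] [Algebra K F] {n : ℕ}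
    (N : Fin 3 → Matrix (Ix n) (Ix n) F) (v : Ix n → F) (p : Fin 3 → F) : Prop :=
  ∀ E : IntermediateField K F, (∀ i a b, N i a b ∈ E) → (∀ a, v a ∈ E) → (∀ i, p i ∈ E) → E = ⊤

/-- Upper bound for the transcendence degree of a punctual nested pair. -/
def PunctStmt (n : ℕ) : Prop :=
  ∀ (K F : Type u) [Field K] [Field F] [Algebra K F], (∀ i : ℕ, 0 < i → i ≤ n → (i : F) ≠ 0) →
    ∀ (ρ : SS F →ₐ[F] Matrix (Ix n) (Ix n) F) (v : Ix n → F) (p : Fin 3 → F) (M : ℕ),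
    Punct ρ v M → Gens K (fun i => ρ (X i)) v p →
    Algebra.trdeg K F + (n : Cardinal) ≤
      ((n * n + 4 * n + 3 + (stack fun i => ρ (X i)).rank : ℕ) : Cardinal)

/-- Krull's height theorem together with the dimension formula. -/
def KrullStmt : Prop :=
  ∀ (K R F : Type u) [Field K] [CommRing R] [IsDomain R] [Algebra K R] [Algebra.FiniteType K R]
    [Field F] [Algebra K F] (σ τ : Type) [Fintype σ] [Fintype τ] (N : Matrix σ τ R) (ω : σ → R),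
    ω ᵥ* N = 0 → ∀ φ : R →ₐ[K] F, RingHom.ker φ ∈ (Ideal.span (Set.range ω)).minimalPrimes →
    Algebra.trdeg K R + ((N.map φ).rank : Cardinal) ≤
      Algebra.trdeg K F + (Fintype.card σ : Cardinal)

/-- The coordinate ring of the closure of the diagonalisable triples. -/
abbrev OO (K : Type u) [Field K] (n : ℕ) :=
  MvPolynomial (Var (Fin n)) K ⧸
    RingHom.ker (aeval (ent (genM K (Fin n))) : MvPolynomial (Var (Fin n)) K →ₐ[K] GenRing K (Fin n))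

def BaseStmt : Prop :=
  ∀ (K : Type u) [Field K] [IsAlgClosed K] (n : ℕ),
    ((n * n + 2 * n : ℕ) : Cardinal) ≤ Algebra.trdeg K (OO K n)

/-- A generic point of a component of the nested scheme through a given point. -/
def GenericStmt : Prop :=
  ∀ (K : Type u) [Field K] [IsAlgClosed K] (n : ℕ) (Y : Fin 3 → Matrix (Ix n) (Ix n) K)
    (v : Ix n → K), (∀ i j, Y i * Y j = Y j * Y i) → (∀ i a, Y i a (Sum.inr ()) = 0) →
    SmM K (fun i => (Y i).toBlocks₁₁) →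
    ∃ (B : Type u) (_ : CommRing B) (_ : IsDomain B) (_ : Algebra K B) (ψ : B →ₐ[K] K)
      (N : Fin 3 → Matrix (Ix n) (Ix n) B) (w : Ix n → B) (p : Fin 3 → B),
      (∀ i j, N i * N j = N j * N i) ∧ (∀ i a, N i a (Sum.inr ()) = 0) ∧
      (∀ i, (N i).map ψ = Y i) ∧ (∀ a, ψ (w a) = v a) ∧ (∀ i, ψ (p i) = 0) ∧
      Gens K (fun i => (N i).map (algebraMap B (FractionRing B)))
        (fun a => algebraMap B (FractionRing B) (w a))
        (fun i => algebraMap B (FractionRing B) (p i)) ∧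
      ((n * n + 3 * n + 4 +
        (stack fun i => (N i).map (algebraMap B (FractionRing B))).rank : ℕ) : Cardinal) ≤
        Algebra.trdeg K (FractionRing B)

/-- All ideals of colength `d` are smoothable over algebraically closed fields in which
`1, …, D - 1` are nonzero. -/
def SmAll (D d : ℕ) : Prop :=
  ∀ (K : Type u) [Field K] [IsAlgClosed K], (∀ i : ℕ, 0 < i → i < D → (i : K) ≠ 0) →
    ∀ I : Ideal (SS K), Module.Finite K (SS K ⧸ I) → finrank K (SS K ⧸ I) = d →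
      Sm (act K (SS K ⧸ I))

/-- An ideal through the origin is primary to the origin or splits. -/
def OriginStmt : Prop :=
  ∀ (K : Type u) [Field K] (I : Ideal (SS K)), Module.Finite K (SS K ⧸ I) → I ≤ mm K →
    (∀ J : Ideal (SS K), Module.Finite K (SS K ⧸ J) →
      finrank K (SS K ⧸ J) < finrank K (SS K ⧸ I) → Sm (act K (SS K ⧸ J))) →
    (∃ M, mm K ^ M ≤ I) ∨ Sm (act K (SS K ⧸ I))

/-- Reduction to ideals primary to the origin. -/
def ReduceStmt : Prop :=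
  ∀ (K : Type u) [Field K] [IsAlgClosed K] (d : ℕ),
    (∀ J : Ideal (SS K), Module.Finite K (SS K ⧸ J) → finrank K (SS K ⧸ J) < d →
      Sm (act K (SS K ⧸ J))) →
    (∀ (J : Ideal (SS K)) (M : ℕ), mm K ^ M ≤ J → finrank K (SS K ⧸ J) = d →
      Sm (act K (SS K ⧸ J))) →
    ∀ I : Ideal (SS K), Module.Finite K (SS K ⧸ I) → finrank K (SS K ⧸ I) = d →
      Sm (act K (SS K ⧸ I))

/-- Matrix form of `OriginStmt`. -/
def SplitStmt : Prop :=
  ∀ (L : Type u) [Field L] (n : ℕ) (ρ : SS L →ₐ[L] Matrix (Ix n) (Ix n) L) (v : Ix n → L),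
    (∀ w, ∃ f, ρ f *ᵥ v = w) → (∀ i a, ρ (X i) a (Sum.inr ()) = 0) →
    (∀ J : Ideal (SS L), Module.Finite L (SS L ⧸ J) → finrank L (SS L ⧸ J) < n + 1 →
      Sm (act L (SS L ⧸ J))) →
    (∃ M, ∀ f ∈ mm L ^ M, ρ f = 0) ∨ SmM L fun i => ρ (X i)

/-- Cyclicity is an open condition. -/
def CycStmt : Prop :=
  ∀ (B K F : Type u) [CommRing B] [Field K] [Field F] (ι : Type) [Fintype ι] [DecidableEq ι]
    (ψ : B →+* K) (φ : B →+* F), Function.Surjective ψ → Function.Injective φ →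
    ∀ (N : Fin 3 → Matrix ι ι B) (w : ι → B), (∀ i j, N i * N j = N j * N i) →
    ∀ (ρK : SS K →ₐ[K] Matrix ι ι K) (ρF : SS F →ₐ[F] Matrix ι ι F),
      (∀ i, ρK (X i) = (N i).map ψ) → (∀ i, ρF (X i) = (N i).map φ) →
      (∀ y, ∃ f, ρK f *ᵥ (fun a => ψ (w a)) = y) → ∀ y, ∃ f, ρF f *ᵥ (fun a => φ (w a)) = y

/-- A basis adapted to a socle element. -/
def SocleStmt : Prop :=
  ∀ (K : Type u) [Field K] (n M : ℕ) (I : Ideal (SS K)), mm K ^ M ≤ I →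
    finrank K (SS K ⧸ I) = n + 1 →
    (∀ J : Ideal (SS K), Module.Finite K (SS K ⧸ J) → finrank K (SS K ⧸ J) = n →
      Sm (act K (SS K ⧸ J))) →
    ∃ b : Basis (Ix n) K (SS K ⧸ I), (∀ i a, repOf b (X i) a (Sum.inr ()) = 0) ∧
      SmM K fun i => (repOf b (X i)).toBlocks₁₁

/-- Base change of the equations of the diagonalisable triples. -/
def DownStmt : Prop :=
  ∀ (K L : Type u) [Field K] [Field L] [Algebra K L] (ι : Type) [Fintype ι] [DecidableEq ι]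
    (M : Fin 3 → Matrix ι ι L), SmM L M → SmM K M

/-- Irreducibility of the tables from smoothability. -/
def PrimeStmt : Prop :=
  ∀ (K : Type u) [Field K] [IsAlgClosed K] (ι : Type) [Fintype ι] [DecidableEq ι],
    (∀ I : Ideal (SS K), Module.Finite K (SS K ⧸ I) → finrank K (SS K ⧸ I) = Fintype.card ι →
      Sm (act K (SS K ⧸ I))) → (vanishingIdeal K (tables K ι)).IsPrime

end Pool.Agent.Lib.MP_ed43e6_ag.N
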