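import Pool.Agent.Lib.MP_ed43e6_ag.N.Defs

/-! A generic point of a component of the nested scheme through a given point. -/

namespace Pool.Agent.Lib.MP_ed43e6_ag.N

open MvPolynomial Matrix

universe u

namespace Generic

theorem genM_comm (K : Type u) [Field K] (ι : Type) [Fintype ι] [DecidableEq ι] (i j : Fin 3) :
    genM K ι i * genM K ι j = genM K ι j * genM K ι i := by
  have h : ∀ i j, genM K ι i * genM K ι j = (genG K ι).det •
      (genG K ι * diagonal (fun a => genL K ι i a * genL K ι j a) * adjugate (genG K ι)) := by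
    intro i j
    calc genM K ι i * genM K ι j = genG K ι * diagonal (genL K ι i) *
          (adjugate (genG K ι) * genG K ι) * diagonal (genL K ι j) * adjugate (genG K ι) := by
          simp only [genM, Matrix.mul_assoc]
      _ = _ := by
          rw [adjugate_mul, ← diagonal_mul_diagonal]
          simp only [Matrix.mul_smul, Matrix.smul_mul, Matrix.mul_one, Matrix.mul_assoc]
  rw [h, h]
  simp only [mul_comm]

section blocks

variable {R : Type*} [CommRing R] {n : ℕ}

/-- A block and a last row. -/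
def ext (A : Matrix (Fin n) (Fin n) R) (r : Fin n → R) : Matrix (Ix n) (Ix n) R :=
  fromBlocks A 0 (Matrix.of fun _ b => r b) 0

theorem ext_mul (A A' : Matrix (Fin n) (Fin n) R) (r r' : Fin n → R) :
    ext A r * ext A' r' = ext (A * A') (r ᵥ* A') := by
  simp only [ext, fromBlocks_multiply, Matrix.mul_zero, Matrix.zero_mul, add_zero]
  rfl

theorem ext_map {S : Type*} [CommRing S] (φ : R →+* S) (A : Matrix (Fin n) (Fin n) R)
    (r : Fin n → R) : (ext A r).map φ = ext (A.map φ) fun b => φ (r b) := by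
  funext a b
  rcases a with a | a <;> rcases b with b | b <;> simp [ext]

/-- The equations for the commutation of the extended matrices. -/
def om (A : Fin 3 → Matrix (Fin n) (Fin n) R) (r : Fin 3 → Fin n → R) : Fin 3 × Fin n → R :=
  fun x => (r (x.1 + 1) ᵥ* A (x.1 + 2) - r (x.1 + 2) ᵥ* A (x.1 + 1)) x.2

theorem om_stack (A : Fin 3 → Matrix (Fin n) (Fin n) R) (r : Fin 3 → Fin n → R)
    (h : ∀ i j, A i * A j = A j * A i) : om A r ᵥ* stack (fun i => ext (A i) (r i)) = 0 := by
  have e : om A r ᵥ* stack (fun i => ext (A i) (r i)) =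
      ∑ k : Fin 3, (r (k + 1) ᵥ* A (k + 2) - r (k + 2) ᵥ* A (k + 1)) ᵥ* A k := by
    funext c
    rw [Finset.sum_apply]
    simp only [vecMul, dotProduct, Fintype.sum_prod_type]
    rfl
  rw [e, Fin.sum_univ_three]
  simp only [sub_vecMul, vecMul_vecMul]
  change r 1 ᵥ* (A 2 * A 0) - r 2 ᵥ* (A 1 * A 0) + (r 2 ᵥ* (A 0 * A 1) - r 0 ᵥ* (A 2 * A 1)) +
    (r 0 ᵥ* (A 1 * A 2) - r 1 ᵥ* (A 0 * A 2)) = 0
  rw [h 2 0, h 1 0, h 2 1]
  abel

theorem ext_comm (A : Fin 3 → Matrix (Fin n) (Fin n) R) (r : Fin 3 → Fin n → R)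
    (h : ∀ i j, A i * A j = A j * A i) (h0 : ∀ x, om A r x = 0) (i j : Fin 3) :
    ext (A i) (r i) * ext (A j) (r j) = ext (A j) (r j) * ext (A i) (r i) := by
  have e : ∀ k : Fin 3, r (k + 1) ᵥ* A (k + 2) = r (k + 2) ᵥ* A (k + 1) := fun k =>
    sub_eq_zero.1 (funext fun b => h0 (k, b))
  have e0 : r 1 ᵥ* A 2 = r 2 ᵥ* A 1 := e 0
  have e1 : r 2 ᵥ* A 0 = r 0 ᵥ* A 2 := e 1
  have e2 : r 0 ᵥ* A 1 = r 1 ᵥ* A 0 := e 2
  rw [ext_mul, ext_mul, h i j]
  congr 1
  fin_cases i <;> fin_cases j <;> first | rfl | assumption | (symm; assumption)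

theorem om_of_comm (A : Fin 3 → Matrix (Fin n) (Fin n) R) (r : Fin 3 → Fin n → R)
    (h : ∀ i j, ext (A i) (r i) * ext (A j) (r j) = ext (A j) (r j) * ext (A i) (r i))
    (x : Fin 3 × Fin n) : om A r x = 0 := by
  have := congrFun (congrFun (h (x.1 + 1) (x.1 + 2)) (Sum.inr ())) (Sum.inl x.2)
  rw [ext_mul, ext_mul] at this
  exact sub_eq_zero.2 this

theorem om_map {S : Type*} [CommRing S] (φ : R →+* S) (A : Fin 3 → Matrix (Fin n) (Fin n) R)
    (r : Fin 3 → Fin n → R) (x : Fin 3 × Fin n) :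
    om (fun i => (A i).map φ) (fun i b => φ (r i b)) x = φ (om A r x) := by
  simp [om, vecMul, dotProduct]

end blocks

/-- The construction over an abstract coordinate ring. -/
theorem core (hK : KrullStmt.{u}) (K O : Type u) [Field K] [CommRing O] [IsDomain O]
    [Algebra K O] [Algebra.FiniteType K O] (n : ℕ) (U : Fin 3 → Matrix (Fin n) (Fin n) O)
    (hU : ∀ i j, U i * U j = U j * U i)
    (hgen : ∀ S : Subalgebra K O, (∀ i a b, U i a b ∈ S) → ∀ x, x ∈ S)
    (htr : ((n * n + 2 * n : ℕ) : Cardinal) ≤ Algebra.trdeg K O)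
    (Y : Fin 3 → Matrix (Ix n) (Ix n) K) (v : Ix n → K) (hY : ∀ i j, Y i * Y j = Y j * Y i)
    (hc : ∀ i a, Y i a (Sum.inr ()) = 0) (ψ₀ : O →ₐ[K] K)
    (hψ : ∀ i a b, ψ₀ (U i a b) = Y i (Sum.inl a) (Sum.inl b)) :
    ∃ (B : Type u) (_ : CommRing B) (_ : IsDomain B) (_ : Algebra K B) (ψ : B →ₐ[K] K)
      (N : Fin 3 → Matrix (Ix n) (Ix n) B) (w : Ix n → B) (p : Fin 3 → B),
      (∀ i j, N i * N j = N j * N i) ∧ (∀ i a, N i a (Sum.inr ()) = 0) ∧
      (∀ i, (N i).map ψ = Y i) ∧ (∀ a, ψ (w a) = v a) ∧ (∀ i, ψ (p i) = 0) ∧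
      Gens K (fun i => (N i).map (algebraMap B (FractionRing B)))
        (fun a => algebraMap B (FractionRing B) (w a))
        (fun i => algebraMap B (FractionRing B) (p i)) ∧
      ((n * n + 3 * n + 4 +
        (stack fun i => (N i).map (algebraMap B (FractionRing B))).rank : ℕ) : Cardinal) ≤
        Algebra.trdeg K (FractionRing B) := by
  let V := Ix n ⊕ Fin 3 ⊕ Fin 3 × Fin n
  let R := MvPolynomial V O
  have : Algebra.FiniteType K R := Algebra.FiniteType.trans (S := O) inferInstance inferInstance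
  let A : Fin 3 → Matrix (Fin n) (Fin n) R := fun i =>
    (U i).map C - (X (Sum.inr (Sum.inl i)) : R) • (1 : Matrix (Fin n) (Fin n) R)
  let r : Fin 3 → Fin n → R := fun i b => X (Sum.inr (Sum.inr (i, b)))
  have hA : ∀ i j, A i * A j = A j * A i := fun i j => by
    have e : (U i).map (C : O →+* R) * (U j).map C = (U j).map C * (U i).map C := by
      rw [← Matrix.map_mul, ← Matrix.map_mul, hU]
    simp only [A, Matrix.sub_mul, Matrix.mul_sub, Matrix.mul_smul, Matrix.smul_mul,
      Matrix.mul_one, Matrix.one_mul, e, smul_sub, smul_smul, mul_comm]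
    abel
  let ψ₁ : R →ₐ[K] K := aevalTower ψ₀
    (Sum.elim v (Sum.elim (fun _ => 0) fun x => Y x.1 (Sum.inr ()) (Sum.inl x.2)))
  have hp : ∀ i, ψ₁ (X (Sum.inr (Sum.inl i))) = 0 := fun i => aevalTower_X _ _ _
  have hψ₁ : ∀ i, (ext (A i) (r i)).map ψ₁ = Y i := fun i => by
    funext a b
    rcases a with a | a <;> rcases b with b | b
    · have e : ψ₁ (C (U i a b)) = ψ₀ (U i a b) := aevalTower_C _ _ _
      change ψ₁ (C (U i a b) - X (Sum.inr (Sum.inl i)) * (1 : Matrix (Fin n) (Fin n) R) a b) = _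
      rw [map_sub, map_mul, hp, zero_mul, sub_zero, e, hψ]
    · simp [ext, hc]
    · exact aevalTower_X _ _ _
    · simp [ext, hc]
  have hker : Ideal.span (Set.range (om A r)) ≤ RingHom.ker ψ₁ := by
    rw [Ideal.span_le]
    rintro _ ⟨x, rfl⟩
    have := om_of_comm (fun i => (A i).map (ψ₁ : R →+* K)) (fun i b => (ψ₁ : R →+* K) (r i b))
      (fun i j => by
        rw [← ext_map, ← ext_map]
        exact (congrArg₂ (· * ·) (hψ₁ i) (hψ₁ j)).trans
          ((hY i j).trans (congrArg₂ (· * ·) (hψ₁ j) (hψ₁ i)).symm)) x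
    rwa [om_map] at this
  have : (RingHom.ker ψ₁).IsPrime := RingHom.ker_isPrime _
  obtain ⟨P, hP, hle⟩ := Ideal.exists_minimalPrimes_le hker
  have : P.IsPrime := hP.1.1
  let π : R →+* R ⧸ P := Ideal.Quotient.mk P
  let F := FractionRing (R ⧸ P)
  let φ : R →ₐ[K] F := (IsScalarTower.toAlgHom K (R ⧸ P) F).comp (Ideal.Quotient.mkₐ K P)
  have hφ : ∀ x, φ x = algebraMap (R ⧸ P) F (π x) := fun _ => rfl
  have hkφ : RingHom.ker φ = P := by
    ext x
    rw [RingHom.mem_ker, hφ, map_eq_zero_iff _ (IsFractionRing.injective _ _),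
      Ideal.Quotient.eq_zero_iff_mem]
  refine ⟨R ⧸ P, inferInstance, inferInstance, inferInstance,
    Ideal.Quotient.liftₐ P ψ₁ fun x hx => hle hx, fun i => (ext (A i) (r i)).map π,
    fun a => π (X (Sum.inl a)), fun i => π (X (Sum.inr (Sum.inl i))), fun i j => ?_,
    fun i a => ?_, fun i => hψ₁ i, fun a => aevalTower_X _ _ _, hp, fun E h1 h2 h3 => ?_, ?_⟩
  · beta_reduce
    rw [ext_map, ext_map]
    refine ext_comm (fun i => (A i).map π) (fun i b => π (r i b)) (fun i j => ?_) (fun x => ?_) i j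
    · rw [← Matrix.map_mul, ← Matrix.map_mul, hA]
    · rw [om_map]
      exact Ideal.Quotient.eq_zero_iff_mem.2 (hP.1.2 (Ideal.subset_span ⟨x, rfl⟩))
  · rcases a with a | a <;> simp [ext]
  · have hC : ∀ o : O, φ (C o) ∈ E := hgen
      (E.toSubalgebra.comap (φ.comp (IsScalarTower.toAlgHom K O R))) fun i a b => by
        have e : (C (U i a b) : R) =
            A i a b + X (Sum.inr (Sum.inl i)) * (1 : Matrix (Fin n) (Fin n) R) a b := by
          simp [A]
        change φ (C (U i a b)) ∈ E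
        rw [e, map_add, map_mul]
        refine E.add_mem (h1 i (Sum.inl a) (Sum.inl b)) (E.mul_mem (h3 i) ?_)
        rw [Matrix.one_apply]
        split_ifs
        · rw [map_one]; exact E.one_mem
        · rw [map_zero]; exact E.zero_mem
    have hX : ∀ x : V, φ (X x) ∈ E := by
      rintro (a | i | ⟨i, b⟩)
      exacts [h2 a, h3 i, h1 i (Sum.inr ()) (Sum.inl b)]
    have hR : ∀ x : R, φ x ∈ E := fun x => by
      induction x using MvPolynomial.induction_on with
      | C o => exact hC o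
      | add f g hf hg => rw [map_add]; exact E.add_mem hf hg
      | mul_X f x hf => rw [map_mul]; exact E.mul_mem hf (hX x)
    refine top_le_iff.1 fun x _ => ?_
    obtain ⟨a, b, -, rfl⟩ := IsFractionRing.div_surjective (A := R ⧸ P) x
    obtain ⟨a, rfl⟩ := Ideal.Quotient.mk_surjective a
    obtain ⟨b, rfl⟩ := Ideal.Quotient.mk_surjective b
    exact E.div_mem (hR a) (hR b)
  · have key := hK K R F (Fin 3 × Fin n) (Fin n) (stack fun i => ext (A i) (r i)) (om A r)
      (om_stack A r hA) φ (by rw [hkφ]; exact hP)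
    have e : Algebra.trdeg K R = Algebra.trdeg K O + ((4 * n + 4 : ℕ) : Cardinal) := by
      rw [← trdeg_add_eq K O (A := R), MvPolynomial.trdeg_of_isDomain, Cardinal.mk_fintype,
        Cardinal.lift_natCast]
      congr 2
      simp [V]
      ring
    change ((n * n + 3 * n + 4 + ((stack fun i => ext (A i) (r i)).map φ).rank : ℕ) : Cardinal) ≤
      Algebra.trdeg K F
    rw [← Cardinal.add_nat_le_add_nat_iff (Fintype.card (Fin 3 × Fin n))]
    refine le_trans ?_ key
    rw [e]
    refine le_trans (le_of_eq ?_) (add_le_add (add_le_add htr le_rfl) le_rfl)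
    norm_cast
    simp only [Fintype.card_prod, Fintype.card_fin]
    ring

end Generic

theorem genericStmt : KrullStmt.{u} → BaseStmt.{u} → GenericStmt.{u} := by
  intro hK hB K _ _ n Y v hY hc hS
  let ev : MvPolynomial (Var (Fin n)) K →ₐ[K] GenRing K (Fin n) := aeval (ent (genM K (Fin n)))
  have : (RingHom.ker ev).IsPrime := RingHom.ker_isPrime _
  let U : Fin 3 → Matrix (Fin n) (Fin n) (OO K n) := fun i =>
    Matrix.of fun a b => Ideal.Quotient.mk _ (X (i, a, b))
  have hU : ∀ i, (U i).map (Ideal.kerLiftAlg ev) = genM K (Fin n) i := fun i => by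
    funext a b
    change ev (X (i, a, b)) = _
    simp [ev, ent]
  refine Generic.core hK K (OO K n) n U (fun i j => ?_) (fun S h x => ?_) (hB K n) Y v hY hc
    (Ideal.Quotient.liftₐ _ (aeval (ent fun i => (Y i).toBlocks₁₁)) fun P hP => hS P hP)
    fun i a b => ?_
  · apply Matrix.map_injective (Ideal.kerLiftAlg_injective ev)
    beta_reduce
    rw [Matrix.map_mul, Matrix.map_mul, hU, hU, Generic.genM_comm]
  · obtain ⟨x, rfl⟩ := Ideal.Quotient.mk_surjective x
    induction x using MvPolynomial.induction_on with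
    | C o => exact S.algebraMap_mem o
    | add f g hf hg => rw [map_add]; exact S.add_mem hf hg
    | mul_X f x hf => rw [map_mul]; exact S.mul_mem hf (h x.1 x.2.1 x.2.2)
  · change aeval (ent fun i => (Y i).toBlocks₁₁) (X (i, a, b) : MvPolynomial _ K) = _
    rw [aeval_X]
    rfl

end Pool.Agent.Lib.MP_ed43e6_ag.N
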