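import Pool.Agent.Lib.MP_ed43e6_ag.N.Spl

/-! Kernel runs of the checker, in small pieces. -/

namespace Pool.Agent.Lib.MP_ed43e6_ag.N.Lit.Spl

set_option maxRecDepth 1000000
set_option linter.defProp false

def l0 : List Job := [(5, 4, [2], 18446744009285042175)]
def t0 : l0.all job = true := by decide +kernel
def l3 : List Job := [(7, 6, [2, 1], 36893487984210345983)]
def t3 : l3.all job = true := by decide +kernel
def l6 : List Job := [(7, 6, [4, 3], 18446743906205827071)]
def t6 : l6.all job = true := by decide +kernel
def l9 : List Job := [(8, 5, [3], 36893488035749953530)]
def t9 : l9.all job = true := by decide +kernel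
def l12 : List Job := [(8, 6, [3, 2], 36893487984210345983)]
def t12 : l12.all job = true := by decide +kernel
def l15 : List Job := [(8, 7, [3], 18446743596968181756)]
def t15 : l15.all job = true := by decide +kernel
def l18 : List Job := [(8, 7, [5], 18446743734407135206)]
def t18 : l18.all job = true := by decide +kernel
def l21 : List Job := [(9, 5, [2], 18446744052234715134)]
def t21 : l21.all job = true := by decide +kernel
def l24 : List Job := [(9, 6, [2], 36893488027160018942)]
def t24 : l24.all job = true := by decide +kernel
def l27 : List Job := [(9, 7, [4], 18446743734407135222)]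
def t27 : l27.all job = true := by decide +kernel
def l30 : List Job := [(9, 8, [3], 36893487400094793726)]
def t30 : l30.all job = true := by decide +kernel
def l33 : List Job := [(10, 6, [2], 36893488147419103230)]
def t33 : l33.all job = true := by decide +kernel
def l36 : List Job := [(10, 7, [3], 18446743734407135230)]
def t36 : l36.all job = true := by decide +kernel
def l39 : List Job := [(10, 8, [3], 36893487430159564799)]
def t39 : l39.all job = true := by decide +kernel
def l42 : List Job := [(11, 4, [], 36893488147419103229)]
def t42 : l42.all job = true := by decide +kernel
def l45 : List Job := [(11, 6, [2], 36893487898311000063)]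
def t45 : l45.all job = true := by decide +kernel
def l48 : List Job := [(11, 7, [2], 36893488117354332159)]
def t48 : l48.all job = true := by decide +kernel
def l51 : List Job := [(11, 9, [], 36893487052202442516)]
def t51 : l51.all job = true := by decide +kernel
def l54 : List Job := [(12, 5, [2], 36893488143124135935)]
def t54 : l54.all job = true := by decide +kernel
def l57 : List Job := [(12, 8, [], 36893487601958256532)]
def t57 : l57.all job = true := by decide +kernel
def l60 : List Job := [(12, 10, [], 36893487052202442462)]
def t60 : l60.all job = true := by decide +kernel
def l63 : List Job := [(13, 7, [], 128849018890)]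
def t63 : l63.all job = true := by decide +kernel
def l66 : List Job := [(14, 6, [], 36893488134534201318)]
def t66 : l66.all job = true := by decide +kernel
def l69 : List Job := [(7, 6, [3], 36893488147419103225)]
def t69 : l69.all job = true := by decide +kernel
def l72 : List Job := [(8, 6, [4], 18446744189673668616)]
def t72 : l72.all job = true := by decide +kernel
def l75 : List Job := [(12, 5, [3], 36893488147419103230)]
def t75 : l75.all job = true := by decide +kernel
def l78 : List Job := [(7, 5, [2, 1], 36893488130239234047), (9, 5, [3, 2], 4294967296)]
def t78 : l78.all job = true := by decide +kernel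
def l81 : List Job := [(9, 8, [2], 36893488147419103230), (11, 1, [], 36893488147419103231)]
def t81 : l81.all job = true := by decide +kernel
def l84 : List Job := [(10, 9, [], 34), (14, 1, [], 36893488147419103231)]
def t84 : l84.all job = true := by decide +kernel
def l87 : List Job := [(7, 5, [3, 2], 36893488113059364862), (14, 4, [], 64424509440)]
def t87 : l87.all job = true := by decide +kernel
def l90 : List Job := [(8, 5, [3, 2], 36893488044339888127), (27, 2, [], 36893488147419103231)]
def t90 : l90.all job = true := by decide +kernel
def l93 : List Job := [(9, 6, [3], 184683593730), (10, 2, [], 36893488147419103231)]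
def t93 : l93.all job = true := by decide +kernel
def l96 : List Job := [(13, 5, [], 5), (12, 2, [], 36893488147419103231), (3, 1, [], 36893488147419103231)]
def t96 : l96.all job = true := by decide +kernel
def l99 : List Job := [(9, 6, [4], 36893488147419103220), (7, 5, [2, 1], 17179869184)]
def t99 : l99.all job = true := by decide +kernel
def l102 : List Job := [(12, 6, [], 64424509456), (16, 12, [], 36893488147419103231)]
def t102 : l102.all job = true := by decide +kernel
def l105 : List Job := [(15, 6, [], 36893488147419103213), (19, 9, [], 36893488147419103231)]
def t105 : l105.all job = true := by decide +kernel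
def l108 : List Job := [(10, 6, [3], 36893488147419103228), (22, 6, [], 36893488147419103231), (7, 1, [], 36893488147419103231)]
def t108 : l108.all job = true := by decide +kernel
def l111 : List Job := [(11, 10, [], 4393751543928), (11, 7, [3], 18446744378652229632)]
def t111 : l111.all job = true := by decide +kernel
def l114 : List Job := [(17, 5, [], 36893488147419103231), (10, 8, [2], 18446744378652229632)]
def t114 : l114.all job = true := by decide +kernel
def l117 : List Job := [(12, 9, [], 270582939768), (16, 11, [], 36893488147419103231)]
def t117 : l117.all job = true := by decide +kernel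
def l120 : List Job := [(13, 10, [], 36893488147419103231), (5, 4, [2], 18446744138134061056), (13, 0, [], 36893488147419103231)]
def t120 : l120.all job = true := by decide +kernel
def l123 : List Job := [(7, 6, [2], 36893488147419103229), (22, 3, [], 36893488147419103231)]
def t123 : l123.all job = true := by decide +kernel
def l126 : List Job := [(6, 5, [3, 2], 68719476737), (11, 5, [2], 18446744189673668608)]
def t126 : l126.all job = true := by decide +kernel
def l129 : List Job := [(8, 6, [2], 36893488147419103229), (22, 4, [], 36893488147419103231)]
def t129 : l129.all job = true := by decide +kernel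
def l132 : List Job := [(16, 7, [], 36893488147419103231), (4, 3, [], 36893488147419103231), (16, 0, [], 36893488147419103231), (2, 0, [], 36893488147419103231)]
def t132 : l132.all job = true := by decide +kernel
def l135 : List Job := [(10, 6, [4], 18446744232623341577), (6, 5, [3, 2], 34359738368)]
def t135 : l135.all job = true := by decide +kernel
def l138 : List Job := [(12, 7, [], 8), (11, 6, [2], 249108103168), (4, 0, [], 36893488147419103231)]
def t138 : l138.all job = true := by decide +kernel
def l141 : List Job := [(13, 6, [], 8), (14, 8, [], 64424509473)]
def t141 : l141.all job = true := by decide +kernel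
def l144 : List Job := [(14, 7, [], 25), (9, 3, [], 36893488147419103231)]
def t144 : l144.all job = true := by decide +kernel
def l147 : List Job := [(17, 4, [], 36893488147419103231), (16, 5, [], 2), (6, 0, [], 36893488147419103231)]
def t147 : l147.all job = true := by decide +kernel
def l150 : List Job := [(9, 6, [], 36893488147419103203), (13, 4, [], 2), (17, 1, [], 36893488147419103231)]
def t150 : l150.all job = true := by decide +kernel
def l153 : List Job := [(10, 6, [], 36893488147419103203), (12, 5, [3], 1), (15, 14, [], 36893488147419103231)]
def t153 : l153.all job = true := by decide +kernel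
def l156 : List Job := [(11, 6, [], 36893488147419103203), (13, 9, [], 1095216660513), (15, 2, [], 36893488147419103231), (18, 0, [], 36893488147419103231)]
def t156 : l156.all job = true := by decide +kernel
def l159 : List Job := [(10, 5, [3], 2), (20, 4, [], 36893488147419103231), (8, 0, [], 36893488147419103231)]
def t159 : l159.all job = true := by decide +kernel
def l162 : List Job := [(7, 5, [2], 36893488147419103229), (5, 4, [], 36893488147419103227), (18, 13, [], 36893488147419103231)]
def t162 : l162.all job = true := by decide +kernel
def l165 : List Job := [(12, 7, [], 16), (15, 10, [], 36893488147419103231), (25, 5, [], 36893488147419103231), (19, 0, [], 36893488147419103231)]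
def t165 : l165.all job = true := by decide +kernel
def l168 : List Job := [(13, 6, [], 16), (13, 5, [], 2)]
def t168 : l168.all job = true := by decide +kernel
def l171 : List Job := [(15, 6, [], 18), (7, 4, [], 36893488147419103227), (19, 12, [], 36893488147419103231)]
def t171 : l171.all job = true := by decide +kernel
def l174 : List Job := [(18, 4, [], 36893488147419103231), (6, 4, [], 36893488147419103227), (17, 12, [], 36893488147419103231)]
def t174 : l174.all job = true := by decide +kernel
def l177 : List Job := [(8, 7, [4], 8), (16, 9, [], 36893488147419103231), (25, 3, [], 36893488147419103231), (26, 4, [], 36893488147419103231)]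
def t177 : l177.all job = true := by decide +kernel
def l180 : List Job := [(14, 10, [], 36893488147419103231), (17, 8, [], 36893488147419103231), (16, 2, [], 36893488147419103231), (18, 11, [], 36893488147419103231)]
def t180 : l180.all job = true := by decide +kernel
def l183 : List Job := [(7, 5, [], 36893488147419103219), (19, 4, [], 36893488147419103231)]
def t183 : l183.all job = true := by decide +kernel
def l186 : List Job := [(10, 5, [], 36893488147419103219), (13, 3, [], 36893488147419103231), (14, 6, [], 1), (21, 2, [], 36893488147419103231), (19, 1, [], 36893488147419103231)]
def t186 : l186.all job = true := by decide +kernel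
def l189 : List Job := [(6, 5, [], 36893488147419103219), (21, 4, [], 36893488147419103231), (20, 9, [], 36893488147419103231), (21, 8, [], 36893488147419103231), (22, 7, [], 36893488147419103231), (23, 6, [], 36893488147419103231), (28, 2, [], 36893488147419103231)]
def t189 : l189.all job = true := by decide +kernel
def l192 : List Job := [(18, 6, [], 36893488147419103231), (9, 7, [5], 541165879304)]
def t192 : l192.all job = true := by decide +kernel
def l195 : List Job := [(9, 6, [3], 1), (9, 8, [2], 1), (23, 1, [], 36893488147419103231), (24, 1, [], 36893488147419103231)]
def t195 : l195.all job = true := by decide +kernel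
def l198 : List Job := [(15, 11, [], 36893488147419103231), (16, 10, [], 36893488147419103231), (17, 9, [], 36893488147419103231), (18, 8, [], 36893488147419103231), (25, 4, [], 36893488147419103231), (26, 2, [], 36893488147419103231), (26, 3, [], 36893488147419103231)]
def t198 : l198.all job = true := by decide +kernel

def L0 : List Job := l0 ++ (l3 ++ (l6 ++ (l9 ++ (l12 ++ (l15 ++ (l18 ++ (l21 ++ (l24 ++ (l27 ++ (l30 ++ (l33 ++ (l36 ++ (l39 ++ (l42 ++ (l45 ++ (l48 ++ (l51 ++ (l54 ++ (l57 ++ (l60 ++ (l63 ++ (l66 ++ (l69 ++ (l72 ++ (l75 ++ (l78 ++ (l81 ++ (l84 ++ (l87 ++ (l90 ++ (l93 ++ (l96 ++ (l99 ++ (l102 ++ (l105 ++ (l108 ++ (l111 ++ (l114 ++ (l117 ++ (l120 ++ (l123 ++ (l126 ++ (l129 ++ (l132 ++ (l135 ++ (l138 ++ (l141 ++ (l144 ++ (l147 ++ (l150 ++ (l153 ++ (l156 ++ (l159 ++ (l162 ++ (l165 ++ (l168 ++ (l171 ++ (l174 ++ (l177 ++ (l180 ++ (l183 ++ (l186 ++ (l189 ++ (l192 ++ (l195 ++ (l198 ++ []))))))))))))))))))))))))))))))))))))))))))))))))))))))))))))))))))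

theorem ok0 : ∀ j ∈ L0, job j = true :=
  all_app t0 (all_app t3 (all_app t6 (all_app t9 (all_app t12 (all_app t15 (all_app t18 (all_app t21 (all_app t24 (all_app t27 (all_app t30 (all_app t33 (all_app t36 (all_app t39 (all_app t42 (all_app t45 (all_app t48 (all_app t51 (all_app t54 (all_app t57 (all_app t60 (all_app t63 (all_app t66 (all_app t69 (all_app t72 (all_app t75 (all_app t78 (all_app t81 (all_app t84 (all_app t87 (all_app t90 (all_app t93 (all_app t96 (all_app t99 (all_app t102 (all_app t105 (all_app t108 (all_app t111 (all_app t114 (all_app t117 (all_app t120 (all_app t123 (all_app t126 (all_app t129 (all_app t132 (all_app t135 (all_app t138 (all_app t141 (all_app t144 (all_app t147 (all_app t150 (all_app t153 (all_app t156 (all_app t159 (all_app t162 (all_app t165 (all_app t168 (all_app t171 (all_app t174 (all_app t177 (all_app t180 (all_app t183 (all_app t186 (all_app t189 (all_app t192 (all_app t195 (all_app t198 (fun _ k => absurd k List.not_mem_nil)))))))))))))))))))))))))))))))))))))))))))))))))))))))))))))))))))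

end Pool.Agent.Lib.MP_ed43e6_ag.N.Lit.Spl
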