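import Pool.Agent.Lib.MP_ed43e6_ag.N.Lit

/-! Splitting the kernel run of the checker into small jobs. -/

namespace Pool.Agent.Lib.MP_ed43e6_ag.N.Lit.Spl

abbrev St := ℕ → ℕ → ℕ → ℕ → ℕ → ℕ → Bool

/-- A job: the two first heights, a path in the search tree and a set of children. -/
abbrev Job := ℕ × ℕ × List ℕ × ℕ

def cA (r : St) (v : ℕ) : St := fun a b s x y n =>
  or (Nat.ble 7 b) (or (Nat.ble (mn (mn (Nat.sub 31 n) (Nat.pred (get s a (Nat.pred b))))
    (cond (Nat.beq a 0) 31 (get s (Nat.pred a) (Nat.succ b)))) v)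
    (put r a b s x y n (Nat.succ v)))

def cB (r : St) (v : ℕ) : St := fun a _ s x y n =>
  or (Nat.ble 3 a) (or (Nat.ble (mn (Nat.sub 31 n) (get s a 1)) v)
    (put r (Nat.succ a) 0 s x y n (Nat.succ v)))

/-- Child number `t < 64`. -/
def stp (t : ℕ) (r : St) : St := fun a b s x y n =>
  cond (Nat.ble 32 t) (cB r (Nat.sub t 32) a b s x y n) (cA r t a b s x y n)

def wk (r : St) (l : List ℕ) : St := List.rec r (fun t _ ih => stp t ih) l

/-- Child `t < 64`, or the test at the node itself for `t = 64`. -/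
def sub (f t : ℕ) : St := fun a b s x y n =>
  cond (Nat.beq t 64) (chk s x y n) (stp t (go f) a b s x y n)

def part (f m : ℕ) : St := fun a b s x y n =>
  allLt 65 fun t => or (not (Nat.testBit m t)) (sub f t a b s x y n)

def top (v0 v1 : ℕ) (r : St) : Bool :=
  put (fun a b s x y n => put r a b s x y n v1) 0 0 0 0 0 0 v0

def job (j : Job) : Bool :=
  top j.1 j.2.1 (wk (part (Nat.sub 29 j.2.2.1.length) j.2.2.2) j.2.2.1)

def mask (L : List Job) (v0 v1 : ℕ) (P : List ℕ) : ℕ :=
  List.rec 0 (fun j _ m => cond (and (Nat.beq j.1 v0) (and (Nat.beq j.2.1 v1) (j.2.2.1 == P)))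
    (Nat.lor j.2.2.2 m) m) L

/-- The jobs of `L` cover the subtree at `P`. -/
def cov (L : List Job) (v0 v1 d : ℕ) : List ℕ → Bool :=
  Nat.rec (fun _ => false) (fun _ ih P => frc (mask L v0 v1 P) fun m =>
    allLt 65 fun t => or (Nat.testBit m t) (and (Nat.ble t 63) (ih (P ++ [t])))) d

theorem frc_eq {α : Type} (n : ℕ) (f : ℕ → α) : frc n f = f n := by cases n <;> rfl

theorem all_iff (n : ℕ) (f : ℕ → Bool) : allLt n f = true ↔ ∀ i < n, f i = true := by
  induction n with
  | zero => simp [allLt]
  | succ n ih =>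
    have : allLt (n + 1) f = (f n && allLt n f) := rfl
    rw [this, Bool.and_eq_true, ih]
    refine ⟨fun h i k => ?_, fun h => ⟨h n (by omega), fun i k => h i (by omega)⟩⟩
    rcases Nat.lt_succ_iff_lt_or_eq.1 k with e | e
    exacts [h.2 i e, e ▸ h.1]

theorem stp_imp {ι : Type} (R : ι → St) (r : St)
    (h : ∀ a b s x y n, (∀ i, R i a b s x y n = true) → r a b s x y n = true) (t a b s x y n : ℕ)
    (k : ∀ i, stp t (R i) a b s x y n = true) : stp t r a b s x y n = true := by
  unfold stp cA cB put at *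
  simp only [frc_eq] at *
  cases e : Nat.ble 32 t <;> simp only [e, cond_true, cond_false, Bool.or_eq_true] at * <;>
    by_contra q <;> simp only [not_or] at q <;>
    exact q.2.2 (h _ _ _ _ _ _ fun i => ((k i).resolve_left q.1).resolve_left q.2.1)

theorem wk_imp {ι : Type} (R : ι → St) (r : St)
    (h : ∀ a b s x y n, (∀ i, R i a b s x y n = true) → r a b s x y n = true) (P : List ℕ) :
    ∀ a b s x y n, (∀ i, wk (R i) P a b s x y n = true) → wk r P a b s x y n = true := by
  induction P with
  | nil => exact h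
  | cons t P ih => exact stp_imp (fun i => wk (R i) P) (wk r P) ih t

theorem top_imp {ι : Type} (R : ι → St) (r : St)
    (h : ∀ a b s x y n, (∀ i, R i a b s x y n = true) → r a b s x y n = true) (v0 v1 : ℕ)
    (P : List ℕ) (k : ∀ i, top v0 v1 (wk (R i) P) = true) : top v0 v1 (wk r P) = true := by
  unfold top put at *
  simp only [frc_eq] at *
  exact wk_imp R r h P _ _ _ _ _ _ k

theorem wk_app (r : St) (t : ℕ) (P : List ℕ) : wk r (P ++ [t]) = wk (stp t r) P := by
  induction P with
  | nil => rfl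
  | cons u P ih => exact congrArg (stp u) ih

theorem go_of (f a b s x y n : ℕ) (h : ∀ t : Fin 65, sub f t a b s x y n = true) :
    go (f + 1) a b s x y n = true := by
  have e : go (f + 1) a b s x y n = and (chk s x y n) (and
      (or (Nat.ble 7 b) (allLt (mn (mn (Nat.sub 31 n) (Nat.pred (get s a (Nat.pred b))))
          (cond (Nat.beq a 0) 31 (get s (Nat.pred a) (Nat.succ b))))
        fun v => put (go f) a b s x y n (Nat.succ v)))
      (or (Nat.ble 3 a) (allLt (mn (Nat.sub 31 n) (get s a 1))
        fun v => put (go f) (Nat.succ a) 0 s x y n (Nat.succ v)))) := rfl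
  have m1 : ∀ p q, mn p q ≤ p := fun p q => Nat.sub_le _ _
  have m2 : Nat.sub 31 n ≤ 31 := Nat.sub_le _ _
  rw [e]
  simp only [Bool.and_eq_true, Bool.or_eq_true, all_iff]
  refine ⟨h 64, or_iff_not_imp_left.2 fun q v k => ?_, or_iff_not_imp_left.2 fun q v k => ?_⟩
  · have l : v < 31 := k.trans_le (((m1 _ _).trans (m1 _ _)).trans m2)
    have := h ⟨v, by omega⟩
    have e1 : Nat.beq v 64 = false := by
      rw [← Bool.not_eq_true, Nat.beq_eq]; omega
    have e2 : Nat.ble 32 v = false := by
      rw [← Bool.not_eq_true, Nat.ble_eq]; omega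
    simp only [sub, stp, cA, e1, e2, cond_false, Bool.or_eq_true] at this
    exact (this.resolve_left q).resolve_left fun z => absurd (Nat.ble_eq ▸ z) (not_le.2 k)
  · have l : v < 31 := k.trans_le ((m1 _ _).trans m2)
    have := h ⟨32 + v, by omega⟩
    have e1 : Nat.beq (32 + v) 64 = false := by
      rw [← Bool.not_eq_true, Nat.beq_eq]; omega
    have e2 : Nat.ble 32 (32 + v) = true := by
      rw [Nat.ble_eq]; omega
    have e3 : Nat.sub (32 + v) 32 = v := Nat.add_sub_cancel_left _ _
    simp only [sub, stp, cB, e1, e2, e3, cond_false, cond_true, Bool.or_eq_true] at this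
    exact (this.resolve_left q).resolve_left fun z => absurd (Nat.ble_eq ▸ z) (not_le.2 k)

theorem mask_bit (v0 v1 t : ℕ) (P : List ℕ) (L : List Job)
    (h : (mask L v0 v1 P).testBit t = true) : ∃ m, (v0, v1, P, m) ∈ L ∧ m.testBit t = true := by
  induction L with
  | nil => simp [mask] at h
  | cons j L ih =>
    have e : mask (j :: L) v0 v1 P = cond (and (Nat.beq j.1 v0) (and (Nat.beq j.2.1 v1)
      (j.2.2.1 == P))) (j.2.2.2 ||| mask L v0 v1 P) (mask L v0 v1 P) := rfl
    have k : (mask L v0 v1 P).testBit t = true → ∃ m, (v0, v1, P, m) ∈ j :: L ∧ m.testBit t = true :=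
      fun q => (ih q).imp fun m z => ⟨List.mem_cons_of_mem _ z.1, z.2⟩
    rw [e] at h
    cases q : and (Nat.beq j.1 v0) (and (Nat.beq j.2.1 v1) (j.2.2.1 == P))
    · rw [q] at h; exact k h
    · rw [q, cond_true, Nat.testBit_or, Bool.or_eq_true] at h
      refine h.elim (fun z => ⟨j.2.2.2, ?_, z⟩) k
      simp only [Bool.and_eq_true, Nat.beq_eq, beq_iff_eq] at q
      obtain ⟨rfl, rfl, rfl⟩ := q
      exact List.mem_cons_self

theorem cov_ok (L : List Job) (hL : ∀ j ∈ L, job j = true) (v0 v1 d : ℕ) :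
    ∀ P : List ℕ, P.length + d = 30 → cov L v0 v1 d P = true →
      top v0 v1 (wk (go d) P) = true := by
  induction d with
  | zero => intro P _ h; exact absurd h Bool.false_ne_true
  | succ d ih =>
    intro P hP h
    have e : cov L v0 v1 (d + 1) P = frc (mask L v0 v1 P) fun m => allLt 65 fun t =>
      or (Nat.testBit m t) (and (Nat.ble t 63) (cov L v0 v1 d (P ++ [t]))) := rfl
    rw [e, frc_eq, all_iff] at h
    refine top_imp (fun t : Fin 65 => sub d t) _ (go_of d) v0 v1 P fun t => ?_
    have := h t t.2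
    rw [Bool.or_eq_true, Bool.and_eq_true, Nat.ble_eq] at this
    rcases this with q | ⟨q, z⟩
    · obtain ⟨m, m1, m2⟩ := mask_bit v0 v1 t P L q
      have e1 : Nat.sub 29 P.length = d := by
        show 29 - P.length = d
        omega
      have j := hL _ m1
      simp only [job, e1] at j
      refine top_imp (fun _ : Unit => part d m) _ (fun a b s x y n k => ?_) v0 v1 P fun _ => j
      have := (all_iff _ _).1 (k ()) t t.2
      rwa [m2] at this
    · have := ih (P ++ [t.1]) (by rw [List.length_append, List.length_singleton]; omega) z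
      rw [wk_app] at this
      refine top_imp (fun _ : Unit => stp t (go d)) _ (fun a b s x y n k => ?_) v0 v1 P
        fun _ => this
      have e1 : Nat.beq t 64 = false := by
        rw [← Bool.not_eq_true, Nat.beq_eq]; omega
      simp only [sub, e1, cond_false]
      exact k ()

theorem run_of (L : List Job) (hL : ∀ j ∈ L, job j = true)
    (h : (allLt 32 fun v0 => allLt v0 fun v1 =>
      or (Nat.ble 32 (Nat.add v0 v1)) (cov L v0 v1 30 [])) = true) : RunStmt := fun v0 v1 h1 h2 => by
  have := (all_iff _ _).1 ((all_iff _ _).1 h v0 (by omega)) v1 h1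
  rw [Bool.or_eq_true, Nat.ble_eq] at this
  unfold run
  rw [e_put, e_go]
  exact cov_ok L hL v0 v1 30 [] rfl (this.resolve_left (by
    show ¬ 32 ≤ v0 + v1
    omega))

theorem all_app {L M : List Job} (h1 : L.all job = true) (h2 : ∀ j ∈ M, job j = true) :
    ∀ j ∈ L ++ M, job j = true := fun j k =>
  (List.mem_append.1 k).elim (List.all_eq_true.1 h1 j) (h2 j)

end Pool.Agent.Lib.MP_ed43e6_ag.N.Lit.Spl
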