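import Pool.Agent.Lib.MP_ed43e6_ag.N.Chk

/-! The packed thresholds and generator indicators. -/

namespace Pool.Agent.Lib.MP_ed43e6_ag.N

open Pool.Agent.Lib.MP_5a2675_co (pk pk_zero pk_succ pk_congr pk_add pk_lt pk_and)

namespace Thr

theorem pk_split (w k n : ℕ) (f : ℕ → ℕ) :
    pk w (k + n) f = pk w k f + 2 ^ (w * k) * pk w n fun i => f (k + i) := by
  induction n with
  | zero => simp [pk_zero]
  | succ n ih =>
    rw [← add_assoc, pk_succ, pk_succ, ih]
    ring

theorem pk_null (w n : ℕ) (f : ℕ → ℕ) (h : ∀ i < n, f i = 0) : pk w n f = 0 := by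
  induction n with
  | zero => rfl
  | succ n ih => rw [pk_succ, ih fun i hi => h i (by omega), h n (by omega)]; simp

theorem pk_trunc (w n k : ℕ) (f : ℕ → ℕ) (h : ∀ i < k, f (n + i) = 0) :
    pk w (n + k) f = pk w n f := by
  rw [pk_split, pk_null w k _ h]
  simp

theorem pk_shl (w n k : ℕ) (f : ℕ → ℕ) (h : ∀ i < n, n ≤ i + k → f i = 0) :
    pk w n f <<< (w * k) = pk w n fun i => if i < k then 0 else f (i - k) := by
  have e1 := pk_split w k n fun i => if i < k then 0 else f (i - k)
  rw [pk_null w k _ fun i hi => if_pos hi, zero_add,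
    pk_congr w n _ f fun i _ => by rw [if_neg (by omega), Nat.add_sub_cancel_left]] at e1
  rw [Nat.shiftLeft_eq, mul_comm, ← e1, add_comm k n]
  refine pk_trunc w n k _ fun i hi => ?_
  split_ifs with h1
  · rfl
  · exact h _ (by omega) (by omega)

theorem pk_shr (w n k : ℕ) (f : ℕ → ℕ) (hf : ∀ i < n, f i < 2 ^ w) :
    pk w n f >>> (w * k) = pk w n fun i => if k + i < n then f (k + i) else 0 := by
  have e1 : pk w n f = pk w (k + n) fun i => if i < n then f i else 0 := by
    rw [add_comm k n, pk_trunc w n k _ fun i _ => if_neg (by omega)]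
    exact pk_congr _ _ _ _ fun i hi => (if_pos hi).symm
  have e2 : pk w k (fun i => if i < n then f i else 0) < 2 ^ (w * k) :=
    pk_lt _ _ _ fun i _ => by
      split_ifs with h1
      · exact hf i h1
      · positivity
  rw [e1, pk_split, Nat.shiftRight_eq_div_pow, Nat.add_mul_div_left _ _ (by positivity),
    Nat.div_eq_of_lt e2, zero_add]

theorem pk_sub (w n : ℕ) (f g : ℕ → ℕ) (h : ∀ i < n, g i ≤ f i) :
    pk w n f - pk w n g = pk w n fun i => f i - g i := by
  rw [pk_congr w n f (fun i => f i - g i + g i) fun i hi => (Nat.sub_add_cancel (h i hi)).symm,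
    ← pk_add, Nat.add_sub_cancel]

theorem big_sub (f g : ℕ → ℕ → ℕ → ℕ → ℕ) (h : ∀ p q a b, g p q a b ≤ f p q a b) :
    big f - big g = big fun p q a b => f p q a b - g p q a b :=
  pk_sub 18 1280 _ _ fun _ _ => h _ _ _ _

theorem big_and (f g : ℕ → ℕ → ℕ → ℕ → ℕ) (hf : ∀ p q a b, f p q a b < 262144)
    (hg : ∀ p q a b, g p q a b < 262144) :
    big f &&& big g = big fun p q a b => f p q a b &&& g p q a b :=
  pk_and 18 1280 _ _ (fun _ _ => hf _ _ _ _) fun _ _ => hg _ _ _ _

theorem and_full {x : ℕ} (h : x < 262144) : x &&& 262143 = x := by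
  have := Nat.and_two_pow_sub_one_eq_mod x 18
  rw [Nat.mod_eq_of_lt h] at this
  exact this

theorem big_of_pk (g : ℕ → ℕ) :
    pk 18 1280 g = big fun p q a b => g (320 * a + 64 * p + 8 * q + b) :=
  pk_congr _ _ _ _ fun i _ => congrArg g (by omega)

/-- The lane reached by a shift. -/
def sh (k : ℕ) (f : ℕ → ℕ → ℕ → ℕ → ℕ) (p q a b : ℕ) : ℕ :=
  if k + (320 * a + 64 * p + 8 * q + b) < 1280 then
    f ((k + (320 * a + 64 * p + 8 * q + b)) / 64 % 5) ((k + (320 * a + 64 * p + 8 * q + b)) / 8 % 8)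
      ((k + (320 * a + 64 * p + 8 * q + b)) / 320) ((k + (320 * a + 64 * p + 8 * q + b)) % 8)
  else 0

theorem sh_le (k c : ℕ) (f : ℕ → ℕ → ℕ → ℕ → ℕ) (h : ∀ p q a b, f p q a b ≤ c) (p q a b : ℕ) :
    sh k f p q a b ≤ c := by
  unfold sh
  split_ifs
  · exact h _ _ _ _
  · exact Nat.zero_le _

theorem big_shr (k m : ℕ) (hm : m = 18 * k) (f : ℕ → ℕ → ℕ → ℕ → ℕ)
    (hf : ∀ p q a b, f p q a b < 262144) : big f >>> m = big (sh k f) := by
  subst hm
  exact (pk_shr 18 1280 k _ fun _ _ => hf _ _ _ _).trans (big_of_pk _)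

theorem sh_one (f : ℕ → ℕ → ℕ → ℕ → ℕ) {p q a b : ℕ} (hp : p < 5) (hq : q < 8) (ha : a < 4)
    (hb : b < 7) : sh 1 f p q a b = f p q a (b + 1) := by
  unfold sh
  rw [if_pos (by omega)]
  congr 1 <;> omega

theorem sh_nine (f : ℕ → ℕ → ℕ → ℕ → ℕ) {p q a b : ℕ} (hp : p < 5) (hq : q < 7) (ha : a < 4)
    (hb : b < 7) : sh 9 f p q a b = f p (q + 1) a (b + 1) := by
  unfold sh
  rw [if_pos (by omega)]
  congr 1 <;> omega

theorem big_shl (k m : ℕ) (hm : m = 18 * k) (f g : ℕ → ℕ → ℕ → ℕ → ℕ)
    (h0 : ∀ i < 1280, 1280 ≤ i + k → f (i / 64 % 5) (i / 8 % 8) (i / 320) (i % 8) = 0)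
    (h1 : ∀ i < 1280, (if i < k then 0 else
      f ((i - k) / 64 % 5) ((i - k) / 8 % 8) ((i - k) / 320) ((i - k) % 8)) =
        g (i / 64 % 5) (i / 8 % 8) (i / 320) (i % 8)) : big f <<< m = big g := by
  subst hm
  exact (pk_shl 18 1280 k _ h0).trans (pk_congr _ _ _ _ h1)

theorem sml_shl (k m : ℕ) (hm : m = 24 * k) (f g : ℕ → ℕ → ℕ)
    (h0 : ∀ i < 40, 40 ≤ i + k → f (i / 8) (i % 8) = 0)
    (h1 : ∀ i < 40, (if i < k then 0 else f ((i - k) / 8) ((i - k) % 8)) = g (i / 8) (i % 8)) :
    sml f <<< m = sml g := by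
  subst hm
  exact (pk_shl 24 40 k _ h0).trans (pk_congr _ _ _ _ h1)

variable {h : ℕ → ℕ → ℕ}

theorem xQ_shl_p (hG : Grid h) :
    xQ h <<< 1152 = big fun p q _ _ => if p = 0 then 0 else h (p - 1) q := by
  rw [xQ]
  refine big_shl 64 1152 rfl _ _ (fun i hi hi' => hG _ _ (Or.inl (by omega))) fun i hi => ?_
  by_cases h1 : i < 64
  · rw [if_pos h1, if_pos (by omega)]
  rw [if_neg h1]
  by_cases h2 : i / 64 % 5 = 0
  · rw [if_pos h2]
    exact hG _ _ (Or.inl (by omega))
  · rw [if_neg h2]
    exact congrArg₂ h (by omega) (by omega)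

theorem xQ_shl_q (hG : Grid h) :
    xQ h <<< 144 = big fun p q _ _ => if q = 0 then 0 else h p (q - 1) := by
  rw [xQ]
  refine big_shl 8 144 rfl _ _ (fun i hi hi' => hG _ _ (Or.inr (by omega))) fun i hi => ?_
  by_cases h1 : i < 8
  · rw [if_pos h1, if_pos (by omega)]
  rw [if_neg h1]
  by_cases h2 : i / 8 % 8 = 0
  · rw [if_pos h2]
    exact hG _ _ (Or.inr (by omega))
  · rw [if_neg h2]
    exact congrArg₂ h (by omega) (by omega)

theorem sml_shl_p (hG : Grid h) :
    sml h <<< 192 = sml fun p q => if p = 0 then 0 else h (p - 1) q := by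
  refine sml_shl 8 192 rfl _ _ (fun i hi hi' => hG _ _ (Or.inl (by omega))) fun i hi => ?_
  by_cases h1 : i < 8
  · rw [if_pos h1, if_pos (by omega)]
  rw [if_neg h1, if_neg (by omega)]
  exact congrArg₂ h (by omega) (by omega)

theorem sml_shl_q (hG : Grid h) :
    sml h <<< 24 = sml fun p q => if q = 0 then 0 else h p (q - 1) := by
  refine sml_shl 1 24 rfl _ _ (fun i hi hi' => hG _ _ (Or.inr (by omega))) fun i hi => ?_
  by_cases h1 : i < 1
  · rw [if_pos h1, if_pos (by omega)]
  rw [if_neg h1]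
  by_cases h2 : i % 8 = 0
  · rw [if_pos h2]
    exact hG _ _ (Or.inr (by omega))
  · rw [if_neg h2]
    exact congrArg₂ h (by omega) (by omega)

theorem sml_mod (f : ℕ → ℕ → ℕ) (hf : ∀ p q, f p q < 16777216) (m : ℕ) (hm : m = 24 * 40) :
    sml f % 2 ^ m = sml f := by
  subst hm
  exact Nat.mod_eq_of_lt (pk_lt 24 40 _ fun _ _ => hf _ _)

theorem vthr_eq (x y : ℕ) : vthr x y =
    vmax bG 17 (vmax bG 17 (vmax bG 17 (b40 - y) ((b40 + x - y <<< 1152) &&& bX))
        ((b40 + x - y <<< 144) &&& bY))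
      (vmin bG 17 ((b40 + x >>> 18 - y) &&& bL)
        (vmax bG 17 (b40 - y) ((b40 + x - y <<< 1152) &&& bX) >>> 162)) := rfl

theorem sgen_eq (s : ℕ) : sgen s = vmin sG 23 s1 (vmin sG 23
    (tsub sG 23 (sX + s <<< 192 % 2 ^ 960) s) (tsub sG 23 (sY + s <<< 24 % 2 ^ 960) s)) := rfl

theorem base_le (h40 : ∀ a b, h a b ≤ 40) (p q a b : ℕ) : base h p q a b ≤ 80 := by
  have := h40 a b
  unfold base
  split_ifs <;> omega

theorem e_c (L : LaneStmt) : b40 + xP h = big fun _ _ a b => 40 + h a b := L.big_add _ _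

theorem e_x (L : LaneStmt) (hG : Grid h) (h40 : ∀ a b, h a b ≤ 40) :
    (b40 + xP h - xQ h <<< 1152) &&& bX =
      big fun p q a b => if p = 0 then 0 else 40 + h a b - h (p - 1) q := by
  rw [e_c L, xQ_shl_p hG, big_sub _ _ fun p q a b => by
    have := h40 (p - 1) q
    split_ifs <;> omega, bX, big_and _ _ (fun p q a b => by
      have := h40 a b
      omega) fun p q a b => by split_ifs <;> omega]
  refine L.big_congr _ _ fun p _ q _ a _ b _ => ?_
  have := h40 a b
  split_ifs
  · exact Nat.and_zero _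
  · exact and_full (by omega)

theorem e_y (L : LaneStmt) (hG : Grid h) (h40 : ∀ a b, h a b ≤ 40) :
    (b40 + xP h - xQ h <<< 144) &&& bY =
      big fun p q a b => if q = 0 then 0 else 40 + h a b - h p (q - 1) := by
  rw [e_c L, xQ_shl_q hG, big_sub _ _ fun p q a b => by
    have := h40 p (q - 1)
    split_ifs <;> omega, bY, big_and _ _ (fun p q a b => by
      have := h40 a b
      omega) fun p q a b => by split_ifs <;> omega]
  refine L.big_congr _ _ fun p _ q _ a _ b _ => ?_
  have := h40 a b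
  split_ifs
  · exact Nat.and_zero _
  · exact and_full (by omega)

theorem e_l (L : LaneStmt) (h40 : ∀ a b, h a b ≤ 40) :
    (b40 + xP h >>> 18 - xQ h) &&& bL =
      big fun p q a b => if q < 7 ∧ b < 7 then 40 + h a (b + 1) - h p q else 0 := by
  have s40 := sh_le 1 40 (fun _ _ a b => h a b) fun _ _ a b => h40 a b
  rw [xP, big_shr 1 18 rfl _ fun p q a b => by
    have := h40 a b
    omega, b40, L.big_add, xQ, big_sub _ _ fun p q a b => by
    have := h40 p q
    omega, bL, big_and _ _ (fun p q a b => by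
      have := s40 p q a b
      omega) fun p q a b => by split_ifs <;> omega]
  refine L.big_congr _ _ fun p hp q hq a ha b _ => ?_
  have := s40 p q a b
  split_ifs with h1
  · rw [and_full (by omega), sh_one _ hp hq ha h1.2]
  · exact Nat.and_zero _

theorem e_b (L : LaneStmt) (hG : Grid h) (h40 : ∀ a b, h a b ≤ 40) :
    vmax bG 17 (b40 - xQ h) ((b40 + xP h - xQ h <<< 1152) &&& bX) = big (base h) := by
  rw [e_x L hG h40, b40, xQ, big_sub _ _ fun p q a b => h40 p q, L.big_max _ _
    fun p _ q _ a _ b _ => by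
      have := h40 a b
      constructor
      · omega
      · split_ifs <;> omega]
  exact L.big_congr _ _ fun _ _ _ _ _ _ _ _ => rfl

end Thr

open Thr in
theorem thrStmt : LaneStmt → ThrStmt := by
  intro L h hG h40
  have b80 := base_le h40
  refine ⟨?_, ?_, ?_⟩
  · have s80 := sh_le 9 80 (base h) b80
    rw [vthr_eq, e_b L hG h40, e_y L hG h40, e_l L h40, big_shr 9 162 rfl _ fun p q a b => by
      have := b80 p q a b
      omega, L.big_max _ _ fun p _ q _ a _ b _ => by
      have := b80 p q a b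
      have := h40 a b
      constructor
      · omega
      · split_ifs <;> omega, L.big_min _ _ fun p _ q _ a _ b _ => by
      have := s80 p q a b
      have := h40 a (b + 1)
      constructor
      · split_ifs <;> omega
      · omega, L.big_max _ _ fun p _ q _ a _ b _ => by
      have := b80 p q a b
      have := s80 p q a b
      have := h40 a b
      constructor
      · split_ifs <;> omega
      · omega]
    refine L.big_congr _ _ fun p hp q hq a ha b _ => ?_
    unfold thr
    by_cases h1 : q < 7 ∧ b < 7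
    · rw [sh_nine _ hp h1.1 ha h1.2]
    · rw [if_neg h1, Nat.zero_min, Nat.zero_min]
  · rw [e_c L, xQ, big_sub _ _ fun p q a b => by
      have := h40 p q
      omega]
  · rw [sgen_eq, sml_shl_p hG, sml_shl_q hG, sml_mod _ (fun p q => by
      have := h40 (p - 1) q
      split_ifs <;> omega) 960 rfl, sml_mod _ (fun p q => by
      have := h40 p (q - 1)
      split_ifs <;> omega) 960 rfl, sX, sY, L.sml_add, L.sml_add, L.sml_tsub _ _
      fun p _ q _ => by
      have := h40 (p - 1) q
      have := h40 p q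
      constructor
      · split_ifs <;> omega
      · omega, L.sml_tsub _ _ fun p _ q _ => by
      have := h40 p (q - 1)
      have := h40 p q
      constructor
      · split_ifs <;> omega
      · omega, L.sml_min _ _ fun p _ q _ => by
      have := h40 p (q - 1)
      have := h40 (p - 1) q
      constructor <;> split_ifs <;> omega, s1, L.sml_min _ _ fun p _ q _ => by
      have := h40 p (q - 1)
      have := h40 (p - 1) q
      constructor
      · omega
      · split_ifs <;> omega]
    refine L.sml_congr _ _ fun p _ q _ => ?_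
    have := h40 p q
    split_ifs <;> omega

end Pool.Agent.Lib.MP_ed43e6_ag.N
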